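import Mathlib

set_option autoImplicit false

/-! A factorization lemma of Cohen type for commuting approximate units. -/

noncomputable section

namespace Pool.Agent.W5h45.Fac

open Filter Topology

universe u

/-- If `τ n` are commuting contractions with `j * τ n → 0` then `j = h * (1 - s)`, where `s` is an
infinite convex combination of the `τ n`, and `h` is a limit of right multiples of `j`. -/
theorem factor {A : Type u} [NormedRing A] [NormedAlgebra ℂ A] [CompleteSpace A] [NormOneClass A]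
    (τ : ℕ → A) (hτ : ∀ n, ‖τ n‖ ≤ 1) (hc : ∀ m n, Commute (τ m) (τ n)) (j : A)
    (hj : Tendsto (fun n => j * τ n) atTop (𝓝 0)) :
    ∃ (w : ℕ → ℕ) (s h : A) (a : ℕ → A), HasSum (fun i => ((1 / 2 : ℂ) ^ (i + 1)) • τ (w i)) s ∧
      Tendsto (fun n => j * a n) atTop (𝓝 h) ∧ h * (1 - s) = j := by
  have hex : ∀ i : ℕ, ∃ n, ‖j * τ n‖ ≤ (1 / 4 : ℝ) ^ i := by
    intro i
    have h1 : (0 : ℝ) < (1 / 4) ^ i := by positivity
    have h2 := (Metric.tendsto_atTop.1 hj) _ h1
    obtain ⟨N, hN⟩ := h2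
    refine ⟨N, ?_⟩
    have := hN N le_rfl
    rw [dist_zero_right] at this
    exact this.le
  choose w hw using hex
  set t : ℕ → A := fun i => ((1 / 2 : ℂ) ^ (i + 1)) • τ (w i) with ht
  have hnt : ∀ i, ‖t i‖ ≤ (1 / 2 : ℝ) ^ (i + 1) := by
    intro i
    rw [ht]
    simp only
    rw [norm_smul, norm_pow]
    have : ‖(1 / 2 : ℂ)‖ = 1 / 2 := by simp
    rw [this]
    exact mul_le_of_le_one_right (by positivity) (hτ _)
  have hsum2 : HasSum (fun i : ℕ => (1 / 2 : ℝ) ^ (i + 1)) 1 := by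
    have := hasSum_geometric_two.mul_left (1 / 2)
    norm_num at this
    refine this.congr_fun fun i => ?_
    rw [pow_succ]; ring
  have hst : Summable t := Summable.of_norm_bounded hsum2.summable hnt
  set s := ∑' i, t i with hs
  set uu : ℕ → A := fun I => ∑ i ∈ Finset.range I, t i with huu
  have hu_tend : Tendsto uu atTop (𝓝 s) := hst.hasSum.tendsto_sum_nat
  have hpart : ∀ I : ℕ, ∑ i ∈ Finset.range I, (1 / 2 : ℝ) ^ (i + 1) = 1 - (1 / 2) ^ I := by
    intro I
    induction I with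
    | zero => simp
    | succ I ih => rw [Finset.sum_range_succ, ih]; ring
  have hun : ∀ I, ‖uu I‖ ≤ 1 - (1 / 2) ^ I := by
    intro I
    rw [← hpart I]
    exact (norm_sum_le _ _).trans (Finset.sum_le_sum fun i _ => hnt i)
  have hun1 : ∀ I, ‖uu I‖ < 1 := by
    intro I
    have h1 : (0 : ℝ) < (1 / 2) ^ I := by positivity
    linarith [hun I]
  set U : ℕ → Aˣ := fun I => Units.oneSub (uu I) (hun1 I) with hU
  have hUv : ∀ I, (U I : A) = 1 - uu I := fun I => rfl
  have hUi : ∀ I, ‖((U I)⁻¹ : Aˣ).val‖ ≤ 2 ^ I := by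
    intro I
    have h1 : ((U I)⁻¹ : Aˣ).val = ∑' n : ℕ, (uu I) ^ n := rfl
    rw [h1]
    refine (tsum_geometric_le_of_norm_lt_one _ (hun1 I)).trans ?_
    rw [norm_one, sub_self, zero_add]
    have h2 : (0 : ℝ) < (1 / 2) ^ I := by positivity
    have h3 : (1 / 2 : ℝ) ^ I ≤ 1 - ‖uu I‖ := by linarith [hun I]
    calc (1 - ‖uu I‖)⁻¹ ≤ ((1 / 2 : ℝ) ^ I)⁻¹ := inv_anti₀ h2 h3
      _ = 2 ^ I := by rw [one_div, inv_pow, inv_inv]
  have hct : ∀ m n, Commute (t m) (t n) := fun m n =>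
    ((hc _ _).smul_left _).smul_right _
  have hcu : ∀ m I, Commute (t m) (uu I) := fun m I =>
    Commute.sum_right _ _ _ fun i _ => hct m i
  have hcU : ∀ m I, Commute (t m) ((U I)⁻¹ : Aˣ).val := by
    intro m I
    apply Commute.units_inv_right
    rw [hUv]
    exact (Commute.one_right _).sub_right (hcu m I)
  set hseq : ℕ → A := fun I => j * ((U I)⁻¹ : Aˣ).val with hhseq
  have hdiff : ∀ I, ‖hseq (I + 1) - hseq I‖ ≤ (1 / 2 : ℝ) ^ I := by
    intro I
    have h1 : ((U (I + 1))⁻¹ : Aˣ).val - ((U I)⁻¹ : Aˣ).val =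
        t I * ((U (I + 1))⁻¹ : Aˣ).val * ((U I)⁻¹ : Aˣ).val := by
      have h2 : (U I : A) - (U (I + 1) : A) = t I := by
        rw [hUv, hUv, huu]
        simp only
        rw [Finset.sum_range_succ]
        abel
      have h3 : ((U (I + 1))⁻¹ : Aˣ).val - ((U I)⁻¹ : Aˣ).val =
          ((U (I + 1))⁻¹ : Aˣ).val * ((U I : A) - (U (I + 1) : A)) * ((U I)⁻¹ : Aˣ).val := by
        rw [mul_sub, sub_mul, mul_assoc, Units.mul_inv, mul_one, Units.inv_mul, one_mul]
      rw [h3, h2, (hcU I (I + 1)).eq]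
    rw [hhseq]
    simp only
    rw [← mul_sub, h1, ← mul_assoc, ← mul_assoc]
    have h4 : ‖j * t I‖ ≤ (1 / 2 : ℝ) ^ (I + 1) * (1 / 4) ^ I := by
      rw [ht]
      simp only
      rw [mul_smul_comm, norm_smul, norm_pow]
      have : ‖(1 / 2 : ℂ)‖ = 1 / 2 := by simp
      rw [this]
      exact mul_le_mul_of_nonneg_left (hw I) (by positivity)
    calc ‖j * t I * ((U (I + 1))⁻¹ : Aˣ).val * ((U I)⁻¹ : Aˣ).val‖
        ≤ ‖j * t I‖ * ‖((U (I + 1))⁻¹ : Aˣ).val‖ * ‖((U I)⁻¹ : Aˣ).val‖ :=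
          (norm_mul_le _ _).trans (mul_le_mul_of_nonneg_right (norm_mul_le _ _) (norm_nonneg _))
      _ ≤ ((1 / 2 : ℝ) ^ (I + 1) * (1 / 4) ^ I) * 2 ^ (I + 1) * 2 ^ I := by
          refine mul_le_mul (mul_le_mul h4 (hUi _) (norm_nonneg _) (by positivity)) (hUi _)
            (norm_nonneg _) (by positivity)
      _ = (1 / 2 : ℝ) ^ I := by
          have e1 : ((1 / 2 : ℝ) ^ (I + 1)) * 2 ^ (I + 1) = 1 := by
            rw [← mul_pow]; norm_num
          have e2 : ((1 / 4 : ℝ) ^ I) * 2 ^ I = (1 / 2) ^ I := by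
            rw [← mul_pow]; norm_num
          calc ((1 / 2 : ℝ) ^ (I + 1) * (1 / 4) ^ I) * 2 ^ (I + 1) * 2 ^ I
              = ((1 / 2 : ℝ) ^ (I + 1) * 2 ^ (I + 1)) * ((1 / 4) ^ I * 2 ^ I) := by ring
            _ = (1 / 2 : ℝ) ^ I := by rw [e1, e2, one_mul]
  have hcauchy : CauchySeq hseq := by
    refine cauchySeq_of_le_geometric (1 / 2) 1 (by norm_num) fun n => ?_
    rw [dist_comm, dist_eq_norm, one_mul]
    exact hdiff n
  obtain ⟨h, hh⟩ := cauchySeq_tendsto_of_complete hcauchy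
  refine ⟨w, s, h, fun I => ((U I)⁻¹ : Aˣ).val, hst.hasSum, hh, ?_⟩
  have h1 : Tendsto (fun I => hseq I * (1 - uu I)) atTop (𝓝 (h * (1 - s))) :=
    hh.mul (tendsto_const_nhds.sub hu_tend)
  have h2 : ∀ I, hseq I * (1 - uu I) = j := by
    intro I
    rw [hhseq, ← hUv]
    simp only
    rw [mul_assoc, Units.inv_mul, mul_one]
  simp only [h2] at h1
  exact (tendsto_nhds_unique h1 tendsto_const_nhds)

/-- The mirrored version. -/
theorem factor' {A : Type u} [NormedRing A] [NormedAlgebra ℂ A] [CompleteSpace A] [NormOneClass A]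
    (τ : ℕ → A) (hτ : ∀ n, ‖τ n‖ ≤ 1) (hc : ∀ m n, Commute (τ m) (τ n)) (j : A)
    (hj : Tendsto (fun n => τ n * j) atTop (𝓝 0)) :
    ∃ (w : ℕ → ℕ) (s h : A) (a : ℕ → A), HasSum (fun i => ((1 / 2 : ℂ) ^ (i + 1)) • τ (w i)) s ∧
      Tendsto (fun n => a n * j) atTop (𝓝 h) ∧ (1 - s) * h = j := by
  obtain ⟨w, s, h, a, h1, h2, h3⟩ := factor (A := Aᵐᵒᵖ) (fun n => MulOpposite.op (τ n))
    (fun n => hτ n) (fun m n => (hc m n).op) (MulOpposite.op j) (by
      have : (fun n => MulOpposite.op j * MulOpposite.op (τ n)) =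
          fun n => MulOpposite.op (τ n * j) := by
        funext n
        rw [MulOpposite.op_mul]
      rw [this, ← MulOpposite.op_zero]
      exact (MulOpposite.continuous_op.tendsto _).comp hj)
  refine ⟨w, s.unop, h.unop, fun n => (a n).unop, ?_, ?_, ?_⟩
  · have := h1.map (MulOpposite.opAddEquiv (α := A)).symm.toAddMonoidHom
      MulOpposite.continuous_unop
    exact this
  · have := (MulOpposite.continuous_unop.tendsto h).comp h2
    exact this
  · have := congrArg MulOpposite.unop h3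
    exact this

end Pool.Agent.W5h45.Fac
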