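import Mathlib

set_option autoImplicit false

/-! The convolution algebra `ℓ¹(G)` of a discrete group, as a Banach algebra. -/

noncomputable section

namespace Pool.Agent.W5h45.LG

open Filter Topology

universe u

/-- the space `ℓ¹(G)`, to be given the convolution product -/
def Alg (G : Type u) : Type u := lp (fun _ : G => ℂ) 1

variable {G : Type u}

instance : NormedAddCommGroup (Alg G) :=
  inferInstanceAs (NormedAddCommGroup (lp (fun _ : G => ℂ) 1))
instance : NormedSpace ℂ (Alg G) :=
  inferInstanceAs (NormedSpace ℂ (lp (fun _ : G => ℂ) 1))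
instance : CompleteSpace (Alg G) :=
  inferInstanceAs (CompleteSpace (lp (fun _ : G => ℂ) 1))

/-- the underlying function -/
def co (f : Alg G) : G → ℂ :=
  @Subtype.val (PreLp (fun _ : G => ℂ)) (fun x => x ∈ lp (fun _ : G => ℂ) 1) f

instance : CoeFun (Alg G) (fun _ => G → ℂ) := ⟨co⟩

lemma add_apply (f g : Alg G) (x : G) : (f + g) x = f x + g x := rfl
lemma sub_apply (f g : Alg G) (x : G) : (f - g) x = f x - g x := rfl
lemma smul_apply (c : ℂ) (f : Alg G) (x : G) : (c • f) x = c * f x := rfl
lemma zero_apply (x : G) : (0 : Alg G) x = 0 := rfl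

lemma ext' {f g : Alg G} (h : ∀ x, f x = g x) : f = g :=
  lp.ext (funext h)

lemma summable_norm (f : Alg G) : Summable fun x => ‖f x‖ := by
  have h := (@lp.memℓp G (fun _ : G => ℂ) 1 _ f).summable (by simp)
  simp only [ENNReal.toReal_one, Real.rpow_one] at h
  exact h

lemma norm_def (f : Alg G) : ‖f‖ = ∑' x, ‖f x‖ := by
  have h := @lp.norm_eq_tsum_rpow G (fun _ : G => ℂ) 1 _ (by simp) f
  simp only [ENNReal.toReal_one, Real.rpow_one, div_one] at h
  exact h

/-- construct an element -/
def mkA (f : G → ℂ) (hf : Summable fun x => ‖f x‖) : Alg G :=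
  ⟨f, memℓp_gen (by simpa using hf)⟩

lemma mkA_apply (f : G → ℂ) (hf : Summable fun x => ‖f x‖) (x : G) : mkA f hf x = f x := rfl

/-- point mass -/
def dl [DecidableEq G] (g : G) : Alg G := lp.single 1 g (1 : ℂ)

lemma dl_apply [DecidableEq G] (g x : G) : dl g x = if x = g then 1 else 0 := by
  unfold dl
  have := lp.single_apply (E := fun _ : G => ℂ) 1 g (1 : ℂ) x
  refine this.trans ?_
  simp [Pi.single_apply]

lemma norm_dl [DecidableEq G] (g : G) : ‖dl g‖ = 1 := by
  have := lp.norm_single (E := fun _ : G => ℂ) (p := 1) (by norm_num) g (1 : ℂ)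
  refine this.trans ?_
  simp

lemma hasSum_dl [DecidableEq G] (f : Alg G) : HasSum (fun g => f g • dl g) f := by
  have key : HasSum (fun g : G => (lp.single 1 g (f g) : lp (fun _ : G => ℂ) 1)) f :=
    @lp.hasSum_single G (fun _ : G => ℂ) 1 _ _ _ (by norm_num) f
  have h2 : (fun g : G => (lp.single 1 g (f g) : lp (fun _ : G => ℂ) 1)) =
      fun g : G => (f g • dl g : Alg G) := by
    funext g
    apply lp.ext
    funext x
    have h2 := lp.single_apply (E := fun _ : G => ℂ) 1 g (f g) x
    refine h2.trans ?_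
    have h3 : (f g • dl g : Alg G) x = f g * (if x = g then 1 else 0) := by
      rw [smul_apply, dl_apply]
    refine Eq.trans ?_ h3.symm
    simp only [Pi.single_apply]
    split_ifs with h <;> simp
  rw [h2] at key
  exact key

/-- the pairing of `ℓ¹` with bounded functions -/
lemma summable_pair (f : Alg G) {φ : G → ℂ} {C : ℝ} (hφ : ∀ x, ‖φ x‖ ≤ C) :
    Summable fun x => f x * φ x := by
  refine Summable.of_norm_bounded ((summable_norm f).mul_right C) fun x => ?_
  rw [norm_mul]
  exact mul_le_mul_of_nonneg_left (hφ x) (norm_nonneg _)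

section conv

variable [Group G]

lemma summable_prod (f g : Alg G) : Summable fun p : G × G => ‖f p.1‖ * ‖g (p.1⁻¹ * p.2)‖ := by
  have h := (summable_norm f).mul_of_nonneg (summable_norm g) (fun _ => norm_nonneg _)
    (fun _ => norm_nonneg _)
  let e : G × G ≃ G × G :=
    { toFun := fun p => (p.1, p.1⁻¹ * p.2)
      invFun := fun p => (p.1, p.1 * p.2)
      left_inv := fun p => by simp
      right_inv := fun p => by simp }
  exact (e.summable_iff (f := fun p : G × G => ‖f p.1‖ * ‖g p.2‖)).2 h

lemma conv_summable (f g : Alg G) (x : G) : Summable fun y => f y * g (y⁻¹ * x) := by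
  refine Summable.of_norm ?_
  have h := (summable_prod f g).comp_injective (i := fun y : G => (y, x)) (fun a b h => by
    simpa using h)
  refine h.congr fun y => ?_
  simp

lemma conv_summable' (f g : Alg G) : Summable fun x => ‖∑' y, f y * g (y⁻¹ * x)‖ := by
  have h := ((Equiv.prodComm G G).summable_iff
    (f := fun p : G × G => ‖f p.1‖ * ‖g (p.1⁻¹ * p.2)‖)).2 (summable_prod f g)
  have h2 := h.prod
  refine Summable.of_nonneg_of_le (fun _ => norm_nonneg _) (fun x => ?_) h2
  refine (norm_tsum_le_tsum_norm ?_).trans (le_of_eq ?_)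
  · exact (conv_summable f g x).norm
  · simp

/-- convolution -/
instance : Mul (Alg G) := ⟨fun f g => mkA (fun x => ∑' y, f y * g (y⁻¹ * x)) (conv_summable' f g)⟩

lemma mul_apply (f g : Alg G) (x : G) : (f * g) x = ∑' y, f y * g (y⁻¹ * x) := rfl

/-- the key identity for pairings with convolutions -/
lemma pair_mul (f g : Alg G) {φ : G → ℂ} {C : ℝ} (hφ : ∀ x, ‖φ x‖ ≤ C) :
    ∑' x, (f * g) x * φ x = ∑' y, f y * ∑' z, g z * φ (y * z) := by
  have hC : ∀ x : G, 0 ≤ C := fun x => (norm_nonneg _).trans (hφ x)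
  have hs : Summable (Function.uncurry fun x y => f y * g (y⁻¹ * x) * φ x) := by
    refine Summable.of_norm_bounded (g := fun p : G × G => ‖f p.2‖ * ‖g (p.2⁻¹ * p.1)‖ * C) ?_ ?_
    · exact (((Equiv.prodComm G G).summable_iff
        (f := fun p : G × G => ‖f p.1‖ * ‖g (p.1⁻¹ * p.2)‖)).2 (summable_prod f g)).mul_right C
    · rintro ⟨x, y⟩
      simp only [Function.uncurry, norm_mul]
      exact mul_le_mul_of_nonneg_left (hφ x) (by positivity)
  calc ∑' x, (f * g) x * φ x = ∑' x, ∑' y, f y * g (y⁻¹ * x) * φ x := by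
        refine tsum_congr fun x => ?_
        rw [mul_apply, tsum_mul_right]
    _ = ∑' y, ∑' x, f y * g (y⁻¹ * x) * φ x := (Summable.tsum_comm hs).symm
    _ = ∑' y, f y * ∑' z, g z * φ (y * z) := by
        refine tsum_congr fun y => ?_
        rw [← (Equiv.mulLeft y).tsum_eq, ← tsum_mul_left]
        refine tsum_congr fun z => ?_
        simp [mul_assoc]

lemma norm_mul_le' (f g : Alg G) : ‖f * g‖ ≤ ‖f‖ * ‖g‖ := by
  rw [norm_def, norm_def, norm_def]
  have h := ((Equiv.prodComm G G).summable_iff
    (f := fun p : G × G => ‖f p.1‖ * ‖g (p.1⁻¹ * p.2)‖)).2 (summable_prod f g)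
  calc ∑' x, ‖(f * g) x‖ ≤ ∑' x, ∑' y, ‖f y‖ * ‖g (y⁻¹ * x)‖ := by
        refine Summable.tsum_le_tsum (fun x => ?_) (conv_summable' f g) h.prod
        rw [mul_apply]
        refine (norm_tsum_le_tsum_norm (conv_summable f g x).norm).trans (le_of_eq ?_)
        simp
    _ = ∑' y, ∑' x, ‖f y‖ * ‖g (y⁻¹ * x)‖ :=
        (Summable.tsum_comm (f := fun x y => ‖f y‖ * ‖g (y⁻¹ * x)‖) h).symm
    _ = ∑' y, ‖f y‖ * ∑' z, ‖g z‖ := by
        refine tsum_congr fun y => ?_
        rw [← (Equiv.mulLeft y).tsum_eq, ← tsum_mul_left]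
        refine tsum_congr fun z => ?_
        simp
    _ = (∑' x, ‖f x‖) * ∑' x, ‖g x‖ := tsum_mul_right

omit [Group G] in
/-- coordinates as a pairing -/
lemma coord [DecidableEq G] (f : Alg G) (x : G) : f x = ∑' y, f y * (if y = x then (1 : ℂ) else 0) := by
  rw [tsum_eq_single x]
  · simp
  · intro b hb
    simp [hb]

omit [Group G] in
lemma ext_pair {f g : Alg G}
    (h : ∀ φ : G → ℂ, (∀ x, ‖φ x‖ ≤ 1) → ∑' x, f x * φ x = ∑' x, g x * φ x) : f = g := by
  classical
  apply ext'
  intro x
  rw [coord f x, coord g x]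
  apply h
  intro y
  split_ifs <;> simp

lemma mul_assoc' (f g h : Alg G) : f * g * h = f * (g * h) := by
  apply ext_pair
  intro φ hφ
  have hb : ∀ w, ‖∑' z, h z * φ (w * z)‖ ≤ ‖h‖ := by
    intro w
    rw [norm_def]
    have hs : Summable fun z => ‖h z * φ (w * z)‖ := by
      refine Summable.of_nonneg_of_le (fun _ => norm_nonneg _) (fun z => ?_) (summable_norm h)
      rw [norm_mul]
      exact mul_le_of_le_one_right (norm_nonneg _) (hφ _)
    refine (norm_tsum_le_tsum_norm hs).trans (Summable.tsum_le_tsum (fun z => ?_) hs (summable_norm h))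
    rw [norm_mul]
    exact mul_le_of_le_one_right (norm_nonneg _) (hφ _)
  rw [pair_mul _ _ hφ, pair_mul f g hb, pair_mul f _ hφ]
  refine tsum_congr fun x => ?_
  rw [pair_mul g h (φ := fun z => φ (x * z)) (fun z => hφ _)]
  simp only [mul_assoc]

open Classical in
/-- the unit -/
instance : One (Alg G) := ⟨dl 1⟩

lemma one_def [inst : DecidableEq G] : (1 : Alg G) = dl 1 := by
  have : inst = fun a b => Classical.propDecidable (a = b) := Subsingleton.elim _ _
  subst this
  rfl

lemma dl_mul_apply [DecidableEq G] (g : G) (f : Alg G) (x : G) : (dl g * f) x = f (g⁻¹ * x) := by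
  rw [mul_apply, tsum_eq_single g]
  · rw [dl_apply]; simp
  · intro b hb
    rw [dl_apply]; simp [hb]

lemma mul_dl_apply [DecidableEq G] (g : G) (f : Alg G) (x : G) : (f * dl g) x = f (x * g⁻¹) := by
  rw [mul_apply, tsum_eq_single (x * g⁻¹)]
  · rw [dl_apply]; simp
  · intro b hb
    rw [dl_apply]
    rw [if_neg, mul_zero]
    intro h
    apply hb
    rw [← h]
    group

lemma dl_mul_dl [DecidableEq G] (g h : G) : (dl g * dl h : Alg G) = dl (g * h) := by
  apply ext'
  intro x
  rw [dl_mul_apply, dl_apply, dl_apply]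
  congr 1
  rw [inv_mul_eq_iff_eq_mul]

instance : Ring (Alg G) where
  __ := (inferInstance : AddCommGroup (Alg G))
  mul := (· * ·)
  one := 1
  left_distrib f g h := by
    apply ext'
    intro x
    rw [add_apply, mul_apply, mul_apply, mul_apply,
      ← (conv_summable f g x).tsum_add (conv_summable f h x)]
    exact tsum_congr fun y => by rw [add_apply]; ring
  right_distrib f g h := by
    apply ext'
    intro x
    rw [add_apply, mul_apply, mul_apply, mul_apply,
      ← (conv_summable f h x).tsum_add (conv_summable g h x)]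
    exact tsum_congr fun y => by rw [add_apply]; ring
  zero_mul f := by
    apply ext'
    intro x
    rw [mul_apply, zero_apply]
    simp [zero_apply]
  mul_zero f := by
    apply ext'
    intro x
    rw [mul_apply, zero_apply]
    simp [zero_apply]
  mul_assoc := mul_assoc'
  one_mul f := by
    classical
    apply ext'
    intro x
    rw [one_def, dl_mul_apply]; simp
  mul_one f := by
    classical
    apply ext'
    intro x
    rw [one_def, mul_dl_apply]; simp

instance : NormedRing (Alg G) where
  __ := (inferInstance : NormedAddCommGroup (Alg G))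
  __ := (inferInstance : Ring (Alg G))
  norm_mul_le := norm_mul_le'

lemma smul_mul' (c : ℂ) (f g : Alg G) : (c • f) * g = c • (f * g) := by
  apply ext'
  intro x
  rw [smul_apply, mul_apply, mul_apply, ← tsum_mul_left]
  exact tsum_congr fun y => by rw [smul_apply]; ring

lemma mul_smul' (c : ℂ) (f g : Alg G) : f * (c • g) = c • (f * g) := by
  apply ext'
  intro x
  rw [smul_apply, mul_apply, mul_apply, ← tsum_mul_left]
  exact tsum_congr fun y => by rw [smul_apply]; ring

instance : Algebra ℂ (Alg G) := Algebra.ofModule smul_mul' mul_smul'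

instance : NormedAlgebra ℂ (Alg G) where
  norm_smul_le := norm_smul_le

instance : NormOneClass (Alg G) := ⟨by classical rw [one_def, norm_dl]⟩

end conv

end Pool.Agent.W5h45.LG
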