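import Mathlib
import Pool.Agent.W5h45.LG1

set_option autoImplicit false

/-! Characters, harmonic functions, and the basic `L²` estimate. -/

noncomputable section

namespace Pool.Agent.W5h45.LG

open Filter Topology

universe u

variable {G : Type u}

/-- expansion of a functional -/
lemma fn_expand [DecidableEq G] (ψ : Alg G →L[ℂ] ℂ) (f : Alg G) :
    ψ f = ∑' x, f x * ψ (dl x) := by
  have h := (hasSum_dl f).mapL ψ
  rw [← h.tsum_eq]
  exact tsum_congr fun x => by rw [map_smul, smul_eq_mul]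

lemma fn_dl_le [DecidableEq G] (ψ : Alg G →L[ℂ] ℂ) (x : G) : ‖ψ (dl x)‖ ≤ ‖ψ‖ := by
  have := ψ.le_opNorm (dl x)
  rwa [norm_dl, mul_one] at this

variable [Group G]

/-- the second form of the key identity for pairings with convolutions -/
lemma pair_mul2 (f g : Alg G) {φ : G → ℂ} {C : ℝ} (hφ : ∀ x, ‖φ x‖ ≤ C) :
    ∑' x, (f * g) x * φ x = ∑' z, g z * ∑' y, f y * φ (y * z) := by
  rw [pair_mul f g hφ]
  have hs : Summable (Function.uncurry fun y z => f y * g z * φ (y * z)) := by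
    refine Summable.of_norm_bounded (g := fun p : G × G => ‖f p.1‖ * ‖g p.2‖ * C) ?_ ?_
    · exact ((summable_norm f).mul_of_nonneg (summable_norm g) (fun _ => norm_nonneg _)
        (fun _ => norm_nonneg _)).mul_right C
    · rintro ⟨y, z⟩
      simp only [Function.uncurry, norm_mul]
      exact mul_le_mul_of_nonneg_left (hφ _) (by positivity)
  calc ∑' y, f y * ∑' z, g z * φ (y * z) = ∑' y, ∑' z, f y * g z * φ (y * z) := by
        refine tsum_congr fun y => ?_
        rw [← tsum_mul_left]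
        exact tsum_congr fun z => by ring
    _ = ∑' z, ∑' y, f y * g z * φ (y * z) := (Summable.tsum_comm hs).symm
    _ = ∑' z, g z * ∑' y, f y * φ (y * z) := by
        refine tsum_congr fun y => ?_
        rw [← tsum_mul_left]
        exact tsum_congr fun z => by ring

/-- The functional given by a unimodular character. -/
def ev (α : G →* ℂ) (hα : ∀ g, ‖α g‖ = 1) : Alg G →L[ℂ] ℂ :=
  LinearMap.mkContinuous
    { toFun := fun f => ∑' x, f x * α x
      map_add' := fun f g => by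
        rw [← (summable_pair f (fun x => (hα x).le)).tsum_add (summable_pair g (fun x => (hα x).le))]
        exact tsum_congr fun x => by rw [add_apply]; ring
      map_smul' := fun c f => by
        rw [RingHom.id_apply, smul_eq_mul, ← tsum_mul_left]
        exact tsum_congr fun x => by rw [smul_apply]; ring } 1 (by
    intro f
    rw [one_mul, norm_def]
    have hs : Summable fun x => ‖f x * α x‖ := by
      refine (summable_norm f).congr fun x => ?_
      rw [norm_mul, hα, mul_one]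
    refine (norm_tsum_le_tsum_norm hs).trans (le_of_eq (tsum_congr fun x => ?_))
    rw [norm_mul, hα, mul_one])

lemma ev_apply (α : G →* ℂ) (hα : ∀ g, ‖α g‖ = 1) (f : Alg G) : ev α hα f = ∑' x, f x * α x := rfl

lemma ev_mul (α : G →* ℂ) (hα : ∀ g, ‖α g‖ = 1) (f g : Alg G) :
    ev α hα (f * g) = ev α hα f * ev α hα g := by
  rw [ev_apply, pair_mul f g (fun x => (hα x).le), ev_apply, ← tsum_mul_right]
  refine tsum_congr fun y => ?_
  rw [ev_apply, mul_assoc]
  congr 1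
  rw [← tsum_mul_left]
  exact tsum_congr fun z => by rw [map_mul]; ring

lemma ev_dl [DecidableEq G] (α : G →* ℂ) (hα : ∀ g, ‖α g‖ = 1) (x : G) : ev α hα (dl x) = α x := by
  rw [ev_apply, tsum_eq_single x]
  · rw [dl_apply, if_pos rfl, one_mul]
  · intro b hb
    rw [dl_apply, if_neg hb, zero_mul]

lemma ev_one (α : G →* ℂ) (hα : ∀ g, ‖α g‖ = 1) : ev α hα 1 = 1 := by
  classical
  rw [one_def, ev_dl, map_one]

/-- twisting by a character -/
def tw (β : G →* ℂ) (hβ : ∀ g, ‖β g‖ = 1) (f : Alg G) : Alg G :=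
  mkA (fun x => (β x)⁻¹ * f x) ((summable_norm f).congr fun x => by
    rw [norm_mul, norm_inv, hβ, inv_one, one_mul])

lemma tw_apply (β : G →* ℂ) (hβ : ∀ g, ‖β g‖ = 1) (f : Alg G) (x : G) :
    tw β hβ f x = (β x)⁻¹ * f x := rfl

lemma norm_tw (β : G →* ℂ) (hβ : ∀ g, ‖β g‖ = 1) (f : Alg G) : ‖tw β hβ f‖ = ‖f‖ := by
  rw [norm_def, norm_def]
  refine tsum_congr fun x => ?_
  rw [tw_apply, norm_mul, norm_inv, hβ, inv_one, one_mul]

lemma tw_mul (β : G →* ℂ) (hβ : ∀ g, ‖β g‖ = 1) (f g : Alg G) :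
    tw β hβ (f * g) = tw β hβ f * tw β hβ g := by
  apply ext'
  intro x
  rw [tw_apply, mul_apply, mul_apply, ← tsum_mul_left]
  refine tsum_congr fun y => ?_
  rw [tw_apply, tw_apply]
  have h : β x = β y * β (y⁻¹ * x) := by rw [← map_mul]; simp
  rw [h, mul_inv]
  ring

lemma tw_one (β : G →* ℂ) (hβ : ∀ g, ‖β g‖ = 1) : tw β hβ 1 = 1 := by
  classical
  apply ext'
  intro x
  rw [tw_apply, one_def, dl_apply]
  split_ifs with h
  · rw [h, map_one]; simp
  · simp

lemma tw_pow (β : G →* ℂ) (hβ : ∀ g, ‖β g‖ = 1) (f : Alg G) (n : ℕ) :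
    tw β hβ (f ^ n) = (tw β hβ f) ^ n := by
  induction n with
  | zero => rw [pow_zero, pow_zero, tw_one]
  | succ n ih => rw [pow_succ, pow_succ, tw_mul, ih]

/-- a probability measure with full support -/
structure FullProb (G : Type u) where
  /-- the weights -/
  m : G → ℝ
  pos : ∀ g, 0 < m g
  sum : HasSum m 1

/-- the measure as an element of the algebra -/
def FullProb.P (μ : FullProb G) : Alg G :=
  mkA (fun x => (μ.m x : ℂ)) (by
    refine μ.sum.summable.congr fun x => ?_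
    rw [Complex.norm_real, Real.norm_of_nonneg (μ.pos x).le])

omit [Group G] in
lemma FullProb.P_apply (μ : FullProb G) (x : G) : μ.P x = (μ.m x : ℂ) := rfl

lemma FullProb.norm_P (μ : FullProb G) : ‖μ.P‖ = 1 := by
  rw [norm_def, ← μ.sum.tsum_eq]
  refine tsum_congr fun x => ?_
  rw [μ.P_apply, Complex.norm_real, Real.norm_of_nonneg (μ.pos x).le]

lemma FullProb.norm_P_pow (μ : FullProb G) (n : ℕ) : ‖μ.P ^ n‖ ≤ 1 := by
  refine (norm_pow_le _ _).trans ?_
  rw [μ.norm_P, one_pow]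

lemma FullProb.P_pow_eq (μ : FullProb G) (n : ℕ) (x : G) :
    (μ.P ^ n) x = ((‖(μ.P ^ n) x‖ : ℝ) : ℂ) := by
  have key : ∀ n : ℕ, ∀ x, ∃ r : ℝ, 0 ≤ r ∧ (μ.P ^ n) x = (r : ℂ) := by
    intro n
    induction n with
    | zero =>
      classical
      intro x
      rw [pow_zero, one_def, dl_apply]
      split_ifs
      · exact ⟨1, by norm_num, by simp⟩
      · exact ⟨0, le_rfl, by simp⟩
    | succ n ih =>
      intro x
      choose r hr0 hr using ih
      refine ⟨∑' y, μ.m y * r (y⁻¹ * x), tsum_nonneg fun y => mul_nonneg (μ.pos y).le (hr0 _), ?_⟩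
      rw [pow_succ', mul_apply, Complex.ofReal_tsum]
      refine tsum_congr fun y => ?_
      rw [μ.P_apply, hr, Complex.ofReal_mul]
  obtain ⟨r, hr0, hr⟩ := key n x
  rw [hr, Complex.norm_real, Real.norm_of_nonneg hr0]

/-- pointwise submartingale estimate -/
lemma FullProb.point_est (μ : FullProb G) {h : G → ℂ} (hb : ∀ x, ‖h x‖ ≤ 1)
    (hh : ∀ x, h x = ∑' y, μ.P y * h (y * x)) (A x : G) :
    ‖h x‖ ^ 2 + μ.m A * ‖h (A * x) - h x‖ ^ 2 ≤ ∑' y, μ.m y * ‖h (y * x)‖ ^ 2 := by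
  have hm := μ.sum.summable
  have s1 : Summable fun y => μ.m y * ‖h (y * x) - h x‖ ^ 2 := by
    refine Summable.of_nonneg_of_le (fun y => mul_nonneg (μ.pos y).le (by positivity)) (fun y => ?_)
      (hm.mul_right 4)
    refine mul_le_mul_of_nonneg_left ?_ (μ.pos y).le
    have h1 : ‖h (y * x) - h x‖ ≤ 2 := (norm_sub_le _ _).trans (by linarith [hb (y * x), hb x])
    nlinarith [norm_nonneg (h (y * x) - h x)]
  have s2 : HasSum (fun y => μ.P y * h (y * x)) (h x) := by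
    have h1 : Summable fun y => μ.P y * h (y * x) := summable_pair μ.P (fun y => hb (y * x))
    have h2 := h1.hasSum
    rwa [← hh x] at h2
  have s3 : HasSum (fun y => μ.P y * (h (y * x) - h x)) 0 := by
    have h1 : HasSum (fun y => μ.P y * h x) (h x) := by
      have := (Complex.hasSum_ofReal.2 μ.sum).mul_right (h x)
      rw [Complex.ofReal_one, one_mul] at this
      exact this
    have h2 := s2.sub h1
    rw [sub_self] at h2
    refine h2.congr_fun fun y => ?_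
    ring
  have s4 : HasSum (fun y => μ.m y * (2 * ((starRingEnd ℂ) (h x) * (h (y * x) - h x)).re)) 0 := by
    have h1 := (s3.mul_left ((starRingEnd ℂ) (h x))).mapL Complex.reCLM
    rw [mul_zero, map_zero] at h1
    have h2 := h1.mul_left 2
    rw [mul_zero] at h2
    refine h2.congr_fun fun y => ?_
    rw [μ.P_apply, Complex.reCLM_apply]
    have : (starRingEnd ℂ) (h x) * ((μ.m y : ℂ) * (h (y * x) - h x)) =
      (μ.m y : ℂ) * ((starRingEnd ℂ) (h x) * (h (y * x) - h x)) := by ring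
    rw [this, Complex.re_ofReal_mul]
    ring
  have s5 : HasSum (fun y => μ.m y * ‖h x‖ ^ 2) (‖h x‖ ^ 2) := by
    have := μ.sum.mul_right (‖h x‖ ^ 2)
    rwa [one_mul] at this
  have s6 := (s5.add s4).add s1.hasSum
  have hexp : ∀ y, μ.m y * ‖h x‖ ^ 2 + μ.m y * (2 * ((starRingEnd ℂ) (h x) * (h (y * x) - h x)).re)
      + μ.m y * ‖h (y * x) - h x‖ ^ 2 = μ.m y * ‖h (y * x)‖ ^ 2 := by
    intro y
    have h1 : ‖h (y * x)‖ ^ 2 = ‖h x‖ ^ 2 + 2 * ((starRingEnd ℂ) (h x) * (h (y * x) - h x)).re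
        + ‖h (y * x) - h x‖ ^ 2 := by
      have h2 : h (y * x) = h x + (h (y * x) - h x) := by ring
      conv_lhs => rw [h2]
      rw [← Complex.normSq_eq_norm_sq, ← Complex.normSq_eq_norm_sq, ← Complex.normSq_eq_norm_sq,
        Complex.normSq_add]
      have h3 : (h x * (starRingEnd ℂ) (h (y * x) - h x)).re =
          ((starRingEnd ℂ) (h x) * (h (y * x) - h x)).re := by
        rw [← Complex.conj_re]
        simp [mul_comm]
      rw [h3]
      ring
    rw [h1]
    ring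
  have s7 : HasSum (fun y => μ.m y * ‖h (y * x)‖ ^ 2)
      (‖h x‖ ^ 2 + 0 + ∑' y, μ.m y * ‖h (y * x) - h x‖ ^ 2) := s6.congr_fun fun y => (hexp y).symm
  rw [s7.tsum_eq, add_zero]
  have h8 : μ.m A * ‖h (A * x) - h x‖ ^ 2 ≤ ∑' y, μ.m y * ‖h (y * x) - h x‖ ^ 2 :=
    s1.le_tsum A fun y _ => mul_nonneg (μ.pos y).le (by positivity)
  linarith

/-- the sum of the increments is bounded -/
lemma FullProb.tele (μ : FullProb G) {h : G → ℂ} (hb : ∀ x, ‖h x‖ ≤ 1)
    (hh : ∀ x, h x = ∑' y, μ.P y * h (y * x)) (A : G) (M : ℕ) :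
    μ.m A * ∑ m ∈ Finset.range M, ∑' x, ‖(μ.P ^ m) x‖ * ‖h (A * x) - h x‖ ^ 2 ≤ 1 := by
  set q : ℕ → ℝ := fun m => ∑' x, ‖(μ.P ^ m) x‖ * ‖h x‖ ^ 2 with hq
  have hb2 : ∀ x, ‖h x‖ ^ 2 ≤ 1 := fun x => pow_le_one₀ (norm_nonneg _) (hb x)
  have hD4 : ∀ x, ‖h (A * x) - h x‖ ^ 2 ≤ 4 := fun x => by
    have h1 : ‖h (A * x) - h x‖ ≤ 2 := (norm_sub_le _ _).trans (by linarith [hb (A * x), hb x])
    nlinarith [norm_nonneg (h (A * x) - h x)]
  have sq : ∀ m, Summable fun x => ‖(μ.P ^ m) x‖ * ‖h x‖ ^ 2 := fun m =>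
    Summable.of_nonneg_of_le (fun x => by positivity)
      (fun x => mul_le_of_le_one_right (norm_nonneg _) (hb2 x)) (summable_norm (μ.P ^ m))
  have sD : ∀ m, Summable fun x => ‖(μ.P ^ m) x‖ * ‖h (A * x) - h x‖ ^ 2 := fun m =>
    Summable.of_nonneg_of_le (fun x => by positivity)
      (fun x => mul_le_mul_of_nonneg_left (hD4 x) (norm_nonneg _))
      ((summable_norm (μ.P ^ m)).mul_right 4)
  have hq1 : ∀ m, q m ≤ 1 := by
    intro m
    refine le_trans ?_ (μ.norm_P_pow m)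
    rw [norm_def]
    exact Summable.tsum_le_tsum (fun x => mul_le_of_le_one_right (norm_nonneg _) (hb2 x)) (sq m)
      (summable_norm _)
  have hq0 : ∀ m, 0 ≤ q m := fun m => tsum_nonneg fun x => by positivity
  -- the mean of the squares
  have hR1 : ∀ z, ∑' y, μ.m y * ‖h (y * z)‖ ^ 2 ≤ 1 := by
    intro z
    rw [← μ.sum.tsum_eq]
    refine Summable.tsum_le_tsum (fun y => mul_le_of_le_one_right (μ.pos y).le (hb2 _)) ?_
      μ.sum.summable
    exact Summable.of_nonneg_of_le (fun y => mul_nonneg (μ.pos y).le (by positivity))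
      (fun y => mul_le_of_le_one_right (μ.pos y).le (hb2 _)) μ.sum.summable
  have hR0 : ∀ z, 0 ≤ ∑' y, μ.m y * ‖h (y * z)‖ ^ 2 := fun z =>
    tsum_nonneg fun y => mul_nonneg (μ.pos y).le (by positivity)
  have sR : ∀ m, Summable fun z => ‖(μ.P ^ m) z‖ * ∑' y, μ.m y * ‖h (y * z)‖ ^ 2 := fun m =>
    Summable.of_nonneg_of_le (fun z => mul_nonneg (norm_nonneg _) (hR0 z))
      (fun z => mul_le_of_le_one_right (norm_nonneg _) (hR1 z)) (summable_norm (μ.P ^ m))
  have hstep : ∀ m, q (m + 1) = ∑' z, ‖(μ.P ^ m) z‖ * ∑' y, μ.m y * ‖h (y * z)‖ ^ 2 := by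
    intro m
    have h1 := pair_mul2 μ.P (μ.P ^ m) (φ := fun x => ((‖h x‖ ^ 2 : ℝ) : ℂ)) (C := 1) (fun x => by
      rw [Complex.norm_real, Real.norm_of_nonneg (by positivity)]
      exact hb2 x)
    apply Complex.ofReal_injective
    rw [hq]
    simp only
    rw [Complex.ofReal_tsum, Complex.ofReal_tsum]
    have h2 : ∀ x, (((‖(μ.P ^ (m + 1)) x‖ * ‖h x‖ ^ 2 : ℝ)) : ℂ) =
        (μ.P * μ.P ^ m) x * ((‖h x‖ ^ 2 : ℝ) : ℂ) := by
      intro x
      rw [← pow_succ', Complex.ofReal_mul, ← μ.P_pow_eq]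
    rw [tsum_congr h2, h1]
    refine tsum_congr fun z => ?_
    rw [Complex.ofReal_mul, ← μ.P_pow_eq, Complex.ofReal_tsum]
    congr 1
    refine tsum_congr fun y => ?_
    rw [Complex.ofReal_mul, μ.P_apply]
  have hinc : ∀ m, q m + μ.m A * ∑' x, ‖(μ.P ^ m) x‖ * ‖h (A * x) - h x‖ ^ 2 ≤ q (m + 1) := by
    intro m
    rw [hstep m, hq]
    simp only
    rw [← tsum_mul_left, ← (sq m).tsum_add ((sD m).mul_left _)]
    refine Summable.tsum_le_tsum (fun x => ?_) ((sq m).add ((sD m).mul_left _)) (sR m)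
    have := mul_le_mul_of_nonneg_left (μ.point_est hb hh A x) (norm_nonneg ((μ.P ^ m) x))
    calc ‖(μ.P ^ m) x‖ * ‖h x‖ ^ 2 + μ.m A * (‖(μ.P ^ m) x‖ * ‖h (A * x) - h x‖ ^ 2)
        = ‖(μ.P ^ m) x‖ * (‖h x‖ ^ 2 + μ.m A * ‖h (A * x) - h x‖ ^ 2) := by ring
      _ ≤ _ := this
  have htot : ∀ M, q 0 + μ.m A * ∑ m ∈ Finset.range M,
      ∑' x, ‖(μ.P ^ m) x‖ * ‖h (A * x) - h x‖ ^ 2 ≤ q M := by
    intro M
    induction M with
    | zero => simp
    | succ M ih =>
      rw [Finset.sum_range_succ, mul_add]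
      have := hinc M
      linarith
  have h1 := htot M
  have h2 := hq0 0
  have h3 := hq1 M
  linarith

/-- the twisted measure -/
def FullProb.nu (μ : FullProb G) (β : G →* ℂ) (hβ : ∀ g, ‖β g‖ = 1) : Alg G := tw β hβ μ.P

/-- its Cesàro means -/
def FullProb.sig (μ : FullProb G) (β : G →* ℂ) (hβ : ∀ g, ‖β g‖ = 1) (M : ℕ) : Alg G :=
  ((M : ℂ)⁻¹) • ∑ m ∈ Finset.range M, μ.nu β hβ ^ m

lemma FullProb.norm_nu_pow (μ : FullProb G) (β : G →* ℂ) (hβ : ∀ g, ‖β g‖ = 1) (m : ℕ) :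
    ‖μ.nu β hβ ^ m‖ ≤ 1 := by
  rw [FullProb.nu, ← tw_pow, norm_tw]
  exact μ.norm_P_pow m

lemma FullProb.norm_sig (μ : FullProb G) (β : G →* ℂ) (hβ : ∀ g, ‖β g‖ = 1) (M : ℕ) :
    ‖μ.sig β hβ M‖ ≤ 1 := by
  rw [FullProb.sig, norm_smul, norm_inv, Complex.norm_natCast]
  have h1 : ‖∑ m ∈ Finset.range M, μ.nu β hβ ^ m‖ ≤ M := by
    refine (norm_sum_le _ _).trans ?_
    refine (Finset.sum_le_sum fun m _ => μ.norm_nu_pow β hβ m).trans ?_
    simp
  rcases Nat.eq_zero_or_pos M with rfl | hM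
  · simp
  · have : (0 : ℝ) < M := by exact_mod_cast hM
    rw [inv_mul_le_iff₀ this, mul_one]
    exact h1

lemma FullProb.ev_nu (μ : FullProb G) (β : G →* ℂ) (hβ : ∀ g, ‖β g‖ = 1) :
    ev β hβ (μ.nu β hβ) = 1 := by
  rw [ev_apply]
  have h1 : ∀ x, μ.nu β hβ x * β x = (μ.m x : ℂ) := by
    intro x
    rw [FullProb.nu, tw_apply, μ.P_apply]
    have : β x ≠ 0 := by
      intro h
      have := hβ x
      rw [h, norm_zero] at this
      norm_num at this
    field_simp
  rw [tsum_congr h1, ← Complex.ofReal_tsum, μ.sum.tsum_eq, Complex.ofReal_one]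

/-- the main estimate -/
lemma FullProb.key [DecidableEq G] (μ : FullProb G) (α β : G →* ℂ) (hα : ∀ g, ‖α g‖ = 1)
    (hβ : ∀ g, ‖β g‖ = 1) (ψ : Alg G →L[ℂ] ℂ) (hψ1 : ‖ψ‖ ≤ 1)
    (hψ : ∀ a, ψ ((1 - μ.nu α hα) * a) = 0) (A : G) {M : ℕ} (hM : 0 < M) {ε : ℝ} (hε : 0 < ε) :
    ‖ψ ((dl A - α A • 1) * μ.sig β hβ M)‖ ≤ 1 / (2 * ε * M * μ.m A) + ε / 2 := by
  have hM' : (0 : ℝ) < M := by exact_mod_cast hM
  have hα0 : ∀ x, α x ≠ 0 := fun x h => by
    have := hα x
    rw [h, norm_zero] at this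
    norm_num at this
  set F : G → ℂ := fun x => ψ (dl x) with hF
  have hF1 : ∀ x, ‖F x‖ ≤ 1 := fun x => (fn_dl_le ψ x).trans hψ1
  have hpair : ∀ f g : Alg G, ψ (f * g) = ∑' z, g z * ∑' y, f y * F (y * z) := by
    intro f g
    rw [fn_expand ψ, pair_mul2 f g (φ := F) hF1]
  set h : G → ℂ := fun x => (α x)⁻¹ * F x with hh
  have hb : ∀ x, ‖h x‖ ≤ 1 := fun x => by
    rw [hh]
    simp only
    rw [norm_mul, norm_inv, hα, inv_one, one_mul]
    exact hF1 x
  have hFh : ∀ x, F x = α x * h x := fun x => by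
    rw [hh]
    simp only
    rw [mul_inv_cancel_left₀ (hα0 x)]
  have harm : ∀ x, h x = ∑' y, μ.P y * h (y * x) := by
    intro x
    have h1 := hψ (dl x)
    rw [sub_mul, one_mul, map_sub, sub_eq_zero, hpair] at h1
    have h2 : ∑' z, (dl x : Alg G) z * ∑' y, μ.nu α hα y * F (y * z) =
        ∑' y, μ.nu α hα y * F (y * x) := by
      rw [tsum_eq_single x]
      · rw [dl_apply, if_pos rfl, one_mul]
      · intro b hb
        rw [dl_apply, if_neg hb, zero_mul]
    rw [h2] at h1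
    have h3 : h x = (α x)⁻¹ * F x := rfl
    rw [h3, show F x = ψ (dl x) from rfl, h1, ← tsum_mul_left]
    refine tsum_congr fun y => ?_
    rw [FullProb.nu, tw_apply, hFh, map_mul]
    have h4 := hα0 x
    have h5 := hα0 y
    field_simp
  have hterm : ∀ m, ‖ψ ((dl A - α A • 1) * μ.nu β hβ ^ m)‖ ≤
      (∑' x, ‖(μ.P ^ m) x‖ * ‖h (A * x) - h x‖ ^ 2) / (2 * ε) + ε / 2 := by
    intro m
    have h1 : ψ ((dl A - α A • 1) * μ.nu β hβ ^ m) =
        ∑' z, (μ.nu β hβ ^ m) z * (α (A * z) * (h (A * z) - h z)) := by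
      rw [hpair]
      refine tsum_congr fun z => ?_
      congr 1
      have h2 : ∑' y, (dl A - α A • 1 : Alg G) y * F (y * z) = F (A * z) - α A * F z := by
        have e1 : ∀ f : Alg G, Summable fun y => f y * F (y * z) := fun f =>
          summable_pair f (fun y => hF1 (y * z))
        have e2 : ∀ g : G, ∑' y, (dl g : Alg G) y * F (y * z) = F (g * z) := by
          intro g
          rw [tsum_eq_single g]
          · rw [dl_apply, if_pos rfl, one_mul]
          · intro b hb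
            rw [dl_apply, if_neg hb, zero_mul]
        have e3 : ∀ y, (dl A - α A • 1 : Alg G) y * F (y * z) =
            (dl A : Alg G) y * F (y * z) - α A * ((dl 1 : Alg G) y * F (y * z)) := by
          intro y
          rw [sub_apply, smul_apply, one_def]
          ring
        rw [tsum_congr e3, (e1 _).tsum_sub ((e1 _).mul_left _), tsum_mul_left, e2, e2, one_mul]
      rw [h2, hFh, hFh, map_mul]
      ring
    have h2 : ∀ z, ‖(μ.nu β hβ ^ m) z * (α (A * z) * (h (A * z) - h z))‖ =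
        ‖(μ.P ^ m) z‖ * ‖h (A * z) - h z‖ := by
      intro z
      rw [norm_mul, norm_mul, hα, one_mul, FullProb.nu, ← tw_pow, tw_apply, norm_mul, norm_inv, hβ,
        inv_one, one_mul]
    have hD2 : ∀ x, ‖h (A * x) - h x‖ ≤ 2 := fun x =>
      (norm_sub_le _ _).trans (by linarith [hb (A * x), hb x])
    have sD : Summable fun x => ‖(μ.P ^ m) x‖ * ‖h (A * x) - h x‖ ^ 2 :=
      Summable.of_nonneg_of_le (fun x => by positivity)
        (fun x => mul_le_mul_of_nonneg_left (show ‖h (A * x) - h x‖ ^ 2 ≤ 4 by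
          nlinarith [hD2 x, norm_nonneg (h (A * x) - h x)]) (norm_nonneg _))
        ((summable_norm (μ.P ^ m)).mul_right 4)
    have sD1 : Summable fun x => ‖(μ.P ^ m) x‖ * ‖h (A * x) - h x‖ :=
      Summable.of_nonneg_of_le (fun x => by positivity)
        (fun x => mul_le_mul_of_nonneg_left (hD2 x) (norm_nonneg _))
        ((summable_norm (μ.P ^ m)).mul_right 2)
    rw [h1]
    have s0 : Summable fun z => ‖(μ.nu β hβ ^ m) z * (α (A * z) * (h (A * z) - h z))‖ :=
      sD1.congr fun z => (h2 z).symm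
    refine (norm_tsum_le_tsum_norm s0).trans ?_
    rw [tsum_congr h2]
    have h3 : ∀ x, ‖(μ.P ^ m) x‖ * ‖h (A * x) - h x‖ ≤
        (‖(μ.P ^ m) x‖ * ‖h (A * x) - h x‖ ^ 2) / (2 * ε) + ‖(μ.P ^ m) x‖ * (ε / 2) := by
      intro x
      set t := ‖h (A * x) - h x‖
      have h4 : t ≤ t ^ 2 / (2 * ε) + ε / 2 := by
        rw [div_add_div _ _ (by positivity) (by positivity), le_div_iff₀ (by positivity)]
        nlinarith [sq_nonneg (t - ε)]
      calc ‖(μ.P ^ m) x‖ * t ≤ ‖(μ.P ^ m) x‖ * (t ^ 2 / (2 * ε) + ε / 2) :=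
            mul_le_mul_of_nonneg_left h4 (norm_nonneg _)
        _ = _ := by ring
    refine (Summable.tsum_le_tsum h3 sD1
      ((sD.div_const _).add ((summable_norm (μ.P ^ m)).mul_right _))).trans ?_
    rw [(sD.div_const _).tsum_add ((summable_norm (μ.P ^ m)).mul_right _), tsum_div_const,
      tsum_mul_right, ← norm_def]
    have h5 := μ.norm_P_pow m
    have h6 : ‖μ.P ^ m‖ * (ε / 2) ≤ ε / 2 := mul_le_of_le_one_left (by positivity) h5
    linarith
  have hμA := μ.pos A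
  have htl := μ.tele hb harm A M
  rw [FullProb.sig, mul_smul_comm, Finset.mul_sum, map_smul, map_sum, norm_smul, norm_inv,
    Complex.norm_natCast]
  have h7 : ‖∑ m ∈ Finset.range M, ψ ((dl A - α A • 1) * μ.nu β hβ ^ m)‖ ≤
      (∑ m ∈ Finset.range M, ∑' x, ‖(μ.P ^ m) x‖ * ‖h (A * x) - h x‖ ^ 2) / (2 * ε) + M * (ε / 2) := by
    refine (norm_sum_le _ _).trans ?_
    refine (Finset.sum_le_sum fun m _ => hterm m).trans (le_of_eq ?_)
    rw [Finset.sum_add_distrib, Finset.sum_div]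
    simp
  have h8 : ∑ m ∈ Finset.range M, ∑' x, ‖(μ.P ^ m) x‖ * ‖h (A * x) - h x‖ ^ 2 ≤ 1 / μ.m A := by
    rw [le_div_iff₀ hμA]
    linarith
  rw [inv_mul_le_iff₀ hM']
  refine h7.trans ?_
  have h9 : (∑ m ∈ Finset.range M, ∑' x, ‖(μ.P ^ m) x‖ * ‖h (A * x) - h x‖ ^ 2) / (2 * ε) ≤
      (1 / μ.m A) / (2 * ε) := div_le_div_of_nonneg_right h8 (by positivity)
  have h10 : (M : ℝ) * (1 / (2 * ε * M * μ.m A) + ε / 2) = (1 / μ.m A) / (2 * ε) + M * (ε / 2) := by
    field_simp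
  rw [h10]
  linarith

end Pool.Agent.W5h45.LG
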