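import Mathlib
import Pool.Agent.W5h45.LG2
import Pool.Agent.W5h45.Fac

set_option autoImplicit false

/-! Decomposition of the kernel of a character as the sum of a left ideal with a right approximate
identity and a right ideal with a left approximate identity. -/

noncomputable section

namespace Pool.Agent.W5h45.LG

open Filter Topology

universe u

variable {G : Type u} [Group G]

/-- closed left ideal generated by `1 - ν` -/
def Jl (μ : FullProb G) (β : G →* ℂ) (hβ : ∀ g, ‖β g‖ = 1) : Submodule ℂ (Alg G) :=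
  (LinearMap.range (LinearMap.mulRight ℂ (1 - μ.nu β hβ))).topologicalClosure

/-- closed right ideal generated by `1 - ν` -/
def Jr (μ : FullProb G) (α : G →* ℂ) (hα : ∀ g, ‖α g‖ = 1) : Submodule ℂ (Alg G) :=
  (LinearMap.range (LinearMap.mulLeft ℂ (1 - μ.nu α hα))).topologicalClosure

lemma tend_closed {E F : Type*} [SeminormedAddCommGroup E] [SeminormedAddCommGroup F]
    (T : ℕ → E → F) (hT : ∀ n x y, ‖T n x - T n y‖ ≤ ‖x - y‖) {S : Set E}
    (hS : ∀ y ∈ S, Tendsto (fun n => T n y) atTop (𝓝 0)) {x : E} (hx : x ∈ closure S) :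
    Tendsto (fun n => T n x) atTop (𝓝 0) := by
  rw [Metric.tendsto_atTop]
  intro ε hε
  obtain ⟨y, hy, hxy⟩ := Metric.mem_closure_iff.1 hx (ε / 2) (by positivity)
  obtain ⟨N, hN⟩ := Metric.tendsto_atTop.1 (hS y hy) (ε / 2) (by positivity)
  refine ⟨N, fun n hn => ?_⟩
  have h1 := hN n hn
  rw [dist_zero_right] at h1 ⊢
  rw [dist_eq_norm] at hxy
  calc ‖T n x‖ = ‖(T n x - T n y) + T n y‖ := by rw [sub_add_cancel]
    _ ≤ ‖T n x - T n y‖ + ‖T n y‖ := norm_add_le _ _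
    _ < ε / 2 + ε / 2 := add_lt_add_of_le_of_lt ((hT n x y).trans hxy.le) h1
    _ = ε := by ring

lemma FullProb.sig_mul (μ : FullProb G) (β : G →* ℂ) (hβ : ∀ g, ‖β g‖ = 1) (M : ℕ) :
    (1 - μ.nu β hβ) * μ.sig β hβ M = ((M : ℂ)⁻¹) • (1 - μ.nu β hβ ^ M) := by
  rw [FullProb.sig, mul_smul_comm, mul_neg_geom_sum]

lemma FullProb.mul_sig (μ : FullProb G) (β : G →* ℂ) (hβ : ∀ g, ‖β g‖ = 1) (M : ℕ) :
    μ.sig β hβ M * (1 - μ.nu β hβ) = ((M : ℂ)⁻¹) • (1 - μ.nu β hβ ^ M) := by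
  rw [FullProb.sig, smul_mul_assoc, geom_sum_mul_neg]

lemma FullProb.norm_sig_mul (μ : FullProb G) (β : G →* ℂ) (hβ : ∀ g, ‖β g‖ = 1) (M : ℕ) :
    ‖((M : ℂ)⁻¹) • (1 - μ.nu β hβ ^ M)‖ ≤ 2 / M := by
  rw [norm_smul, norm_inv, Complex.norm_natCast]
  have h1 : ‖1 - μ.nu β hβ ^ M‖ ≤ 2 := by
    refine (norm_sub_le _ _).trans ?_
    rw [norm_one]
    linarith [μ.norm_nu_pow β hβ M]
  rw [div_eq_inv_mul]
  exact mul_le_mul_of_nonneg_left h1 (by positivity)

lemma tend_two_div (C : ℝ) : Tendsto (fun n : ℕ => C * (2 / ((n + 1 : ℕ) : ℝ))) atTop (𝓝 0) := by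
  have h1 : Tendsto (fun n : ℕ => (1 : ℝ) / ((n : ℝ) + 1)) atTop (𝓝 0) :=
    tendsto_one_div_add_atTop_nhds_zero_nat
  have h2 := h1.const_mul (C * 2)
  rw [mul_zero] at h2
  refine h2.congr fun n => ?_
  push_cast
  ring

lemma Jl_tend (μ : FullProb G) (β : G →* ℂ) (hβ : ∀ g, ‖β g‖ = 1) {j : Alg G}
    (hj : j ∈ Jl μ β hβ) : Tendsto (fun n => j * μ.sig β hβ (n + 1)) atTop (𝓝 0) := by
  refine tend_closed (fun n x => x * μ.sig β hβ (n + 1)) (fun n x y => ?_)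
    (S := (LinearMap.range (LinearMap.mulRight ℂ (1 - μ.nu β hβ)) : Set (Alg G))) ?_ hj
  · rw [← sub_mul]
    refine (norm_mul_le _ _).trans (mul_le_of_le_one_right (norm_nonneg _) (μ.norm_sig _ _ _))
  · rintro _ ⟨a, rfl⟩
    rw [LinearMap.mulRight_apply]
    refine squeeze_zero_norm (fun n => ?_) (tend_two_div ‖a‖)
    rw [mul_assoc, μ.sig_mul]
    refine (norm_mul_le _ _).trans (mul_le_mul_of_nonneg_left (μ.norm_sig_mul _ _ _) (norm_nonneg _))

lemma Jr_tend (μ : FullProb G) (β : G →* ℂ) (hβ : ∀ g, ‖β g‖ = 1) {j : Alg G}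
    (hj : j ∈ Jr μ β hβ) : Tendsto (fun n => μ.sig β hβ (n + 1) * j) atTop (𝓝 0) := by
  refine tend_closed (fun n x => μ.sig β hβ (n + 1) * x) (fun n x y => ?_)
    (S := (LinearMap.range (LinearMap.mulLeft ℂ (1 - μ.nu β hβ)) : Set (Alg G))) ?_ hj
  · rw [← mul_sub]
    refine (norm_mul_le _ _).trans (mul_le_of_le_one_left (norm_nonneg _) (μ.norm_sig _ _ _))
  · rintro _ ⟨a, rfl⟩
    rw [LinearMap.mulLeft_apply]
    refine squeeze_zero_norm (fun n => ?_) (tend_two_div ‖a‖)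
    rw [← mul_assoc, μ.mul_sig]
    refine (norm_mul_le _ _).trans ?_
    rw [mul_comm]
    exact mul_le_mul_of_nonneg_left (μ.norm_sig_mul _ _ _) (norm_nonneg _)

lemma Jl_ev (μ : FullProb G) (β : G →* ℂ) (hβ : ∀ g, ‖β g‖ = 1) {j : Alg G}
    (hj : j ∈ Jl μ β hβ) : ev β hβ j = 0 := by
  have hcl : IsClosed {x : Alg G | ev β hβ x = 0} := isClosed_eq (ev β hβ).continuous continuous_const
  have : (LinearMap.range (LinearMap.mulRight ℂ (1 - μ.nu β hβ)) : Set (Alg G)) ⊆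
      {x : Alg G | ev β hβ x = 0} := by
    rintro _ ⟨a, rfl⟩
    show ev β hβ (a * (1 - μ.nu β hβ)) = 0
    rw [ev_mul, map_sub, ev_one, μ.ev_nu, sub_self, mul_zero]
  exact closure_minimal this hcl hj

lemma Jr_ev (μ : FullProb G) (β : G →* ℂ) (hβ : ∀ g, ‖β g‖ = 1) {j : Alg G}
    (hj : j ∈ Jr μ β hβ) : ev β hβ j = 0 := by
  have hcl : IsClosed {x : Alg G | ev β hβ x = 0} := isClosed_eq (ev β hβ).continuous continuous_const
  have : (LinearMap.range (LinearMap.mulLeft ℂ (1 - μ.nu β hβ)) : Set (Alg G)) ⊆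
      {x : Alg G | ev β hβ x = 0} := by
    rintro _ ⟨a, rfl⟩
    show ev β hβ ((1 - μ.nu β hβ) * a) = 0
    rw [ev_mul, map_sub, ev_one, μ.ev_nu, sub_self, zero_mul]
  exact closure_minimal this hcl hj

lemma one_sub_sig_mem (μ : FullProb G) (β : G →* ℂ) (hβ : ∀ g, ‖β g‖ = 1) (f : Alg G) (n : ℕ) :
    f * (1 - μ.sig β hβ (n + 1)) ∈ Jl μ β hβ := by
  apply Submodule.le_topologicalClosure
  have h1 : ∀ m : ℕ, (1 - μ.nu β hβ ^ m) ∈ LinearMap.range (LinearMap.mulRight ℂ (1 - μ.nu β hβ)) :=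
    fun m => ⟨∑ i ∈ Finset.range m, μ.nu β hβ ^ i, by
      rw [LinearMap.mulRight_apply, geom_sum_mul_neg]⟩
  have h2 : (1 - μ.sig β hβ (n + 1)) =
      (((n + 1 : ℕ) : ℂ)⁻¹) • ∑ m ∈ Finset.range (n + 1), (1 - μ.nu β hβ ^ m) := by
    rw [Finset.sum_sub_distrib, smul_sub, FullProb.sig]
    congr 1
    rw [Finset.sum_const, Finset.card_range, ← Nat.cast_smul_eq_nsmul ℂ, smul_smul,
      inv_mul_cancel₀ (by exact_mod_cast Nat.succ_ne_zero n), one_smul]
  have h3 : (1 - μ.sig β hβ (n + 1)) ∈ LinearMap.range (LinearMap.mulRight ℂ (1 - μ.nu β hβ)) := by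
    rw [h2]
    exact Submodule.smul_mem _ _ (Submodule.sum_mem _ fun m _ => h1 m)
  obtain ⟨a, ha⟩ := h3
  refine ⟨f * a, ?_⟩
  rw [LinearMap.mulRight_apply] at ha ⊢
  rw [mul_assoc, ha]

lemma ev_sig (μ : FullProb G) (β : G →* ℂ) (hβ : ∀ g, ‖β g‖ = 1) (n : ℕ) :
    ev β hβ (μ.sig β hβ (n + 1)) = 1 := by
  have := Jl_ev μ β hβ (one_sub_sig_mem μ β hβ 1 n)
  rw [one_mul, map_sub, ev_one, sub_eq_zero] at this
  exact this.symm

instance (μ : FullProb G) (α : G →* ℂ) (hα : ∀ g, ‖α g‖ = 1) :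
    IsClosed (Jr μ α hα : Set (Alg G)) := Submodule.isClosed_topologicalClosure _

/-- elements killed by the character -/
lemma expand_ker [DecidableEq G] (α : G →* ℂ) (hα : ∀ g, ‖α g‖ = 1) {f : Alg G}
    (hf : ev α hα f = 0) : HasSum (fun g => f g • (dl g - α g • 1 : Alg G)) f := by
  have h1 := hasSum_dl f
  have h2 : HasSum (fun g => (f g * α g) • (1 : Alg G)) (ev α hα f • (1 : Alg G)) :=
    (summable_pair f (fun x => (hα x).le)).hasSum.smul_const 1
  rw [hf, zero_smul] at h2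
  have h3 := h1.sub h2
  rw [sub_zero] at h3
  refine h3.congr_fun fun g => ?_
  rw [smul_sub, smul_smul]

lemma quot_tend (μ : FullProb G) (α β : G →* ℂ) (hα : ∀ g, ‖α g‖ = 1)
    (hβ : ∀ g, ‖β g‖ = 1) {f : Alg G} (hf : ev α hα f = 0) :
    Tendsto (fun n => (Jr μ α hα).mkQ (f * μ.sig β hβ (n + 1))) atTop (𝓝 0) := by
  classical
  set Q : ℕ → Alg G → (Alg G ⧸ Jr μ α hα) := fun n f => (Jr μ α hα).mkQ (f * μ.sig β hβ (n + 1))
    with hQ
  have hnorm : ∀ x : Alg G, ‖(Jr μ α hα).mkQ x‖ ≤ ‖x‖ := fun x => Submodule.Quotient.norm_mk_le _ x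
  have hlip : ∀ n x y, ‖Q n x - Q n y‖ ≤ ‖x - y‖ := by
    intro n x y
    rw [hQ]
    simp only
    rw [← map_sub, ← sub_mul]
    refine (hnorm _).trans ?_
    exact (norm_mul_le _ _).trans (mul_le_of_le_one_right (norm_nonneg _) (μ.norm_sig _ _ _))
  have hbase : ∀ A : G, Tendsto (fun n => Q n (dl A - α A • 1)) atTop (𝓝 0) := by
    intro A
    rw [Metric.tendsto_atTop]
    intro ε hε
    have hμA := μ.pos A
    obtain ⟨N, hN⟩ := exists_nat_gt (1 / (ε * ε * μ.m A))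
    refine ⟨N, fun n hn => ?_⟩
    rw [dist_zero_right]
    obtain ⟨g, hg1, hg2⟩ := exists_dual_vector'' ℂ (Q n (dl A - α A • 1))
    set mkL : Alg G →L[ℂ] (Alg G ⧸ Jr μ α hα) :=
      LinearMap.mkContinuous (Jr μ α hα).mkQ 1 (fun x => by rw [one_mul]; exact hnorm x) with hmkL
    have hmkn : ‖mkL‖ ≤ 1 := LinearMap.mkContinuous_norm_le _ zero_le_one _
    set ψ : Alg G →L[ℂ] ℂ := g.comp mkL with hψ
    have hψ1 : ‖ψ‖ ≤ 1 := by
      refine (ContinuousLinearMap.opNorm_comp_le _ _).trans ?_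
      exact mul_le_one₀ hg1 (norm_nonneg _) hmkn
    have hψ0 : ∀ a, ψ ((1 - μ.nu α hα) * a) = 0 := by
      intro a
      have h1 : (1 - μ.nu α hα) * a ∈ Jr μ α hα :=
        Submodule.le_topologicalClosure _ ⟨a, rfl⟩
      have h2 : mkL ((1 - μ.nu α hα) * a) = 0 := by
        rw [hmkL, LinearMap.mkContinuous_apply, Submodule.mkQ_apply, Submodule.Quotient.mk_eq_zero]
        exact h1
      rw [hψ, ContinuousLinearMap.comp_apply, h2, map_zero]
    have h3 := μ.key α β hα hβ ψ hψ1 hψ0 A (M := n + 1) (Nat.succ_pos n) hε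
    have h4 : ψ ((dl A - α A • 1) * μ.sig β hβ (n + 1)) = (‖Q n (dl A - α A • 1)‖ : ℂ) := by
      exact hg2
    rw [h4, Complex.norm_real, Real.norm_of_nonneg (norm_nonneg _)] at h3
    refine lt_of_le_of_lt h3 ?_
    have h5 : (1 : ℝ) / (2 * ε * (n + 1 : ℕ) * μ.m A) < ε / 2 := by
      have hn' : (N : ℝ) ≤ n := by exact_mod_cast hn
      rw [div_lt_iff₀ (by positivity)] at hN ⊢
      push_cast
      have h6 : 1 < (n + 1 : ℝ) * (ε * ε * μ.m A) := by
        refine lt_of_lt_of_le hN ?_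
        exact mul_le_mul_of_nonneg_right (by linarith) (by positivity)
      calc (1 : ℝ) < (n + 1 : ℝ) * (ε * ε * μ.m A) := h6
        _ = ε / 2 * (2 * ε * (n + 1) * μ.m A) := by ring
    linarith
  -- finite sums
  refine tend_closed Q hlip (S := Set.range fun s : Finset G =>
    ∑ g ∈ s, f g • (dl g - α g • 1 : Alg G)) ?_ ?_
  · rintro _ ⟨s, rfl⟩
    have h1 : ∀ n, Q n (∑ g ∈ s, f g • (dl g - α g • 1 : Alg G)) =
        ∑ g ∈ s, f g • Q n (dl g - α g • 1 : Alg G) := by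
      intro n
      rw [hQ]
      simp only
      rw [Finset.sum_mul, map_sum]
      refine Finset.sum_congr rfl fun g _ => ?_
      rw [smul_mul_assoc, map_smul]
    simp only [h1]
    have h2 : Tendsto (fun n => ∑ g ∈ s, f g • Q n (dl g - α g • 1 : Alg G)) atTop
        (𝓝 (∑ g ∈ s, f g • (0 : Alg G ⧸ Jr μ α hα))) :=
      tendsto_finsetSum _ fun g _ => (hbase g).const_smul _
    simpa using h2
  · exact mem_closure_of_tendsto (expand_ker α hα hf) (Eventually.of_forall fun s => ⟨s, rfl⟩)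

/-- approximate decomposition -/
lemma approx (μ : FullProb G) (α β : G →* ℂ) (hα : ∀ g, ‖α g‖ = 1)
    (hβ : ∀ g, ‖β g‖ = 1) (f : Alg G) (hf : ev α hα f = 0) :
    ∃ j1 j2 : Alg G, (j1 ∈ Jl μ β hβ ∧ ev α hα j1 = 0) ∧ j2 ∈ Jr μ α hα ∧ ‖j1‖ ≤ 2 * ‖f‖ ∧
      ‖j2‖ ≤ 2 * ‖f‖ ∧ ‖f - j1 - j2‖ ≤ ‖f‖ / 2 := by
  rcases eq_or_ne f 0 with rfl | hf0
  · exact ⟨0, 0, ⟨zero_mem _, map_zero _⟩, zero_mem _, by simp, by simp, by simp⟩
  have hfp : 0 < ‖f‖ := norm_pos_iff.2 hf0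
  obtain ⟨n, hn⟩ := (Metric.tendsto_atTop.1 (quot_tend μ α β hα hβ hf)) (‖f‖ / 2) (by positivity)
  have h1 := hn n le_rfl
  rw [dist_zero_right] at h1
  obtain ⟨m, hm, hml⟩ := Submodule.Quotient.norm_mk_lt
    ((Jr μ α hα).mkQ (f * μ.sig β hβ (n + 1))) (sub_pos.2 h1)
  rw [add_sub_cancel] at hml
  have hfs : ‖f * μ.sig β hβ (n + 1)‖ ≤ ‖f‖ :=
    (norm_mul_le _ _).trans (mul_le_of_le_one_right (norm_nonneg _) (μ.norm_sig _ _ _))
  refine ⟨f * (1 - μ.sig β hβ (n + 1)), f * μ.sig β hβ (n + 1) - m,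
    ⟨one_sub_sig_mem μ β hβ f n, ?_⟩, ?_, ?_, ?_, ?_⟩
  · rw [ev_mul, hf, zero_mul]
  · rw [Submodule.mkQ_apply] at hm
    exact (Submodule.Quotient.eq _).1 hm.symm
  · rw [mul_sub, mul_one]
    refine (norm_sub_le _ _).trans ?_
    linarith
  · refine (norm_sub_le _ _).trans ?_
    linarith
  · have : f - f * (1 - μ.sig β hβ (n + 1)) - (f * μ.sig β hβ (n + 1) - m) = m := by
      rw [mul_sub, mul_one]; abel
    rw [this]
    exact hml.le

/-- decomposition -/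
theorem decomp (μ : FullProb G) (α β : G →* ℂ) (hα : ∀ g, ‖α g‖ = 1)
    (hβ : ∀ g, ‖β g‖ = 1) (f : Alg G) (hf : ev α hα f = 0) :
    ∃ j1 j2 : Alg G, j1 ∈ Jl μ β hβ ∧ j2 ∈ Jr μ α hα ∧ j1 + j2 = f := by
  have hA := approx μ α β hα hβ
  choose! J1 J2 h1 h2 h3 h4 h5 using hA
  set r : ℕ → Alg G := fun n => Nat.rec f (fun _ x => x - J1 x - J2 x) n with hr
  have hr0 : r 0 = f := rfl
  have hrs : ∀ n, r (n + 1) = r n - J1 (r n) - J2 (r n) := fun n => rfl
  have hev : ∀ n, ev α hα (r n) = 0 := by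
    intro n
    induction n with
    | zero => exact hf
    | succ n ih =>
      rw [hrs, map_sub, map_sub, ih, (h1 _ ih).2, Jr_ev μ α hα (h2 _ ih)]
      simp
  have hn : ∀ n, ‖r n‖ ≤ ‖f‖ * (1 / 2) ^ n := by
    intro n
    induction n with
    | zero => simp [hr0]
    | succ n ih =>
      rw [hrs]
      refine (h5 _ (hev n)).trans ?_
      rw [pow_succ]
      linarith
  have hs : Summable fun n : ℕ => 2 * (‖f‖ * (1 / 2 : ℝ) ^ n) :=
    (summable_geometric_two.mul_left _).mul_left _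
  have hs1 : Summable fun n => J1 (r n) := Summable.of_norm_bounded hs fun n =>
    (h3 _ (hev n)).trans (mul_le_mul_of_nonneg_left (hn n) (by norm_num))
  have hs2 : Summable fun n => J2 (r n) := Summable.of_norm_bounded hs fun n =>
    (h4 _ (hev n)).trans (mul_le_mul_of_nonneg_left (hn n) (by norm_num))
  refine ⟨∑' n, J1 (r n), ∑' n, J2 (r n), ?_, ?_, ?_⟩
  · have hcl : IsClosed (Jl μ β hβ : Set (Alg G)) := Submodule.isClosed_topologicalClosure _
    exact hcl.mem_of_tendsto hs1.hasSum.tendsto_sum_nat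
      (Eventually.of_forall fun n => Submodule.sum_mem _ fun i _ => (h1 _ (hev i)).1)
  · have hcl : IsClosed (Jr μ α hα : Set (Alg G)) := Submodule.isClosed_topologicalClosure _
    exact hcl.mem_of_tendsto hs2.hasSum.tendsto_sum_nat
      (Eventually.of_forall fun n => Submodule.sum_mem _ fun i _ => h2 _ (hev i))
  · rw [← hs1.tsum_add hs2]
    have hrn : Tendsto r atTop (𝓝 0) := by
      refine squeeze_zero_norm hn ?_
      have := (tendsto_pow_atTop_nhds_zero_of_lt_one (r := (1 / 2 : ℝ)) (by norm_num)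
        (by norm_num)).const_mul ‖f‖
      rwa [mul_zero] at this
    have hpart : ∀ n, ∑ i ∈ Finset.range n, (J1 (r i) + J2 (r i)) = f - r n := by
      intro n
      induction n with
      | zero => simp [hr0]
      | succ n ih =>
        rw [Finset.sum_range_succ, ih, hrs]
        abel
    have h6 := (hs1.add hs2).hasSum.tendsto_sum_nat
    simp only [hpart] at h6
    have h7 : Tendsto (fun n => f - r n) atTop (𝓝 (f - 0)) := tendsto_const_nhds.sub hrn
    rw [sub_zero] at h7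
    exact tendsto_nhds_unique h6 h7

lemma commute_sig (μ : FullProb G) (β : G →* ℂ) (hβ : ∀ g, ‖β g‖ = 1) (m n : ℕ) :
    Commute (μ.sig β hβ m) (μ.sig β hβ n) := by
  rw [FullProb.sig, FullProb.sig]
  refine Commute.smul_left (Commute.smul_right ?_ _) _
  refine Commute.sum_left _ _ _ fun i _ => Commute.sum_right _ _ _ fun j _ => ?_
  exact Commute.pow_pow_self _ _ _

/-- kernel of a character -/
def Ik (α : G →* ℂ) (hα : ∀ g, ‖α g‖ = 1) : Submodule ℂ (Alg G) := LinearMap.ker (ev α hα).toLinearMap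

lemma mem_Ik (α : G →* ℂ) (hα : ∀ g, ‖α g‖ = 1) (f : Alg G) : f ∈ Ik α hα ↔ ev α hα f = 0 := Iff.rfl

lemma ev_s (μ : FullProb G) (β : G →* ℂ) (hβ : ∀ g, ‖β g‖ = 1) {w : ℕ → ℕ} {s : Alg G}
    (hs : HasSum (fun i => ((1 / 2 : ℂ) ^ (i + 1)) • μ.sig β hβ (w i + 1)) s) :
    ev β hβ (1 - s) = 0 := by
  have h1 := hs.mapL (ev β hβ)
  have h2 : HasSum (fun i : ℕ => (1 / 2 : ℂ) ^ (i + 1)) (ev β hβ s) := by
    refine h1.congr_fun fun i => ?_
    rw [map_smul, ev_sig, smul_eq_mul, mul_one]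
  have h3 : HasSum (fun i : ℕ => (1 / 2 : ℂ) ^ (i + 1)) 1 := by
    have h4 : HasSum (fun i : ℕ => (1 / 2 : ℂ) ^ i) (1 - 1 / 2)⁻¹ :=
      hasSum_geometric_of_norm_lt_one (by simp; norm_num)
    have h5 := h4.mul_left (1 / 2)
    norm_num at h5
    refine h5.congr_fun fun i => ?_
    rw [pow_succ]; ring
  rw [map_sub, ev_one, h2.unique h3, sub_self]

/-- the factorization -/
theorem fac (μ : FullProb G) (α β : G →* ℂ) (hα : ∀ g, ‖α g‖ = 1)
    (hβ : ∀ g, ‖β g‖ = 1) :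
    Ik α hα ⊓ Ik β hβ ≤ (Ik α hα ⊓ Ik β hβ) * Ik β hβ ⊔ Ik α hα * (Ik α hα ⊓ Ik β hβ) := by
  rintro f ⟨hfa, hfb⟩
  rw [SetLike.mem_coe, mem_Ik] at hfa hfb
  obtain ⟨j1, j2, hj1, hj2, hj⟩ := decomp μ α β hα hβ f hfa
  have h1b := Jl_ev μ β hβ hj1
  have h2a := Jr_ev μ α hα hj2
  have h1a : ev α hα j1 = 0 := by
    have := congrArg (ev α hα) hj
    rw [map_add, h2a, add_zero, hfa] at this
    exact this
  have h2b : ev β hβ j2 = 0 := by
    have := congrArg (ev β hβ) hj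
    rw [map_add, h1b, zero_add, hfb] at this
    exact this
  rw [← hj]
  refine Submodule.add_mem _ ?_ ?_
  · apply Submodule.mem_sup_left
    obtain ⟨w, s, h, a, hs, ha, hh⟩ := Fac.factor (fun n => μ.sig β hβ (n + 1))
      (fun n => μ.norm_sig β hβ _) (fun m n => commute_sig μ β hβ _ _) j1 (Jl_tend μ β hβ hj1)
    rw [← hh]
    refine Submodule.mul_mem_mul ⟨?_, ?_⟩ ?_
    · have h2 := ((ev α hα).continuous.tendsto h).comp ha
      have h3 : ((ev α hα) ∘ fun n => j1 * a n) = fun _ => 0 := by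
        funext n
        rw [Function.comp_apply, ev_mul, h1a, zero_mul]
      rw [h3] at h2
      exact (tendsto_nhds_unique h2 tendsto_const_nhds)
    · have h2 := ((ev β hβ).continuous.tendsto h).comp ha
      have h3 : ((ev β hβ) ∘ fun n => j1 * a n) = fun _ => 0 := by
        funext n
        rw [Function.comp_apply, ev_mul, h1b, zero_mul]
      rw [h3] at h2
      exact (tendsto_nhds_unique h2 tendsto_const_nhds)
    · exact ev_s μ β hβ hs
  · apply Submodule.mem_sup_right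
    obtain ⟨w, s, h, a, hs, ha, hh⟩ := Fac.factor' (fun n => μ.sig α hα (n + 1))
      (fun n => μ.norm_sig α hα _) (fun m n => commute_sig μ α hα _ _) j2 (Jr_tend μ α hα hj2)
    rw [← hh]
    refine Submodule.mul_mem_mul ?_ ⟨?_, ?_⟩
    · exact ev_s μ α hα hs
    · have h2 := ((ev α hα).continuous.tendsto h).comp ha
      have h3 : ((ev α hα) ∘ fun n => a n * j2) = fun _ => 0 := by
        funext n
        rw [Function.comp_apply, ev_mul, h2a, mul_zero]
      rw [h3] at h2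
      exact (tendsto_nhds_unique h2 tendsto_const_nhds)
    · have h2 := ((ev β hβ).continuous.tendsto h).comp ha
      have h3 : ((ev β hβ) ∘ fun n => a n * j2) = fun _ => 0 := by
        funext n
        rw [Function.comp_apply, ev_mul, h2b, mul_zero]
      rw [h3] at h2
      exact (tendsto_nhds_unique h2 tendsto_const_nhds)

/-- products with kernels of characters -/
lemma mul_Ik_le (α : G →* ℂ) (hα : ∀ g, ‖α g‖ = 1) (J : Submodule ℂ (Alg G)) :
    J * Ik α hα ≤ Ik α hα := by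
  rw [Submodule.mul_le]
  intro m _ n hn
  rw [mem_Ik] at hn ⊢
  rw [ev_mul, hn, mul_zero]

lemma Ik_mul_le (α : G →* ℂ) (hα : ∀ g, ‖α g‖ = 1) (J : Submodule ℂ (Alg G)) :
    Ik α hα * J ≤ Ik α hα := by
  rw [Submodule.mul_le]
  intro m hm n _
  rw [mem_Ik] at hm ⊢
  rw [ev_mul, hm, zero_mul]

/-- The intersection of the kernels of two characters is idempotent. -/
theorem idem (μ : FullProb G) (α β : G →* ℂ) (hα : ∀ g, ‖α g‖ = 1) (hβ : ∀ g, ‖β g‖ = 1) :
    (Ik α hα ⊓ Ik β hβ) * (Ik α hα ⊓ Ik β hβ) = Ik α hα ⊓ Ik β hβ := by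
  have hab := fac μ α β hα hβ
  have hba := fac μ β α hβ hα
  have haa := fac μ α α hα hα
  have hbb := fac μ β β hβ hβ
  rw [inf_idem, sup_idem] at haa hbb
  rw [inf_comm (Ik β hβ) (Ik α hα)] at hba
  set Ia := Ik α hα
  set Ib := Ik β hβ
  set I := Ia ⊓ Ib with hI
  have h1 : I ≤ Ia * Ib := hab.trans (sup_le (mul_le_mul' inf_le_left le_rfl)
    (mul_le_mul' le_rfl inf_le_right))
  have h2 : I ≤ Ib * Ia := hba.trans (sup_le (mul_le_mul' inf_le_right le_rfl)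
    (mul_le_mul' le_rfl inf_le_left))
  have h1' : Ia * Ib ≤ I := le_inf (Ik_mul_le _ _ _) (mul_Ik_le _ _ _)
  have h2' : Ib * Ia ≤ I := le_inf (mul_Ik_le _ _ _) (Ik_mul_le _ _ _)
  apply le_antisymm
  · exact le_inf ((mul_le_mul' inf_le_left le_rfl).trans (Ik_mul_le _ _ _))
      ((mul_le_mul' inf_le_right le_rfl).trans (Ik_mul_le _ _ _))
  · refine hab.trans (sup_le ?_ ?_)
    · calc I * Ib ≤ (Ib * Ia) * Ib := mul_le_mul' h2 le_rfl
        _ ≤ (Ib * (Ia * Ia)) * Ib := mul_le_mul' (mul_le_mul' le_rfl haa) le_rfl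
        _ = (Ib * Ia) * (Ia * Ib) := by simp only [mul_assoc]
        _ ≤ I * I := mul_le_mul' h2' h1'
    · calc Ia * I ≤ Ia * (Ib * Ia) := mul_le_mul' le_rfl h2
        _ ≤ Ia * ((Ib * Ib) * Ia) := mul_le_mul' le_rfl (mul_le_mul' hbb le_rfl)
        _ = (Ia * Ib) * (Ib * Ia) := by simp only [mul_assoc]
        _ ≤ I * I := mul_le_mul' h1' h2'

end Pool.Agent.W5h45.LG
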