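import Mathlib
import Pool.Agent.W5h45.LG3

set_option autoImplicit false

/-! Closed ideals of codimension two in `ℓ¹(G)` are idempotent. -/

noncomputable section

namespace Pool.Agent.W5h45.LG

open Filter Topology

universe u

lemma exists_fullProb (G : Type u) [Countable G] [Nonempty G] : Nonempty (FullProb G) := by
  have := Encodable.ofCountable G
  obtain ⟨ε, hε, c, hc, -⟩ := posSumOfEncodable one_pos G
  have hc0 : 0 < c := by
    obtain ⟨g⟩ := (inferInstance : Nonempty G)
    exact lt_of_lt_of_le (hε g) (le_hasSum hc g fun j _ => (hε j).le)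
  refine ⟨⟨fun g => ε g / c, fun g => div_pos (hε g) hc0, ?_⟩⟩
  have := hc.div_const c
  rwa [div_self hc0.ne'] at this

variable {G : Type u} [Group G]

/-- two continuous functionals which agree on point masses are equal -/
lemma fn_ext [DecidableEq G] {ψ φ : Alg G →L[ℂ] ℂ} (h : ∀ g, ψ (dl g) = φ (dl g)) (f : Alg G) :
    ψ f = φ f := by
  rw [fn_expand ψ, fn_expand φ]
  exact tsum_congr fun x => by rw [h]

/-- A continuous unital multiplicative functional comes from a unimodular character. -/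
lemma exists_char (φ : Alg G →L[ℂ] ℂ) (h1 : φ 1 = 1) (hm : ∀ f g, φ (f * g) = φ f * φ g) :
    ∃ (α : G →* ℂ) (hα : ∀ g, ‖α g‖ = 1), ∀ f, φ f = ev α hα f := by
  classical
  let α : G →* ℂ :=
    { toFun := fun g => φ (dl g)
      map_one' := by rw [← one_def, h1]
      map_mul' := fun g h => by rw [← dl_mul_dl, hm] }
  have hα' : ∀ g, α g = φ (dl g) := fun g => rfl
  have hle : ∀ g, ‖α g‖ ≤ 1 := by
    intro g
    by_contra hlt
    push Not at hlt
    obtain ⟨n, hn⟩ := pow_unbounded_of_one_lt ‖φ‖ hlt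
    have h2 : ‖α g‖ ^ n ≤ ‖φ‖ := by
      rw [← norm_pow, ← map_pow, hα']
      exact fn_dl_le φ _
    linarith
  have hα : ∀ g, ‖α g‖ = 1 := by
    intro g
    have h2 : ‖α g‖ * ‖α g⁻¹‖ = 1 := by
      rw [← norm_mul, ← map_mul, mul_inv_cancel, map_one, norm_one]
    have h3 := hle g
    have h4 := hle g⁻¹
    apply le_antisymm h3
    have h5 : ‖α g‖ * ‖α g⁻¹‖ ≤ ‖α g‖ * 1 := mul_le_mul_of_nonneg_left h4 (norm_nonneg _)
    linarith
  refine ⟨α, hα, fun f => fn_ext (fun g => ?_) f⟩
  rw [ev_dl]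
  rfl

/-- Classification of closed two-sided ideals of codimension two. -/
theorem codim_two (I : Submodule ℂ (Alg G)) (hI : IsClosed (I : Set (Alg G)))
    (hid : ∀ f ∈ I, ∀ g : Alg G, f * g ∈ I ∧ g * f ∈ I)
    (h2 : Module.finrank ℂ (Alg G ⧸ I) = 2) :
    ∃ (α β : G →* ℂ) (hα : ∀ g, ‖α g‖ = 1) (hβ : ∀ g, ‖β g‖ = 1), I = Ik α hα ⊓ Ik β hβ := by
  classical
  have : IsClosed (I : Set (Alg G)) := hI
  have : FiniteDimensional ℂ (Alg G ⧸ I) := Module.finite_of_finrank_eq_succ h2
  have hnorm : ∀ x : Alg G, ‖I.mkQ x‖ ≤ ‖x‖ := fun x => Submodule.Quotient.norm_mk_le _ x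
  set mkL : Alg G →L[ℂ] (Alg G ⧸ I) :=
    LinearMap.mkContinuous I.mkQ 1 (fun x => by rw [one_mul]; exact hnorm x) with hmkL
  have hmk0 : ∀ x, mkL x = 0 ↔ x ∈ I := fun x => Submodule.Quotient.mk_eq_zero I
  -- a point mass which is not scalar
  obtain ⟨g0, hg0⟩ : ∃ g0 : G, mkL (dl g0) ∉ Submodule.span ℂ {mkL 1} := by
    by_contra hcon
    push Not at hcon
    have hcl : IsClosed (Submodule.span ℂ {mkL 1} : Set (Alg G ⧸ I)) :=
      Submodule.closed_of_finiteDimensional _
    have htop : Submodule.span ℂ {mkL 1} = ⊤ := by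
      rw [eq_top_iff]
      intro x _
      obtain ⟨f, rfl⟩ := Submodule.mkQ_surjective I x
      have h3 := (hasSum_dl f).mapL mkL
      refine hcl.mem_of_tendsto h3 (Eventually.of_forall fun s => ?_)
      refine Submodule.sum_mem _ fun g _ => ?_
      rw [map_smul]
      exact Submodule.smul_mem _ _ (hcon g)
    have h3 : Module.finrank ℂ (Submodule.span ℂ {mkL 1} : Submodule ℂ (Alg G ⧸ I)) ≤ 1 := by
      refine (finrank_span_le_card _).trans ?_
      simp
    rw [htop, finrank_top, h2] at h3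
    omega
  have h1n : mkL 1 ≠ 0 := by
    intro h
    have h4 : ∀ x, mkL x = 0 := by
      intro x
      rw [hmk0] at h ⊢
      have h6 := (hid 1 h x).1
      rwa [one_mul] at h6
    have h5 : mkL (dl g0) ∈ Submodule.span ℂ {mkL 1} := by
      rw [h4 (dl g0)]
      exact Submodule.zero_mem _
    exact hg0 h5
  have hli : LinearIndependent ℂ ![mkL 1, mkL (dl g0)] := by
    rw [LinearIndependent.pair_iff' h1n]
    intro a ha
    exact hg0 (by rw [← ha]; exact Submodule.smul_mem _ _ (Submodule.mem_span_singleton_self _))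
  set b := basisOfLinearIndependentOfCardEqFinrank hli (by rw [h2]; simp) with hb
  have hb0 : b 0 = mkL 1 := by rw [hb, coe_basisOfLinearIndependentOfCardEqFinrank]; rfl
  have hb1 : b 1 = mkL (dl g0) := by rw [hb, coe_basisOfLinearIndependentOfCardEqFinrank]; rfl
  -- coordinates
  set X : Alg G →L[ℂ] ℂ := (LinearMap.toContinuousLinearMap (b.coord 0)).comp mkL with hX
  set Y : Alg G →L[ℂ] ℂ := (LinearMap.toContinuousLinearMap (b.coord 1)).comp mkL with hY
  have hrep : ∀ f, mkL f = X f • mkL 1 + Y f • mkL (dl g0) := by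
    intro f
    have := b.sum_repr (mkL f)
    rw [Fin.sum_univ_two, hb0, hb1] at this
    exact this.symm
  have huniq : ∀ (f : Alg G) (x y : ℂ), mkL f = x • mkL 1 + y • mkL (dl g0) → X f = x ∧ Y f = y := by
    intro f x y h
    have e1 : X f = b.repr (mkL f) 0 := rfl
    have e2 : Y f = b.repr (mkL f) 1 := rfl
    rw [e1, e2, h, ← hb0, ← hb1, map_add, map_smul, map_smul, b.repr_self, b.repr_self]
    constructor <;> simp
  have hX1 : X 1 = 1 ∧ Y 1 = 0 := huniq 1 1 0 (by simp)
  have hXu : X (dl g0) = 0 ∧ Y (dl g0) = 1 := huniq (dl g0) 0 1 (by simp)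
  set x2 := X (dl g0 * dl g0) with hx2
  set y2 := Y (dl g0 * dl g0) with hy2
  -- multiplication table
  have hmul : ∀ f g : Alg G, X (f * g) = X f * X g + Y f * Y g * x2 ∧
      Y (f * g) = X f * Y g + Y f * X g + Y f * Y g * y2 := by
    intro f g
    apply huniq
    have e1 : f - (X f • 1 + Y f • dl g0) ∈ I := by
      rw [← hmk0, map_sub, map_add, map_smul, map_smul, ← hrep, sub_self]
    have e2 : g - (X g • 1 + Y g • dl g0) ∈ I := by
      rw [← hmk0, map_sub, map_add, map_smul, map_smul, ← hrep, sub_self]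
    have e3 : f * g - (X f • 1 + Y f • dl g0) * (X g • 1 + Y g • dl g0) ∈ I := by
      have e4 : f * g - (X f • 1 + Y f • dl g0) * (X g • 1 + Y g • dl g0) =
          (f - (X f • 1 + Y f • dl g0)) * g +
          (X f • 1 + Y f • dl g0) * (g - (X g • 1 + Y g • dl g0)) := by
        rw [sub_mul, mul_sub]; abel
      rw [e4]
      exact I.add_mem (hid _ e1 _).1 (hid _ e2 _).2
    have e5 : mkL (f * g) = mkL ((X f • 1 + Y f • dl g0) * (X g • 1 + Y g • dl g0)) := by
      rw [← sub_eq_zero, ← map_sub, hmk0]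
      exact e3
    have e6 : (X f • 1 + Y f • dl g0) * (X g • 1 + Y g • dl g0) =
        (X f * X g) • (1 : Alg G) + (X f * Y g + Y f * X g) • dl g0 + (Y f * Y g) • (dl g0 * dl g0) := by
      simp only [add_mul, mul_add, smul_mul_assoc, mul_smul_comm, one_mul, mul_one]
      module
    rw [e5, e6, map_add, map_add, map_smul, map_smul, map_smul, hrep (dl g0 * dl g0), ← hx2, ← hy2]
    simp only [smul_add, smul_smul, add_smul]
    abel
  -- the multiplicative functionals
  have hphi : ∀ c : ℂ, c * c = y2 * c + x2 → ∀ f g, (X + c • Y) (f * g) =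
      (X + c • Y) f * (X + c • Y) g := by
    intro c hc f g
    simp only [_root_.add_apply, _root_.smul_apply, smul_eq_mul]
    rw [(hmul f g).1, (hmul f g).2]
    linear_combination (-(Y f * Y g)) * hc
  have hphi1 : ∀ c : ℂ, (X + c • Y) 1 = 1 := by
    intro c
    simp only [_root_.add_apply, _root_.smul_apply, smul_eq_mul]
    rw [hX1.1, hX1.2]
    ring
  obtain ⟨d, hd⟩ := IsAlgClosed.exists_pow_nat_eq (y2 ^ 2 + 4 * x2) (n := 2) (by norm_num)
  set a := (y2 + d) / 2 with ha
  set b' := (y2 - d) / 2 with hb'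
  have ha2 : a * a = y2 * a + x2 := by rw [ha]; linear_combination (1 / 4) * hd
  have hb2 : b' * b' = y2 * b' + x2 := by rw [hb']; linear_combination (1 / 4) * hd
  obtain ⟨α, hα, hαe⟩ := exists_char _ (hphi1 a) (hphi a ha2)
  obtain ⟨β, hβ, hβe⟩ := exists_char _ (hphi1 b') (hphi b' hb2)
  have hab : a ≠ b' := by
    intro hab
    have hd0 : d = 0 := by
      have : a - b' = d := by rw [ha, hb']; ring
      rw [← this, hab, sub_self]
    have hy2a : y2 = 2 * a := by rw [ha, hd0]; ring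
    have hx2a : x2 = -(a * a) := by rw [hy2a] at ha2; linear_combination (-1 : ℂ) * ha2
    have hnorma : ‖a‖ = 1 := by
      have e1 : (X + a • Y) (dl g0) = a := by
        simp only [_root_.add_apply, _root_.smul_apply, smul_eq_mul]
        rw [hXu.1, hXu.2]
        ring
      have e2 := hαe (dl g0)
      rw [e1, ev_dl] at e2
      rw [e2]
      exact hα g0
    have hpow : ∀ n : ℕ, Y (dl g0 ^ (n + 1)) = (n + 1) * a ^ n ∧
        X (dl g0 ^ (n + 1)) = -(n * a ^ (n + 1)) := by
      intro n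
      induction n with
      | zero => rw [zero_add, pow_one, hXu.1, hXu.2]; simp
      | succ n ih =>
        rw [pow_succ, (hmul _ _).1, (hmul _ _).2, ih.1, ih.2, hXu.1, hXu.2, hx2a, hy2a]
        push_cast
        constructor <;> ring
    have hbd : ∀ n : ℕ, ((n : ℝ) + 1) ≤ ‖Y‖ := by
      intro n
      have e1 : ‖Y (dl g0 ^ (n + 1))‖ = (n : ℝ) + 1 := by
        rw [(hpow n).1, norm_mul, norm_pow, hnorma, one_pow, mul_one]
        have : ((n : ℂ) + 1) = ((n + 1 : ℕ) : ℂ) := by push_cast; ring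
        rw [this, Complex.norm_natCast]
        push_cast; ring
      have e2 : dl g0 ^ (n + 1) = dl (g0 ^ (n + 1)) := by
        have : ∀ k : ℕ, (dl g0 : Alg G) ^ k = dl (g0 ^ k) := by
          intro k
          induction k with
          | zero => rw [pow_zero, pow_zero, one_def]
          | succ k ih => rw [pow_succ, pow_succ, ih, dl_mul_dl]
        exact this _
      rw [← e1, e2]
      exact fn_dl_le Y _
    obtain ⟨n, hn⟩ := exists_nat_gt ‖Y‖
    have := hbd n
    linarith
  refine ⟨α, β, hα, hβ, ?_⟩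
  ext f
  rw [Submodule.mem_inf, mem_Ik, mem_Ik, ← hαe, ← hβe, ← hmk0]
  simp only [_root_.add_apply, _root_.smul_apply, smul_eq_mul]
  constructor
  · intro h
    have e1 : X f = 0 ∧ Y f = 0 := huniq f 0 0 (by rw [h]; simp)
    rw [e1.1, e1.2]
    simp
  · rintro ⟨e1, e2⟩
    have e3 : (a - b') * Y f = 0 := by linear_combination e1 - e2
    have e4 : Y f = 0 := (mul_eq_zero.1 e3).resolve_left (sub_ne_zero.2 hab)
    have e5 : X f = 0 := by rw [e4, mul_zero, add_zero] at e1; exact e1
    rw [hrep, e4, e5]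
    simp

/-- Closed two-sided ideals of codimension two of `ℓ¹(G)`, `G` countable, are idempotent. -/
theorem main [Countable G] (I : Submodule ℂ (Alg G)) (hI : IsClosed (I : Set (Alg G)))
    (hid : ∀ f ∈ I, ∀ g : Alg G, f * g ∈ I ∧ g * f ∈ I)
    (h2 : Module.finrank ℂ (Alg G ⧸ I) = 2) : I * I = I := by
  obtain ⟨μ⟩ := exists_fullProb G
  obtain ⟨α, β, hα, hβ, rfl⟩ := codim_two I hI hid h2
  exact idem μ α β hα hβ

/-- The same with explicit convolution sums. -/
theorem main_span [Countable G] (I : Submodule ℂ (Alg G)) (hI : IsClosed (I : Set (Alg G)))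
    (hid : ∀ f ∈ I, ∀ g h : Alg G, ((∀ x, h x = ∑' y, f y * g (y⁻¹ * x)) → h ∈ I) ∧
      ((∀ x, h x = ∑' y, g y * f (y⁻¹ * x)) → h ∈ I))
    (h2 : Module.finrank ℂ (Alg G ⧸ I) = 2) :
    Submodule.span ℂ {h : Alg G | ∃ a ∈ I, ∃ b ∈ I, ∀ x, h x = ∑' y, a y * b (y⁻¹ * x)} = I := by
  have hmain := main I hI (fun f hf g => ⟨(hid f hf g (f * g)).1 (fun x => mul_apply f g x),
    (hid f hf g (g * f)).2 (fun x => mul_apply g f x)⟩) h2
  rw [Submodule.mul_eq_span_mul_set] at hmain
  refine Eq.trans ?_ hmain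
  refine congrArg (Submodule.span ℂ) ?_
  apply Set.ext
  intro h
  constructor
  · rintro ⟨a, ha, b, hb, hh⟩
    exact ⟨a, ha, b, hb, ext' (fun x => (mul_apply a b x).trans (hh x).symm)⟩
  · rintro ⟨a, ha, b, hb, rfl⟩
    exact ⟨a, ha, b, hb, fun x => mul_apply a b x⟩

end Pool.Agent.W5h45.LG
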