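import Mathlib

open Filter Topology
open scoped ENNReal NNReal InnerProductSpace

namespace Pool.Agent.W5h45.WM

/-- the sequence space l^2 over 𝕜 -/
abbrev ell2 (𝕜 : Type*) [RCLike 𝕜] := lp (fun _ : ℕ => 𝕜) 2

section
variable {𝕜 : Type*} [RCLike 𝕜]

theorem two_toReal : (2 : ℝ≥0∞).toReal = 2 := by simp

theorem ell2_norm_sq (z : ell2 𝕜) : ‖z‖ ^ 2 = ∑' n, ‖z n‖ ^ 2 := by
  have h := lp.norm_rpow_eq_tsum (p := 2) (by simp) z
  rw [two_toReal] at h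
  have h2 : ∀ x : ℝ, x ^ (2:ℝ) = x ^ (2:ℕ) := fun x => by
    rw [← Real.rpow_natCast]; norm_num
  simp only [h2] at h
  exact h

theorem ell2_summable (z : ell2 𝕜) : Summable (fun n => ‖z n‖ ^ 2) := by
  have h := (lp.memℓp z).summable (by simp)
  rw [two_toReal] at h
  have h2 : ∀ x : ℝ, x ^ (2:ℝ) = x ^ (2:ℕ) := fun x => by
    rw [← Real.rpow_natCast]; norm_num
  simp only [h2] at h
  exact h

theorem memlp_two {z : ℕ → 𝕜} (h : Summable (fun n => ‖z n‖ ^ 2)) : Memℓp z 2 := by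
  apply memℓp_gen
  rw [two_toReal]
  have h2 : ∀ x : ℝ, x ^ (2:ℝ) = x ^ (2:ℕ) := fun x => by
    rw [← Real.rpow_natCast]; norm_num
  simp only [h2]
  exact h

/-- analysis operator -/
theorem exists_anal {E : Type*} [NormedAddCommGroup E] [NormedSpace 𝕜 E]
    (φ : ℕ → (E →L[𝕜] 𝕜)) (K : ℝ) (hK0 : 0 ≤ K)
    (hK : ∀ (F : Finset ℕ) (z : ℕ → 𝕜),
      ‖∑ n ∈ F, z n • φ n‖ ≤ K * Real.sqrt (∑ n ∈ F, ‖z n‖ ^ 2)) :
    ∃ P : E →L[𝕜] ell2 𝕜, (∀ x, ‖P x‖ ≤ K * ‖x‖) ∧ ∀ x n, (P x : ∀ _ : ℕ, 𝕜) n = φ n x := by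
  have key : ∀ (x : E) (F : Finset ℕ), ∑ n ∈ F, ‖φ n x‖ ^ 2 ≤ (K * ‖x‖) ^ 2 := by
    intro x F
    set s : ℝ := ∑ n ∈ F, ‖φ n x‖ ^ 2 with hs
    have hs0 : 0 ≤ s := Finset.sum_nonneg (fun n _ => by positivity)
    have h1 := hK F (fun n => (starRingEnd 𝕜) (φ n x))
    have h2 : ‖(∑ n ∈ F, ((starRingEnd 𝕜) (φ n x)) • φ n) x‖ ≤
        (K * Real.sqrt s) * ‖x‖ := by
      refine (ContinuousLinearMap.le_opNorm _ _).trans ?_
      refine mul_le_mul_of_nonneg_right ?_ (norm_nonneg _)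
      refine h1.trans (le_of_eq ?_)
      simp [hs]
    have h3 : (∑ n ∈ F, ((starRingEnd 𝕜) (φ n x)) • φ n) x = (s : 𝕜) := by
      rw [hs]
      rw [_root_.sum_apply]
      push_cast
      refine Finset.sum_congr rfl (fun n _ => ?_)
      change (starRingEnd 𝕜) (φ n x) * φ n x = _
      rw [RCLike.conj_mul]
    rw [h3, RCLike.norm_ofReal, abs_of_nonneg hs0] at h2
    by_cases hs1 : s = 0
    · rw [hs1]; positivity
    have hs2 : 0 < Real.sqrt s := Real.sqrt_pos.2 (lt_of_le_of_ne hs0 (Ne.symm hs1))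
    have h4 : Real.sqrt s * Real.sqrt s = s := Real.mul_self_sqrt hs0
    have h5 : Real.sqrt s ≤ K * ‖x‖ := by
      have : Real.sqrt s * Real.sqrt s ≤ Real.sqrt s * (K * ‖x‖) := by
        rw [h4]; linarith
      exact le_of_mul_le_mul_left this hs2
    calc s = Real.sqrt s ^ 2 := by rw [sq, h4]
      _ ≤ (K * ‖x‖) ^ 2 := pow_le_pow_left₀ hs2.le h5 2
  have hsum : ∀ x : E, Summable (fun n => ‖φ n x‖ ^ 2) := fun x =>
    summable_of_sum_le (fun n => by positivity) (key x)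
  let P0 : E →ₗ[𝕜] ell2 𝕜 :=
    { toFun := fun x => ⟨fun n => φ n x, memlp_two (hsum x)⟩
      map_add' := by
        intro x y
        apply lp.ext
        funext n
        exact map_add (φ n) x y
      map_smul' := by
        intro c x
        apply lp.ext
        funext n
        simp }
  have hP0 : ∀ x, ‖P0 x‖ ≤ K * ‖x‖ := by
    intro x
    have h1 : ‖P0 x‖ ^ 2 ≤ (K * ‖x‖) ^ 2 := by
      rw [ell2_norm_sq]
      exact (hsum x).tsum_le_of_sum_le (key x)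
    exact (pow_le_pow_iff_left₀ (norm_nonneg _) (by positivity) (by norm_num)).1 h1
  exact ⟨P0.mkContinuous K hP0, hP0, fun x n => rfl⟩

/-- synthesis operator -/
theorem exists_synth {E : Type*} [NormedAddCommGroup E] [NormedSpace 𝕜 E] [CompleteSpace E]
    (h : ℕ → E) (K : ℝ) (hK0 : 0 ≤ K)
    (hK : ∀ (F : Finset ℕ) (z : ℕ → 𝕜),
      ‖∑ n ∈ F, z n • h n‖ ≤ K * Real.sqrt (∑ n ∈ F, ‖z n‖ ^ 2)) :
    ∃ S : ell2 𝕜 →L[𝕜] E, (∀ z, ‖S z‖ ≤ K * ‖z‖) ∧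
      ∀ z : ell2 𝕜, HasSum (fun n => (z : ∀ _ : ℕ, 𝕜) n • h n) (S z) := by
  have hsum : ∀ z : ell2 𝕜, Summable (fun n => (z : ∀ _ : ℕ, 𝕜) n • h n) := by
    intro z
    rw [summable_iff_vanishing_norm]
    intro ε hε
    have h1 := summable_iff_vanishing_norm.1 (ell2_summable z) ((ε / (K + 1)) ^ 2) (by positivity)
    obtain ⟨s, hs⟩ := h1
    refine ⟨s, fun t ht => ?_⟩
    have h2 := hs t ht
    have h3 : 0 ≤ ∑ n ∈ t, ‖z n‖ ^ 2 := Finset.sum_nonneg (fun n _ => by positivity)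
    rw [Real.norm_eq_abs, abs_of_nonneg h3] at h2
    have h4 : Real.sqrt (∑ n ∈ t, ‖z n‖ ^ 2) < ε / (K + 1) := by
      rw [Real.sqrt_lt' (by positivity)]
      exact h2
    calc ‖∑ n ∈ t, z n • h n‖ ≤ K * Real.sqrt (∑ n ∈ t, ‖z n‖ ^ 2) := hK t _
      _ ≤ K * (ε / (K + 1)) := by gcongr
      _ < ε := by
        rw [mul_div_assoc', div_lt_iff₀ (by positivity)]
        nlinarith
  let S0 : ell2 𝕜 →ₗ[𝕜] E :=
    { toFun := fun z => ∑' n, (z : ∀ _ : ℕ, 𝕜) n • h n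
      map_add' := by
        intro x y
        rw [← (hsum x).tsum_add (hsum y)]
        congr 1
        funext n
        rw [← add_smul]
        rfl
      map_smul' := by
        intro c x
        rw [RingHom.id_apply, ← (hsum x).tsum_const_smul c]
        congr 1
        funext n
        rw [← mul_smul]
        rfl }
  have hS0 : ∀ z, ‖S0 z‖ ≤ K * ‖z‖ := by
    intro z
    have h1 : Tendsto (fun F : Finset ℕ => ‖∑ n ∈ F, z n • h n‖) atTop (𝓝 ‖S0 z‖) :=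
      (hsum z).hasSum.norm
    refine le_of_tendsto h1 (Eventually.of_forall (fun F => ?_))
    refine (hK F _).trans ?_
    refine mul_le_mul_of_nonneg_left ?_ hK0
    rw [Real.sqrt_le_left (norm_nonneg _), ell2_norm_sq]
    exact (ell2_summable z).sum_le_tsum F (fun n _ => by positivity)
  exact ⟨S0.mkContinuous K hS0, hS0, fun z => (hsum z).hasSum⟩

/-- the weak maximizing property of the pair `(E, F)` -/
def WMP (𝕜 E F : Type*) [RCLike 𝕜] [NormedAddCommGroup E] [NormedSpace 𝕜 E]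
    [NormedAddCommGroup F] [NormedSpace 𝕜 F] : Prop :=
  ∀ T : E →L[𝕜] F,
    (∃ x : ℕ → E, (∀ n, ‖x n‖ = 1) ∧ Tendsto (fun n => ‖T (x n)‖) atTop (𝓝 ‖T‖) ∧
      ¬ ∀ φ : E →L[𝕜] 𝕜, Tendsto (fun n => φ (x n)) atTop (𝓝 0)) →
    ∃ x₀ : E, ‖x₀‖ = 1 ∧ ‖T x₀‖ = ‖T‖

/-- weights `1, 1/2, 2/3, 3/4, ...` -/
noncomputable def lam (n : ℕ) : ℝ := if n = 0 then 1 else 1 - 1 / ((n : ℝ) + 1)

theorem lam_zero : lam 0 = 1 := by simp [lam]

theorem lam_succ (n : ℕ) : lam (n + 1) = 1 - 1 / ((n : ℝ) + 2) := by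
  simp only [lam, Nat.add_eq_zero_iff, one_ne_zero, and_false, if_false]
  push_cast
  ring_nf

theorem lam_nonneg (n : ℕ) : 0 ≤ lam n := by
  rcases n with _ | n
  · simp [lam]
  · rw [lam_succ]
    have : 1 / ((n : ℝ) + 2) ≤ 1 := by
      rw [div_le_one (by positivity)]
      have : (0:ℝ) ≤ n := Nat.cast_nonneg n
      linarith
    linarith

theorem lam_le_one (n : ℕ) : lam n ≤ 1 := by
  rcases n with _ | n
  · simp [lam]
  · rw [lam_succ]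
    have : 0 ≤ 1 / ((n : ℝ) + 2) := by positivity
    linarith

theorem lam_lt_one (n : ℕ) (hn : n ≠ 0) : lam n < 1 := by
  rcases n with _ | n
  · exact absurd rfl hn
  · rw [lam_succ]
    have : 0 < 1 / ((n : ℝ) + 2) := by positivity
    linarith

theorem lam_tendsto : Tendsto (fun n : ℕ => lam (n + 1)) atTop (𝓝 1) := by
  have h1 : Tendsto (fun n : ℕ => 1 / ((n : ℝ) + 1)) atTop (𝓝 0) :=
    tendsto_one_div_add_atTop_nhds_zero_nat
  have h2 : Tendsto (fun n : ℕ => 1 - 1 / (((n + 1 : ℕ) : ℝ) + 1)) atTop (𝓝 (1 - 0)) :=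
    tendsto_const_nhds.sub (h1.comp (tendsto_add_atTop_nat 1))
  rw [sub_zero] at h2
  refine h2.congr (fun n => ?_)
  rw [lam_succ]
  push_cast
  ring_nf

/-- diagonal operator -/
theorem exists_diag (𝕜 : Type*) [RCLike 𝕜] :
    ∃ D : ell2 𝕜 →L[𝕜] ell2 𝕜, (∀ z, ‖D z‖ ≤ ‖z‖) ∧
      (∀ (z : ell2 𝕜) n, (D z : ∀ _ : ℕ, 𝕜) n = (lam n : 𝕜) * (z : ∀ _ : ℕ, 𝕜) n) := by
  have hle : ∀ (z : ell2 𝕜) n, ‖(lam n : 𝕜) * (z : ∀ _ : ℕ, 𝕜) n‖ ^ 2 ≤ ‖z n‖ ^ 2 := by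
    intro z n
    rw [norm_mul, RCLike.norm_ofReal, abs_of_nonneg (lam_nonneg n)]
    refine pow_le_pow_left₀ (mul_nonneg (lam_nonneg n) (norm_nonneg _)) ?_ 2
    exact mul_le_of_le_one_left (norm_nonneg _) (lam_le_one n)
  have hsum : ∀ (z : ell2 𝕜), Summable (fun n => ‖(lam n : 𝕜) * (z : ∀ _ : ℕ, 𝕜) n‖ ^ 2) :=
    fun z => Summable.of_nonneg_of_le (fun n => by positivity) (hle z) (ell2_summable z)
  let D0 : ell2 𝕜 →ₗ[𝕜] ell2 𝕜 :=
    { toFun := fun z => ⟨fun n => (lam n : 𝕜) * (z : ∀ _ : ℕ, 𝕜) n, memlp_two (hsum z)⟩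
      map_add' := by
        intro x y
        apply lp.ext
        funext n
        exact mul_add _ _ _
      map_smul' := by
        intro c x
        apply lp.ext
        funext n
        simp
        ring }
  have hD0 : ∀ z, ‖D0 z‖ ≤ 1 * ‖z‖ := by
    intro z
    rw [one_mul]
    have h1 : ‖D0 z‖ ^ 2 ≤ ‖z‖ ^ 2 := by
      rw [ell2_norm_sq, ell2_norm_sq]
      exact (hsum z).tsum_le_tsum (hle z) (ell2_summable z)
    exact (pow_le_pow_iff_left₀ (norm_nonneg _) (norm_nonneg _) (by norm_num)).1 h1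
  exact ⟨D0.mkContinuous 1 hD0, fun z => by simpa using hD0 z, fun z n => rfl⟩

/-- strictness of the diagonal operator -/
theorem diag_strict {D : ell2 𝕜 →L[𝕜] ell2 𝕜}
    (hD : ∀ (z : ell2 𝕜) n, (D z : ∀ _ : ℕ, 𝕜) n = (lam n : 𝕜) * (z : ∀ _ : ℕ, 𝕜) n)
    (z : ell2 𝕜) (h : ‖z‖ ≤ ‖D z‖) : z = lp.single 2 0 ((z : ∀ _ : ℕ, 𝕜) 0) := by
  have hle : ∀ n, ‖(D z : ∀ _ : ℕ, 𝕜) n‖ ^ 2 ≤ ‖z n‖ ^ 2 := by
    intro n
    rw [hD, norm_mul, RCLike.norm_ofReal, abs_of_nonneg (lam_nonneg n)]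
    refine pow_le_pow_left₀ (mul_nonneg (lam_nonneg n) (norm_nonneg _)) ?_ 2
    exact mul_le_of_le_one_left (norm_nonneg _) (lam_le_one n)
  have hz : ∀ n, n ≠ 0 → (z : ∀ _ : ℕ, 𝕜) n = 0 := by
    intro n hn
    by_contra hne
    have hpos : 0 < ‖z n‖ := norm_pos_iff.2 hne
    have hlt : ‖(D z : ∀ _ : ℕ, 𝕜) n‖ ^ 2 < ‖z n‖ ^ 2 := by
      rw [hD, norm_mul, RCLike.norm_ofReal, abs_of_nonneg (lam_nonneg n)]
      refine pow_lt_pow_left₀ ?_ (mul_nonneg (lam_nonneg n) (norm_nonneg _)) (by norm_num)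
      exact mul_lt_of_lt_one_left hpos (lam_lt_one n hn)
    have h1 : ‖D z‖ ^ 2 < ‖z‖ ^ 2 := by
      rw [ell2_norm_sq, ell2_norm_sq]
      exact Summable.tsum_lt_tsum hle hlt (ell2_summable (D z)) (ell2_summable z)
    have h2 : ‖z‖ ^ 2 ≤ ‖D z‖ ^ 2 := pow_le_pow_left₀ (norm_nonneg _) h 2
    linarith
  apply lp.ext
  funext n
  rcases eq_or_ne n 0 with rfl | hn
  · rw [lp.single_apply_self]
  · rw [hz n hn, lp.single_apply_ne _ _ _ hn]

theorem diag_single {D : ell2 𝕜 →L[𝕜] ell2 𝕜}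
    (hD : ∀ (z : ell2 𝕜) n, (D z : ∀ _ : ℕ, 𝕜) n = (lam n : 𝕜) * (z : ∀ _ : ℕ, 𝕜) n)
    (k : ℕ) (α : 𝕜) : D (lp.single 2 k α) = (lam k : 𝕜) • lp.single 2 k α := by
  apply lp.ext
  funext n
  rw [hD, lp.coeFn_smul, Pi.smul_apply, smul_eq_mul]
  rcases eq_or_ne n k with rfl | hn
  · rfl
  · rw [lp.single_apply_ne _ _ _ hn]
    simp

/-- The abstract criterion. -/
theorem not_wmp_of {E F : Type*} [NormedAddCommGroup E] [NormedSpace 𝕜 E]
    [NormedAddCommGroup F] [NormedSpace 𝕜 F]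
    (P : E →L[𝕜] ell2 𝕜) (R : ell2 𝕜 →L[𝕜] F) (K : ℝ) (hK : 0 < K)
    (hP : ∀ x, ‖P x‖ ≤ ‖x‖) (hR : ∀ z, ‖R z‖ ≤ K * ‖z‖)
    (a σ : ℝ) (ha : a ≠ 0)
    (x : ℕ → E) (hx : ∀ k, ‖x k‖ = 1)
    (hPx : ∀ k, P (x k) = lp.single 2 0 (a : 𝕜) + lp.single 2 (k + 1) (σ : 𝕜))
    (hRu : ∀ k, ‖R (lp.single 2 0 (a : 𝕜) + lp.single 2 (k + 1) (σ : 𝕜))‖ = K)
    (hstrict : ∀ y, y ≠ 0 → ∀ α : 𝕜, P y = lp.single 2 0 α → ‖R (P y)‖ < K * ‖y‖) :
    ¬ WMP 𝕜 E F := by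
  obtain ⟨D, hD1, hD⟩ := exists_diag 𝕜
  set T : E →L[𝕜] F := R.comp (D.comp P) with hT
  have hTle : ∀ y, ‖T y‖ ≤ K * ‖y‖ := by
    intro y
    calc ‖T y‖ = ‖R (D (P y))‖ := rfl
      _ ≤ K * ‖D (P y)‖ := hR _
      _ ≤ K * ‖P y‖ := by gcongr; exact hD1 _
      _ ≤ K * ‖y‖ := by gcongr; exact hP _
  have hTx : ∀ k, T (x k) = R (lp.single 2 0 (a : 𝕜) + lp.single 2 (k + 1) (σ : 𝕜)) -
      ((1 - lam (k + 1) : ℝ) : 𝕜) • R (lp.single 2 (k + 1) (σ : 𝕜)) := by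
    intro k
    have : T (x k) = R (D (P (x k))) := rfl
    rw [this, hPx, map_add, diag_single hD, diag_single hD, lam_zero]
    rw [← R.map_smul, ← R.map_sub]
    congr 1
    push_cast
    module
  have hlim : Tendsto (fun k => ‖T (x k)‖) atTop (𝓝 K) := by
    have h1 : ∀ k, |‖T (x k)‖ - K| ≤ (1 - lam (k + 1)) * (K * |σ|) := by
      intro k
      have e0 : |‖T (x k)‖ - K| = |‖T (x k)‖ -
          ‖R (lp.single 2 0 (a : 𝕜) + lp.single 2 (k + 1) (σ : 𝕜))‖| := by rw [hRu k]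
      rw [e0, hTx]
      refine (abs_norm_sub_norm_le _ _).trans ?_
      rw [sub_sub_cancel_left, norm_neg, norm_smul, RCLike.norm_ofReal,
        abs_of_nonneg (by linarith [lam_le_one (k + 1)])]
      refine mul_le_mul_of_nonneg_left ?_ (by linarith [lam_le_one (k + 1)])
      refine (hR _).trans ?_
      rw [lp.norm_single (by norm_num), RCLike.norm_ofReal]
    have h2 : Tendsto (fun k => (1 - lam (k + 1)) * (K * |σ|)) atTop (𝓝 ((1 - 1) * (K * |σ|))) :=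
      (tendsto_const_nhds.sub lam_tendsto).mul tendsto_const_nhds
    rw [sub_self, zero_mul] at h2
    have h3 : Tendsto (fun k => ‖T (x k)‖ - K) atTop (𝓝 0) :=
      squeeze_zero_norm (fun k => by rw [Real.norm_eq_abs]; exact h1 k) h2
    have h4 := h3.add (tendsto_const_nhds (x := K))
    simpa using h4
  have hTnorm : ‖T‖ = K := by
    apply le_antisymm
    · exact T.opNorm_le_bound hK.le hTle
    · refine le_of_tendsto hlim (Eventually.of_forall (fun k => ?_))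
      have := T.le_opNorm (x k)
      rwa [hx, mul_one] at this
  intro hW
  obtain ⟨y, hy1, hy2⟩ := hW T ⟨x, hx, by rw [hTnorm]; exact hlim, by
    intro hweak
    have h1 := hweak ((lp.evalCLM (𝕜 := 𝕜) (fun _ : ℕ => 𝕜) 2 0).comp P)
    have h2 : ∀ k, ((lp.evalCLM (𝕜 := 𝕜) (fun _ : ℕ => 𝕜) 2 0).comp P) (x k) = (a : 𝕜) := by
      intro k
      change (P (x k) : ∀ _ : ℕ, 𝕜) 0 = _
      rw [hPx, lp.coeFn_add, Pi.add_apply, lp.single_apply_self,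
        lp.single_apply_ne _ _ _ (Nat.succ_ne_zero k).symm, add_zero]
    simp only [h2] at h1
    have h3 := tendsto_nhds_unique h1 tendsto_const_nhds
    exact ha (by exact_mod_cast h3.symm)⟩
  rw [hTnorm] at hy2
  have hy0 : y ≠ 0 := by
    intro h
    rw [h, norm_zero] at hy1
    exact zero_ne_one hy1
  have e1 : ‖T y‖ = ‖R (D (P y))‖ := rfl
  have e2 : K ≤ K * ‖D (P y)‖ := by
    calc K = ‖R (D (P y))‖ := by rw [← e1, hy2]
      _ ≤ K * ‖D (P y)‖ := hR _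
  have e3 : 1 ≤ ‖D (P y)‖ := by
    by_contra hlt
    push Not at hlt
    nlinarith
  have e4 : ‖P y‖ ≤ ‖D (P y)‖ := by
    have := hP y
    rw [hy1] at this
    linarith
  have e5 := diag_strict hD (P y) e4
  have e6 := hstrict y hy0 _ e5
  have e7 : D (P y) = P y := by
    rw [e5, diag_single hD, lam_zero]
    simp
  rw [e1, e7] at hy2
  rw [hy2, hy1, mul_one] at e6
  exact lt_irrefl _ e6

end

end Pool.Agent.W5h45.WM
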