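import Mathlib

open Filter Topology MeasureTheory ProbabilityTheory
open scoped ENNReal NNReal

namespace Pool.Agent.W5h45.WM

/-- A sequence of functions on `[0,1]` all of whose finite linear combinations are centred
Gaussian with the expected variance. -/
theorem exists_gauss : ∃ g : ℕ → unitInterval → ℝ, (∀ n, Measurable (g n)) ∧
    ∀ (F : Finset ℕ) (z : ℕ → ℝ),
      (volume : Measure unitInterval).map (fun ω => ∑ n ∈ F, z n * g n ω) =
        gaussianReal 0 (Real.toNNReal (∑ n ∈ F, z n ^ 2)) := by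
  obtain ⟨Ω, mΩ, P, X, hXm, hXlaw, hXind, hP⟩ := exists_iid ℕ (gaussianReal 0 1)
  have hlaw : ∀ (z : ℕ → ℝ) (F : Finset ℕ),
      P.map (fun ω => ∑ n ∈ F, z n * X n ω) =
        gaussianReal 0 (Real.toNNReal (∑ n ∈ F, z n ^ 2)) := by
    intro z F
    induction F using Finset.induction_on with
    | empty =>
      simp [gaussianReal_zero_var]
    | insert a s ha ih =>
      have h1 : iIndepFun (fun n ω => z n * X n ω) P := by
        have := hXind.comp (fun n x => z n * x) (fun n => by fun_prop)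
        exact this
      have h2 : IndepFun (∑ n ∈ s, fun ω => z n * X n ω) (fun ω => z a * X a ω) P :=
        h1.indepFun_finsetSum_of_notMem (fun n => by fun_prop) ha
      have h3 := gaussianReal_const_mul (hXlaw a) (z a)
      have h4 : P.map (∑ n ∈ s, fun ω => z n * X n ω) =
          gaussianReal 0 (Real.toNNReal (∑ n ∈ s, z n ^ 2)) := by
        rw [← ih]
        congr 1
        funext ω
        simp
      have h5 := gaussianReal_add_gaussianReal_of_indepFun h2 h4 h3.map_eq
      have h6 : (fun ω => ∑ n ∈ insert a s, z n * X n ω) =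
          (∑ n ∈ s, fun ω => z n * X n ω) + (fun ω => z a * X a ω) := by
        funext ω
        rw [Finset.sum_insert ha]
        simp [add_comm]
      rw [h6, h5]
      congr 1
      · simp
      · rw [Finset.sum_insert ha, add_comm (z a ^ 2),
          Real.toNNReal_add (Finset.sum_nonneg (fun n _ => sq_nonneg _)) (sq_nonneg _)]
        congr 1
        rw [mul_one]
        ext
        simp [sq_nonneg]
  set ν : Measure (ℕ → ℝ) := P.map (fun ω n => X n ω) with hν
  have hmeas : Measurable (fun ω n => X n ω) := measurable_pi_lambda _ hXm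
  have : IsProbabilityMeasure ν := Measure.isProbabilityMeasure_map hmeas.aemeasurable
  obtain ⟨f, hf, hfν⟩ := Measure.exists_measurable_map_eq ν
  refine ⟨fun n ω => f ω n, fun n => (measurable_pi_apply n).comp hf, fun F z => ?_⟩
  have hΦ : Measurable (fun x : ℕ → ℝ => ∑ n ∈ F, z n * x n) := by fun_prop
  have e1 : (fun ω => ∑ n ∈ F, z n * f ω n) = (fun x : ℕ → ℝ => ∑ n ∈ F, z n * x n) ∘ f := rfl
  rw [e1, ← Measure.map_map hΦ hf, hfν, hν, Measure.map_map hΦ hmeas]
  exact hlaw z F

/-- the `L_r` norm of `m + σ γ` with `γ` a standard Gaussian -/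
noncomputable def N (r : ℝ≥0∞) (m σ : ℝ) : ℝ :=
  (eLpNorm (fun x : ℝ => m + σ * x) r (gaussianReal 0 1)).toReal

theorem memLp_aff (r : ℝ≥0∞) (hr : r ≠ ∞) (m σ : ℝ) :
    MemLp (fun x : ℝ => m + σ * x) r (gaussianReal 0 1) := by
  have h1 : MemLp (fun x : ℝ => x) r (gaussianReal 0 1) := memLp_id_gaussianReal' r hr
  exact (memLp_const m).add (h1.const_mul σ)

theorem map_aff (m : ℝ) {s : ℝ} (hs : 0 ≤ s) :
    (gaussianReal 0 1).map (fun x => m + Real.sqrt s * x) = gaussianReal m (Real.toNNReal s) := by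
  have e1 : (fun x : ℝ => m + Real.sqrt s * x) = (fun y => m + y) ∘ (fun x => Real.sqrt s * x) := rfl
  rw [e1, ← Measure.map_map (by fun_prop) (by fun_prop), gaussianReal_map_const_mul,
    gaussianReal_map_const_add]
  congr 1
  · simp
  · rw [mul_one]
    ext
    simp [Real.sq_sqrt hs, hs]

theorem map_const_add_sum {g : ℕ → unitInterval → ℝ} (hg : ∀ n, Measurable (g n))
    (hlaw : ∀ (F : Finset ℕ) (z : ℕ → ℝ),
      (volume : Measure unitInterval).map (fun ω => ∑ n ∈ F, z n * g n ω) =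
        gaussianReal 0 (Real.toNNReal (∑ n ∈ F, z n ^ 2)))
    (m : ℝ) (F : Finset ℕ) (z : ℕ → ℝ) :
    (volume : Measure unitInterval).map (fun ω => m + ∑ n ∈ F, z n * g n ω) =
      (gaussianReal 0 1).map (fun x => m + Real.sqrt (∑ n ∈ F, z n ^ 2) * x) := by
  rw [map_aff m (Finset.sum_nonneg (fun n _ => sq_nonneg _))]
  have e1 : (fun ω => m + ∑ n ∈ F, z n * g n ω) =
      (fun y => m + y) ∘ (fun ω => ∑ n ∈ F, z n * g n ω) := rfl
  rw [e1, ← Measure.map_map (by fun_prop) (by fun_prop), hlaw, gaussianReal_map_const_add, zero_add]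

theorem eLpNorm_const_add_sum {g : ℕ → unitInterval → ℝ} (hg : ∀ n, Measurable (g n))
    (hlaw : ∀ (F : Finset ℕ) (z : ℕ → ℝ),
      (volume : Measure unitInterval).map (fun ω => ∑ n ∈ F, z n * g n ω) =
        gaussianReal 0 (Real.toNNReal (∑ n ∈ F, z n ^ 2)))
    (r : ℝ≥0∞) (m : ℝ) (F : Finset ℕ) (z : ℕ → ℝ) :
    eLpNorm (fun ω => m + ∑ n ∈ F, z n * g n ω) r volume =
      eLpNorm (fun x => m + Real.sqrt (∑ n ∈ F, z n ^ 2) * x) r (gaussianReal 0 1) := by
  have h1 := map_const_add_sum hg hlaw m F z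
  have e1 : eLpNorm (fun ω => m + ∑ n ∈ F, z n * g n ω) r volume =
      eLpNorm id r ((volume : Measure unitInterval).map (fun ω => m + ∑ n ∈ F, z n * g n ω)) := by
    rw [eLpNorm_map_measure (by fun_prop) (by fun_prop)]
    rfl
  rw [e1, h1, eLpNorm_map_measure (by fun_prop) (by fun_prop)]
  rfl

theorem memLp_const_add_sum {g : ℕ → unitInterval → ℝ} (hg : ∀ n, Measurable (g n))
    (hlaw : ∀ (F : Finset ℕ) (z : ℕ → ℝ),
      (volume : Measure unitInterval).map (fun ω => ∑ n ∈ F, z n * g n ω) =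
        gaussianReal 0 (Real.toNNReal (∑ n ∈ F, z n ^ 2)))
    (r : ℝ≥0∞) (hr : r ≠ ∞) (m : ℝ) (F : Finset ℕ) (z : ℕ → ℝ) :
    MemLp (fun ω => m + ∑ n ∈ F, z n * g n ω) r (volume : Measure unitInterval) := by
  refine ⟨by fun_prop, ?_⟩
  rw [eLpNorm_const_add_sum hg hlaw]
  exact (memLp_aff r hr _ _).2

end Pool.Agent.W5h45.WM
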