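import Pool.Agent.W5h45.WM2

open Filter Topology MeasureTheory ProbabilityTheory
open scoped ENNReal NNReal

namespace Pool.Agent.W5h45.WM

/-- absolute Gaussian moments -/
noncomputable def M (s : ℝ) : ℝ := ∫ x, |x| ^ s ∂(gaussianReal 0 1)

theorem integrable_abs_rpow_aff {s : ℝ} (hs : 0 < s) (m σ : ℝ) :
    Integrable (fun x => |m + σ * x| ^ s) (gaussianReal 0 1) := by
  have h := (memLp_aff (ENNReal.ofReal s) ENNReal.ofReal_ne_top m σ).integrable_norm_rpow
    (by simpa using hs) ENNReal.ofReal_ne_top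
  rw [ENNReal.toReal_ofReal hs.le] at h
  exact h

theorem integrable_abs_rpow {s : ℝ} (hs : 0 < s) :
    Integrable (fun x : ℝ => |x| ^ s) (gaussianReal 0 1) := by
  have h := integrable_abs_rpow_aff hs 0 1
  simpa using h

theorem M_eq {s : ℝ} (hs : 0 < s) :
    M s = (Real.sqrt (2 * Real.pi))⁻¹ * (2 * ((1 / 2 : ℝ) ^ (-(s + 1) / 2) * (1 / 2) *
      Real.Gamma ((s + 1) / 2))) := by
  rw [M, integral_gaussianReal_eq_integral_smul one_ne_zero]
  have e1 : (fun x => gaussianPDFReal 0 1 x • |x| ^ s) =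
      fun x => (Real.sqrt (2 * Real.pi))⁻¹ *
        ((fun y : ℝ => y ^ s * Real.exp (-(1 / 2) * y ^ (2 : ℝ))) |x|) := by
    funext x
    simp only [gaussianPDFReal, smul_eq_mul, NNReal.coe_one, mul_one, sub_zero]
    have e2 : |x| ^ (2 : ℝ) = x ^ 2 := by
      rw [show (2 : ℝ) = ((2 : ℕ) : ℝ) by norm_num, Real.rpow_natCast, sq_abs]
    rw [e2]
    have e3 : -x ^ 2 / 2 = -(1 / 2) * x ^ 2 := by ring
    rw [e3]
    ring
  rw [e1, integral_const_mul, integral_comp_abs
    (f := fun y : ℝ => y ^ s * Real.exp (-(1 / 2) * y ^ (2 : ℝ))),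
    integral_rpow_mul_exp_neg_mul_rpow (by norm_num) (by linarith) (by norm_num)]

theorem M_add_two {s : ℝ} (hs : 0 < s) : M (s + 2) = (s + 1) * M s := by
  rw [M_eq hs, M_eq (by linarith : 0 < s + 2)]
  have e1 : (s + 2 + 1) / 2 = (s + 1) / 2 + 1 := by ring
  have e2 : (1 / 2 : ℝ) ^ (-(s + 2 + 1) / 2) = (1 / 2 : ℝ) ^ (-(s + 1) / 2) * 2 := by
    rw [show -(s + 2 + 1) / 2 = -(s + 1) / 2 + (-1) by ring, Real.rpow_add (by norm_num),
      Real.rpow_neg_one]
    norm_num
  rw [e1, e2, Real.Gamma_add_one (by positivity)]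
  ring

theorem M_two : M 2 = 1 := by
  have h1 : Var[fun x => x; gaussianReal 0 1] = (1 : ℝ≥0) := variance_fun_id_gaussianReal
  have h3 : ∫ x, x ∂(gaussianReal 0 1) = 0 := integral_id_gaussianReal
  rw [variance_eq_integral (by fun_prop)] at h1
  simp only [h3, sub_zero, NNReal.coe_one] at h1
  rw [M, ← h1]
  congr 1
  funext x
  rw [show (2 : ℝ) = ((2 : ℕ) : ℝ) by norm_num, Real.rpow_natCast, sq_abs]

theorem one_lt_M {r : ℝ} (hr : 2 < r) : 1 < M r := by
  set f : ℝ → ℝ := fun x => |x| ^ r - (1 + r / 2 * (|x| ^ (2 : ℝ) - 1)) with hf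
  have habs : ∀ x : ℝ, |x| ^ r = (1 + (|x| ^ (2:ℝ) - 1)) ^ (r / 2) := by
    intro x
    rw [show (1 : ℝ) + (|x| ^ (2:ℝ) - 1) = |x| ^ (2:ℝ) by ring, ← Real.rpow_mul (abs_nonneg _)]
    congr 1; ring
  have hm1 : ∀ x : ℝ, -1 ≤ |x| ^ (2:ℝ) - 1 := by
    intro x
    have : 0 ≤ |x| ^ (2:ℝ) := by positivity
    linarith
  have hf0 : ∀ x, 0 ≤ f x := by
    intro x
    have := one_add_mul_self_le_rpow_one_add (hm1 x) (p := r / 2) (by linarith)
    simp only [hf]
    rw [habs]
    linarith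
  have hint1 : Integrable (fun x : ℝ => |x| ^ r) (gaussianReal 0 1) :=
    integrable_abs_rpow (by linarith)
  have hint2 : Integrable (fun x : ℝ => |x| ^ (2:ℝ)) (gaussianReal 0 1) :=
    integrable_abs_rpow (by norm_num)
  have hint3 : Integrable (fun x : ℝ => (1 + r / 2 * (|x| ^ (2 : ℝ) - 1))) (gaussianReal 0 1) :=
    (integrable_const 1).add ((hint2.sub (integrable_const 1)).const_mul _)
  have hfi : Integrable f (gaussianReal 0 1) := hint1.sub hint3
  have hpos : 0 < ∫ x, f x ∂(gaussianReal 0 1) := by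
    rw [integral_pos_iff_support_of_nonneg hf0 hfi]
    have hsub : Set.Ioi (1 : ℝ) ⊆ Function.support f := by
      intro x hx
      have hx' : (1 : ℝ) < x := hx
      have h1 : |x| ^ (2 : ℝ) - 1 ≠ 0 := by
        rw [show (2 : ℝ) = ((2 : ℕ) : ℝ) by norm_num, Real.rpow_natCast, sq_abs]
        nlinarith
      have := one_add_mul_self_lt_rpow_one_add (hm1 x) h1 (p := r / 2) (by linarith)
      rw [Function.mem_support]
      simp only [hf]
      rw [habs]
      linarith
    refine lt_of_lt_of_le ?_ (measure_mono hsub)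
    have hac : (volume : Measure ℝ) ≪ gaussianReal 0 1 :=
      gaussianReal_absolutelyContinuous' 0 one_ne_zero
    rw [pos_iff_ne_zero]
    intro h0
    have := hac h0
    simp at this
  have hval : ∫ x, f x ∂(gaussianReal 0 1) = M r - 1 := by
    have hint4 : Integrable (fun x : ℝ => r / 2 * (|x| ^ (2 : ℝ) - 1)) (gaussianReal 0 1) :=
      (hint2.sub (integrable_const 1)).const_mul _
    rw [hf, integral_sub hint1 hint3, integral_add (integrable_const 1) hint4, integral_const_mul,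
      integral_sub hint2 (integrable_const 1)]
    have : ∫ x : ℝ, |x| ^ (2:ℝ) ∂(gaussianReal 0 1) = 1 := M_two
    rw [this]
    simp [M]
  rw [hval] at hpos
  linarith

theorem one_add_sq_le_cosh (x : ℝ) : 1 + x ^ 2 / 2 ≤ Real.cosh x := by
  have h1 : Real.cosh x = 1 + 2 * Real.sinh (x / 2) ^ 2 := by
    have := Real.cosh_two_mul (x / 2)
    rw [show 2 * (x / 2) = x by ring, Real.cosh_sq] at this
    linarith
  have h2 : (x / 2) ^ 2 ≤ Real.sinh (x / 2) ^ 2 := by
    rcases le_total 0 (x / 2) with h | h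
    · exact pow_le_pow_left₀ h (Real.self_le_sinh_iff.2 h) 2
    · have h3 := Real.self_le_sinh_iff.2 (neg_nonneg.2 h)
      rw [Real.sinh_neg] at h3
      have h4 := pow_le_pow_left₀ (neg_nonneg.2 h) h3 2
      simpa using h4
  rw [h1]
  nlinarith

theorem integrable_pdf_mul {m : ℝ} {f : ℝ → ℝ} (hf : Integrable f (gaussianReal m 1)) :
    Integrable (fun x => gaussianPDFReal m 1 x * f x) := by
  rw [gaussianReal_of_var_ne_zero _ one_ne_zero,
    integrable_withDensity_iff_integrable_smul' (measurable_gaussianPDF _ _)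
      (ae_of_all _ fun _ ↦ gaussianPDF_lt_top)] at hf
  refine hf.congr (ae_of_all _ fun x => ?_)
  simp only [toReal_gaussianPDF, smul_eq_mul]

theorem pdf_add (m x : ℝ) : Real.exp (-m ^ 2 / 2) * (2 + m ^ 2 * x ^ 2) * gaussianPDFReal 0 1 x ≤
    gaussianPDFReal m 1 x + gaussianPDFReal m 1 (-x) := by
  have h1 := one_add_sq_le_cosh (m * x)
  rw [Real.cosh_eq] at h1
  simp only [gaussianPDFReal, NNReal.coe_one, mul_one, sub_zero]
  have e1 : Real.exp (-(x - m) ^ 2 / 2) =
      Real.exp (-m ^ 2 / 2) * Real.exp (-x ^ 2 / 2) * Real.exp (m * x) := by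
    rw [← Real.exp_add, ← Real.exp_add]; congr 1; ring
  have e2 : Real.exp (-(-x - m) ^ 2 / 2) =
      Real.exp (-m ^ 2 / 2) * Real.exp (-x ^ 2 / 2) * Real.exp (-(m * x)) := by
    rw [← Real.exp_add, ← Real.exp_add]; congr 1; ring
  rw [e1, e2]
  have h2 : 0 ≤ (Real.sqrt (2 * Real.pi))⁻¹ * (Real.exp (-m ^ 2 / 2) * Real.exp (-x ^ 2 / 2)) := by
    positivity
  nlinarith [mul_le_mul_of_nonneg_left h1 h2]

/-- Gaussian shift: lower bound for the moments of `m + γ`. -/
theorem shift_lower {r : ℝ} (hr : 0 < r) (m : ℝ) :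
    Real.exp (-m ^ 2 / 2) * (1 + (r + 1) * m ^ 2 / 2) * M r ≤
      ∫ x, |m + 1 * x| ^ r ∂(gaussianReal 0 1) := by
  have hmap : (gaussianReal 0 1).map (fun x => m + 1 * x) = gaussianReal m 1 := by
    have := map_aff m (s := 1) (by norm_num)
    simpa using this
  have hmeas : Measurable (fun y : ℝ => |y| ^ r) := by fun_prop
  have hint0 : Integrable (fun y : ℝ => |y| ^ r) (gaussianReal m 1) := by
    rw [← hmap, integrable_map_measure hmeas.aestronglyMeasurable (by fun_prop)]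
    exact integrable_abs_rpow_aff hr m 1
  have e1 : ∫ x, |m + 1 * x| ^ r ∂(gaussianReal 0 1) =
      ∫ y, gaussianPDFReal m 1 y * |y| ^ r := by
    have h1 := integral_map (μ := gaussianReal 0 1) (φ := fun x => m + 1 * x)
      (f := fun y : ℝ => |y| ^ r) (by fun_prop) hmeas.aestronglyMeasurable
    rw [← h1, hmap, integral_gaussianReal_eq_integral_smul one_ne_zero]
    rfl
  have hG := integrable_pdf_mul hint0
  have e2 : ∫ y, gaussianPDFReal m 1 y * |y| ^ r =
      (1 / 2) * ∫ y, (gaussianPDFReal m 1 y + gaussianPDFReal m 1 (-y)) * |y| ^ r := by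
    have hG' := hG.comp_neg
    have h1 : ∫ y, gaussianPDFReal m 1 (-y) * |-y| ^ r = ∫ y, gaussianPDFReal m 1 y * |y| ^ r :=
      integral_neg_eq_self (fun y => gaussianPDFReal m 1 y * |y| ^ r) volume
    have h2 : (fun y => (gaussianPDFReal m 1 y + gaussianPDFReal m 1 (-y)) * |y| ^ r) =
        fun y => gaussianPDFReal m 1 y * |y| ^ r + gaussianPDFReal m 1 (-y) * |-y| ^ r := by
      funext y
      rw [abs_neg]; ring
    rw [h2, integral_add hG hG', h1]
    ring
  have hG2 : Integrable (fun y => (gaussianPDFReal m 1 y + gaussianPDFReal m 1 (-y)) * |y| ^ r) := by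
    have h2 : (fun y => (gaussianPDFReal m 1 y + gaussianPDFReal m 1 (-y)) * |y| ^ r) =
        fun y => gaussianPDFReal m 1 y * |y| ^ r + gaussianPDFReal m 1 (-y) * |-y| ^ r := by
      funext y
      rw [abs_neg]; ring
    rw [h2]
    exact hG.add hG.comp_neg
  have hA := integrable_pdf_mul (integrable_abs_rpow hr)
  have hB := integrable_pdf_mul (integrable_abs_rpow (by linarith : 0 < r + 2))
  have eM1 : M r = ∫ y, gaussianPDFReal 0 1 y * |y| ^ r := by
    rw [M, integral_gaussianReal_eq_integral_smul one_ne_zero]; rfl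
  have eM2 : M (r + 2) = ∫ y, gaussianPDFReal 0 1 y * |y| ^ (r + 2) := by
    rw [M, integral_gaussianReal_eq_integral_smul one_ne_zero]; rfl
  have h3 : ∫ y, (Real.exp (-m ^ 2 / 2) * 2) * (gaussianPDFReal 0 1 y * |y| ^ r) +
      (Real.exp (-m ^ 2 / 2) * m ^ 2) * (gaussianPDFReal 0 1 y * |y| ^ (r + 2)) ≤
      ∫ y, (gaussianPDFReal m 1 y + gaussianPDFReal m 1 (-y)) * |y| ^ r := by
    refine integral_mono ((hA.const_mul _).add (hB.const_mul _)) hG2 (fun y => ?_)
    have h4 := pdf_add m y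
    have h5 : |y| ^ (r + 2) = |y| ^ r * y ^ 2 := by
      rw [Real.rpow_add_of_nonneg (abs_nonneg _) hr.le (by norm_num)]
      congr 1
      rw [show (2 : ℝ) = ((2 : ℕ) : ℝ) by norm_num, Real.rpow_natCast, sq_abs]
    have h6 : 0 ≤ |y| ^ r := by positivity
    have h7 := mul_le_mul_of_nonneg_right h4 h6
    simp only
    rw [h5]
    refine le_trans (le_of_eq ?_) h7
    ring
  rw [integral_add (hA.const_mul _) (hB.const_mul _), integral_const_mul, integral_const_mul,
    ← eM1, ← eM2, M_add_two hr] at h3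
  rw [e1, e2]
  nlinarith

/-- a one-variable inequality -/
theorem exists_t {r c : ℝ} (hr : 2 < r) (hc : 1 < c) :
    ∃ m : ℝ, (1 + m ^ 2 / c ^ 2) ^ (r / 2) < Real.exp (-m ^ 2 / 2) * (1 + (r + 1) * m ^ 2 / 2) := by
  have hc2 : 1 < c ^ 2 := by nlinarith
  set f : ℝ → ℝ := fun t => Real.exp (-t / 2) * (1 + (r + 1) * t / 2) - (1 + t / c ^ 2) ^ (r / 2)
    with hf
  have hd : HasDerivAt f (r / 2 * (1 - 1 / c ^ 2)) 0 := by
    have h1 : HasDerivAt (fun t : ℝ => Real.exp (-t / 2)) (-1 / 2) 0 := by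
      have h : HasDerivAt (fun t : ℝ => Real.exp (-t / 2)) (Real.exp (-(0:ℝ) / 2) * (-1 / 2)) 0 :=
        ((hasDerivAt_id' (0:ℝ)).fun_neg.div_const 2).exp
      refine h.congr_deriv ?_
      rw [neg_zero, zero_div, Real.exp_zero, one_mul]
    have h2 : HasDerivAt (fun t : ℝ => 1 + (r + 1) * t / 2) ((r + 1) / 2) 0 := by
      have h : HasDerivAt (fun t : ℝ => 1 + (r + 1) * t / 2) ((r + 1) * 1 / 2) 0 :=
        (((hasDerivAt_id' (0:ℝ)).const_mul (r + 1)).div_const 2).const_add 1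
      refine h.congr_deriv ?_
      rw [mul_one]
    have h3 : HasDerivAt (fun t : ℝ => (1 + t / c ^ 2) ^ (r / 2)) (r / 2 * (1 / c ^ 2)) 0 := by
      have h : HasDerivAt (fun t : ℝ => (1 + t / c ^ 2) ^ (r / 2))
          (1 / c ^ 2 * (r / 2) * (1 + (0:ℝ) / c ^ 2) ^ (r / 2 - 1)) 0 :=
        (((hasDerivAt_id' (0:ℝ)).div_const (c ^ 2)).const_add 1).rpow_const
        (p := r / 2) (Or.inl (by simp))
      refine h.congr_deriv ?_
      rw [zero_div, add_zero, Real.one_rpow, mul_one]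
      ring
    have h4 : HasDerivAt f (-1 / 2 * (1 + (r + 1) * 0 / 2) + Real.exp (-(0:ℝ) / 2) * ((r + 1) / 2) -
      r / 2 * (1 / c ^ 2)) 0 := (h1.mul h2).sub h3
    refine h4.congr_deriv ?_
    rw [neg_zero, zero_div, Real.exp_zero]
    ring
  have hf0 : f 0 = 0 := by simp [hf]
  have hpos : 0 < r / 2 * (1 - 1 / c ^ 2) := by
    have : 1 / c ^ 2 < 1 := by
      rw [div_lt_one (by positivity)]; exact hc2
    have h2 : 0 < 1 - 1 / c ^ 2 := by linarith
    positivity
  have hs := hasDerivAt_iff_tendsto_slope.1 hd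
  have hs2 : ∀ᶠ t in 𝓝[≠] (0:ℝ), 0 < slope f 0 t := hs.eventually (lt_mem_nhds hpos)
  have hs3 : ∀ᶠ t in 𝓝[>] (0:ℝ), 0 < slope f 0 t :=
    hs2.filter_mono (nhdsWithin_mono _ (fun x (hx : 0 < x) => hx.ne'))
  obtain ⟨t, ht1, ht2⟩ := (hs3.and self_mem_nhdsWithin).exists
  have ht2' : 0 < t := ht2
  rw [slope_def_field, hf0, sub_zero, sub_zero] at ht1
  have h5 : 0 < f t := by
    have := mul_pos ht1 ht2'
    rwa [div_mul_cancel₀ _ ht2'.ne'] at this
  refine ⟨Real.sqrt t, ?_⟩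
  rw [Real.sq_sqrt ht2'.le]
  simp only [hf] at h5
  linarith

end Pool.Agent.W5h45.WM
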