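import Pool.Agent.W5h45.WM3

open Filter Topology MeasureTheory ProbabilityTheory
open scoped ENNReal NNReal

namespace Pool.Agent.W5h45.WM

theorem N_nonneg (r : ℝ≥0∞) (m σ : ℝ) : 0 ≤ N r m σ := ENNReal.toReal_nonneg

theorem N_eq {r : ℝ≥0∞} (h0 : r ≠ 0) (hr : r ≠ ∞) (m σ : ℝ) :
    N r m σ = (∫ x, |m + σ * x| ^ r.toReal ∂(gaussianReal 0 1)) ^ (r.toReal⁻¹) := by
  rw [N, (memLp_aff r hr m σ).eLpNorm_eq_integral_rpow_norm h0 hr, ENNReal.toReal_ofReal]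
  · rfl
  · exact Real.rpow_nonneg (integral_nonneg (fun x => by positivity)) _

theorem N_smul (r : ℝ≥0∞) (t m σ : ℝ) : N r (t * m) (t * σ) = |t| * N r m σ := by
  have h1 : (fun x : ℝ => t * m + t * σ * x) = t • (fun x : ℝ => m + σ * x) := by
    funext x
    simp only [Pi.smul_apply, smul_eq_mul]
    ring
  rw [N, h1, eLpNorm_const_smul, ENNReal.toReal_mul, N]
  simp

theorem N_zero_right {r : ℝ≥0∞} (h0 : r ≠ 0) (hr : r ≠ ∞) (m : ℝ) : N r m 0 = |m| := by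
  rw [N_eq h0 hr]
  simp only [zero_mul, add_zero, integral_const, probReal_univ, smul_eq_mul, one_mul]
  rw [← Real.rpow_mul (abs_nonneg _), mul_inv_cancel₀, Real.rpow_one]
  exact (ENNReal.toReal_pos h0 hr).ne'

theorem N_zero_left (r : ℝ≥0∞) (σ : ℝ) : N r 0 σ = |σ| * N r 0 1 := by
  have := N_smul r σ 0 1
  simpa using this

theorem N_continuous (r : ℝ≥0∞) [Fact (1 ≤ r)] (hr : r ≠ ∞) :
    Continuous (fun p : ℝ × ℝ => N r p.1 p.2) := by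
  have h1 : MemLp (fun _ : ℝ => (1 : ℝ)) r (gaussianReal 0 1) := memLp_const 1
  have h2 : MemLp (fun x : ℝ => x) r (gaussianReal 0 1) := memLp_id_gaussianReal' r hr
  have h3 : (fun p : ℝ × ℝ => N r p.1 p.2) = fun p : ℝ × ℝ => ‖p.1 • h1.toLp + p.2 • h2.toLp‖ := by
    funext p
    have e : p.1 • h1.toLp + p.2 • h2.toLp =
        ((h1.const_smul p.1).add (h2.const_smul p.2)).toLp := rfl
    rw [e, Lp.norm_toLp, N]
    congr 2
    funext x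
    simp
  rw [h3]
  fun_prop

theorem N_continuous' (r : ℝ≥0∞) [Fact (1 ≤ r)] (hr : r ≠ ∞) (c : ℝ) :
    Continuous (fun p : ℝ × ℝ => N r (p.1 * c) p.2) := by
  have h : Continuous (fun p : ℝ × ℝ => ((p.1 * c, p.2) : ℝ × ℝ)) := by fun_prop
  have h2 : Continuous ((fun p : ℝ × ℝ => N r p.1 p.2) ∘ (fun p : ℝ × ℝ => ((p.1 * c, p.2) : ℝ × ℝ))) :=
    Continuous.comp (N_continuous r hr) h
  have h3 : (fun p : ℝ × ℝ => N r (p.1 * c) p.2) =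
    ((fun p : ℝ × ℝ => N r p.1 p.2) ∘ (fun p : ℝ × ℝ => ((p.1 * c, p.2) : ℝ × ℝ))) := by
    funext p
    rw [Function.comp_apply]
  rw [h3]
  exact h2

theorem circ_compact : IsCompact {p : ℝ × ℝ | 0 ≤ p.2 ∧ p.1 ^ 2 + p.2 ^ 2 = 1} := by
  have hcl : IsClosed {p : ℝ × ℝ | 0 ≤ p.2 ∧ p.1 ^ 2 + p.2 ^ 2 = 1} := by
    apply IsClosed.inter
    · exact isClosed_le continuous_const continuous_snd
    · exact isClosed_eq (by fun_prop) continuous_const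
  have hbd : {p : ℝ × ℝ | 0 ≤ p.2 ∧ p.1 ^ 2 + p.2 ^ 2 = 1} ⊆
      Set.Icc (-1 : ℝ) 1 ×ˢ Set.Icc (-1 : ℝ) 1 := by
    intro p hp
    obtain ⟨h1, h2⟩ := hp
    rw [Set.mem_prod, Set.mem_Icc, Set.mem_Icc]
    have h3 : p.1 ^ 2 ≤ 1 := by nlinarith [sq_nonneg p.2]
    have h4 : p.2 ^ 2 ≤ 1 := by nlinarith [sq_nonneg p.1]
    have h5 := abs_le.1 ((sq_le_one_iff_abs_le_one _).1 h3)
    have h6 := abs_le.1 ((sq_le_one_iff_abs_le_one _).1 h4)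
    exact ⟨h5, h6⟩
  exact (isCompact_Icc.prod isCompact_Icc).of_isClosed_subset hcl hbd

theorem circ_ne : {p : ℝ × ℝ | 0 ≤ p.2 ∧ p.1 ^ 2 + p.2 ^ 2 = 1}.Nonempty := ⟨(1, 0), by simp⟩

theorem exists_max0 (f : ℝ × ℝ → ℝ) (hf : Continuous f) :
    ∃ p : ℝ × ℝ, 0 ≤ p.2 ∧ p.1 ^ 2 + p.2 ^ 2 = 1 ∧
      ∀ q : ℝ × ℝ, 0 ≤ q.2 → q.1 ^ 2 + q.2 ^ 2 = 1 → f q ≤ f p := by
  have h := circ_compact.exists_isMaxOn circ_ne hf.continuousOn
  obtain ⟨p, hp, hmax⟩ := h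
  have hmax2 := isMaxOn_iff.1 hmax
  exact ⟨p, hp.1, hp.2, fun q h3 h4 => hmax2 q ⟨h3, h4⟩⟩

theorem exists_max1 (r : ℝ≥0∞) [Fact (1 ≤ r)] (hr : r ≠ ∞) (c : ℝ) :
    ∃ p : ℝ × ℝ, 0 ≤ p.2 ∧ p.1 ^ 2 + p.2 ^ 2 = 1 ∧
      ∀ q : ℝ × ℝ, 0 ≤ q.2 → q.1 ^ 2 + q.2 ^ 2 = 1 → N r (q.1 * c) q.2 ≤ N r (p.1 * c) p.2 :=
  exists_max0 (fun p : ℝ × ℝ => N r (p.1 * c) p.2) (N_continuous' r hr c)

theorem exists_max (r : ℝ≥0∞) [Fact (1 ≤ r)] (hr : r ≠ ∞) (c : ℝ) :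
    ∃ K a σ : ℝ, 0 ≤ σ ∧ a ^ 2 + σ ^ 2 = 1 ∧ N r (a * c) σ = K ∧
      ∀ a' σ' : ℝ, 0 ≤ σ' → N r (a' * c) σ' ≤ K * Real.sqrt (a' ^ 2 + σ' ^ 2) := by
  obtain ⟨p, h1, h2, hmax⟩ := exists_max1 r hr c
  refine ⟨N r (p.1 * c) p.2, p.1, p.2, h1, h2, rfl, ?_⟩
  intro a' σ' hσ'
  have hρ2 : Real.sqrt (a' ^ 2 + σ' ^ 2) ^ 2 = a' ^ 2 + σ' ^ 2 := Real.sq_sqrt (by positivity)
  generalize hρ : Real.sqrt (a' ^ 2 + σ' ^ 2) = ρ at hρ2 ⊢
  have hρ0 : 0 ≤ ρ := by rw [← hρ]; exact Real.sqrt_nonneg _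
  rcases eq_or_ne ρ 0 with h0 | h0
  · have h3 : a' ^ 2 + σ' ^ 2 = 0 := by rw [← hρ2, h0]; norm_num
    have h4 : a' = 0 := by
      have : a' ^ 2 = 0 := by nlinarith [sq_nonneg a', sq_nonneg σ']
      exact pow_eq_zero_iff (two_ne_zero) |>.1 this
    have h5 : σ' = 0 := by
      have : σ' ^ 2 = 0 := by nlinarith [sq_nonneg a', sq_nonneg σ']
      exact pow_eq_zero_iff (two_ne_zero) |>.1 this
    rw [h4, h5, h0, mul_zero, zero_mul]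
    have := N_smul r 0 0 0
    simp only [mul_zero, abs_zero, zero_mul] at this
    rw [this]
  have hρpos : 0 < ρ := lt_of_le_of_ne hρ0 (Ne.symm h0)
  have h3 : (a' / ρ) ^ 2 + (σ' / ρ) ^ 2 = 1 := by
    rw [div_pow, div_pow, ← add_div, ← hρ2, div_self (by positivity)]
  have h4 : N r (a' / ρ * c) (σ' / ρ) ≤ N r (p.1 * c) p.2 :=
    hmax (a' / ρ, σ' / ρ) (div_nonneg hσ' hρpos.le) h3
  have h5 : N r (a' * c) σ' = ρ * N r (a' / ρ * c) (σ' / ρ) := by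
    have h6 := N_smul r ρ (a' / ρ * c) (σ' / ρ)
    rw [abs_of_pos hρpos] at h6
    have e1 : ρ * (a' / ρ * c) = a' * c := by field_simp
    have e2 : ρ * (σ' / ρ) = σ' := by field_simp
    rw [← h6, e1, e2]
  rw [h5, mul_comm]
  exact mul_le_mul_of_nonneg_right h4 hρpos.le

theorem B_eq {r : ℝ≥0∞} (h0 : r ≠ 0) (hr : r ≠ ∞) : N r 0 1 = (M r.toReal) ^ (r.toReal⁻¹) := by
  rw [N_eq h0 hr, M]
  simp

theorem B_two : N 2 0 1 = 1 := by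
  rw [B_eq (by norm_num) (by norm_num)]
  simp [M_two]

theorem N_two (m σ : ℝ) : N 2 m σ = Real.sqrt (m ^ 2 + σ ^ 2) := by
  rw [N_eq (by norm_num) (by norm_num)]
  have h1 : Integrable (fun x : ℝ => x) (gaussianReal 0 1) := by
    have := memLp_id_gaussianReal' (μ := 0) (v := 1) 1 (by norm_num)
    exact memLp_one_iff_integrable.1 this
  have h2 : Integrable (fun x : ℝ => |x| ^ (2:ℝ)) (gaussianReal 0 1) :=
    integrable_abs_rpow (by norm_num)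
  have h3 : ∫ x, x ∂(gaussianReal 0 1) = 0 := integral_id_gaussianReal
  have e2 : (2 : ℝ≥0∞).toReal = 2 := by simp
  have hsq : ∀ y : ℝ, |y| ^ (2:ℝ) = y ^ 2 := fun y => by
    rw [show (2 : ℝ) = ((2 : ℕ) : ℝ) by norm_num, Real.rpow_natCast, sq_abs]
  rw [e2]
  have h4 : ∫ x, |m + σ * x| ^ (2:ℝ) ∂(gaussianReal 0 1) = m ^ 2 + σ ^ 2 := by
    have e3 : (fun x : ℝ => |m + σ * x| ^ (2:ℝ)) =
        fun x => (m ^ 2 + (2 * m * σ) * x) + σ ^ 2 * |x| ^ (2:ℝ) := by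
      funext x
      rw [hsq, hsq]; ring
    have i1 : Integrable (fun x : ℝ => (2 * m * σ) * x) (gaussianReal 0 1) := h1.const_mul _
    have i2 : Integrable (fun x : ℝ => m ^ 2 + (2 * m * σ) * x) (gaussianReal 0 1) :=
      (integrable_const _).add i1
    have i3 : Integrable (fun x : ℝ => σ ^ 2 * |x| ^ (2:ℝ)) (gaussianReal 0 1) := h2.const_mul _
    rw [e3, integral_add i2 i3, integral_add (integrable_const _) i1, integral_const_mul,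
      integral_const_mul, h3]
    have h5 : ∫ x : ℝ, |x| ^ (2:ℝ) ∂(gaussianReal 0 1) = 1 := M_two
    rw [h5]
    simp
  rw [h4, Real.sqrt_eq_rpow]
  norm_num

theorem one_lt_B {r : ℝ≥0∞} (h2 : 2 < r) (hr : r ≠ ∞) : 1 < N r 0 1 := by
  have h0 : r ≠ 0 := (lt_trans (by norm_num) h2).ne'
  have h2' : 2 < r.toReal := by
    have := (ENNReal.toReal_lt_toReal (by norm_num) hr).2 h2
    simpa using this
  rw [B_eq h0 hr]
  exact Real.one_lt_rpow (one_lt_M h2') (by positivity)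

/-- the key strict inequality -/
theorem exists_K {r : ℝ≥0∞} (h2 : 2 < r) (hr : r ≠ ∞) :
    ∃ K a σ : ℝ, N r 0 1 < K ∧ a ≠ 0 ∧ 0 ≤ σ ∧ a ^ 2 + σ ^ 2 = 1 ∧
      N r (a * N r 0 1) σ = K ∧
      ∀ a' σ' : ℝ, 0 ≤ σ' → N r (a' * N r 0 1) σ' ≤ K * Real.sqrt (a' ^ 2 + σ' ^ 2) := by
  have h0 : r ≠ 0 := (lt_trans (by norm_num) h2).ne'
  have : Fact (1 ≤ r) := ⟨(lt_trans (by norm_num) h2).le⟩
  have h2' : 2 < r.toReal := by
    have := (ENNReal.toReal_lt_toReal (by norm_num) hr).2 h2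
    simpa using this
  have hB := one_lt_B h2 hr
  set B := N r 0 1 with hBdef
  obtain ⟨K, a, σ, hσ, haσ, hK, hmax⟩ := exists_max r hr B
  have hKB : B < K := by
    obtain ⟨m, hm⟩ := exists_t h2' hB
    have h3 := shift_lower (by linarith : 0 < r.toReal) m
    have hM : 0 < M r.toReal := lt_trans one_pos (one_lt_M h2')
    have h4 : (1 + m ^ 2 / B ^ 2) ^ (r.toReal / 2) * M r.toReal <
        ∫ x, |m + 1 * x| ^ r.toReal ∂(gaussianReal 0 1) :=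
      lt_of_lt_of_le (mul_lt_mul_of_pos_right hm hM) h3
    have h5 : Real.sqrt (1 + m ^ 2 / B ^ 2) * B < N r m 1 := by
      rw [N_eq h0 hr]
      have h6 : Real.sqrt (1 + m ^ 2 / B ^ 2) * B =
          ((1 + m ^ 2 / B ^ 2) ^ (r.toReal / 2) * M r.toReal) ^ (r.toReal⁻¹) := by
        rw [Real.mul_rpow (by positivity) hM.le, ← Real.rpow_mul (by positivity), hBdef,
          B_eq h0 hr, Real.sqrt_eq_rpow]
        congr 2
        field_simp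
      rw [h6]
      exact Real.rpow_lt_rpow (by positivity) h4 (by positivity)
    have h7 := hmax (m / B) 1 (by norm_num)
    rw [div_mul_cancel₀ _ (by positivity)] at h7
    have h8 : (m / B) ^ 2 + 1 ^ 2 = 1 + m ^ 2 / B ^ 2 := by rw [div_pow]; ring
    rw [h8] at h7
    have h9 : 0 < Real.sqrt (1 + m ^ 2 / B ^ 2) := Real.sqrt_pos.2 (by positivity)
    by_contra hle
    push Not at hle
    nlinarith
  refine ⟨K, a, σ, hKB, ?_, hσ, haσ, hK, hmax⟩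
  rintro rfl
  have h10 : σ = 1 := by nlinarith
  rw [h10, zero_mul] at hK
  rw [← hK] at hKB
  exact lt_irrefl _ hKB

end Pool.Agent.W5h45.WM
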