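import Pool.Agent.W5h45.WM4
import Pool.Agent.W5h45.WM1

open Filter Topology MeasureTheory ProbabilityTheory
open scoped ENNReal NNReal

namespace Pool.Agent.W5h45.WM

section
variable {𝕜 : Type*} [RCLike 𝕜] {Ω : Type*} [MeasurableSpace Ω] {μ : Measure Ω}

theorem eLpNorm_half_sq {G : Type*} [NormedAddCommGroup G] (r : ℝ≥0∞) (g : Ω → G) :
    eLpNorm (fun x => ‖g x‖ ^ (2:ℝ)) (r / 2) μ = eLpNorm g r μ ^ (2:ℝ) := by
  have hr2 : r / 2 * ENNReal.ofReal 2 = r := by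
    rw [show ENNReal.ofReal 2 = 2 by simp]
    exact ENNReal.div_mul_cancel (by norm_num) (by norm_num)
  rw [eLpNorm_norm_rpow g (by norm_num), hr2]

/-- splitting a scalar function into real and imaginary part, `r ≥ 2` -/
theorem eLpNorm_re_im {r : ℝ≥0∞} (h2 : 2 ≤ r) {f : Ω → 𝕜} (hf : MemLp f r μ) :
    (eLpNorm f r μ).toReal ^ 2 ≤ (eLpNorm (fun ω => RCLike.re (f ω)) r μ).toReal ^ 2 +
      (eLpNorm (fun ω => RCLike.im (f ω)) r μ).toReal ^ 2 := by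
  have hre := hf.re
  have him := hf.im
  have h3 : (fun x => ‖f x‖ ^ (2:ℝ)) =
      (fun x => ‖RCLike.re (f x)‖ ^ (2:ℝ)) + (fun x => ‖RCLike.im (f x)‖ ^ (2:ℝ)) := by
    funext x
    simp only [Pi.add_apply]
    have e : ∀ y : ℝ, y ^ (2:ℝ) = y ^ 2 := fun y => by
      rw [show (2 : ℝ) = ((2 : ℕ) : ℝ) by norm_num, Real.rpow_natCast]
    rw [e, e, e, RCLike.norm_sq_eq_def, Real.norm_eq_abs, Real.norm_eq_abs, sq_abs, sq_abs]
    ring
  have h4 : eLpNorm f r μ ^ (2:ℝ) ≤ eLpNorm (fun ω => RCLike.re (f ω)) r μ ^ (2:ℝ) +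
      eLpNorm (fun ω => RCLike.im (f ω)) r μ ^ (2:ℝ) := by
    rw [← eLpNorm_half_sq r f, ← eLpNorm_half_sq r (fun ω => RCLike.re (f ω)),
      ← eLpNorm_half_sq r (fun ω => RCLike.im (f ω)), h3]
    refine eLpNorm_add_le ?_ ?_ ?_
    · exact (hre.1.norm.aemeasurable.pow_const _).aestronglyMeasurable
    · exact (him.1.norm.aemeasurable.pow_const _).aestronglyMeasurable
    · rw [ENNReal.le_div_iff_mul_le (by norm_num) (by norm_num)]
      simpa using h2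
  have e2 : ∀ a : ℝ≥0∞, (a ^ (2:ℝ)).toReal = a.toReal ^ 2 := fun a => by
    rw [← ENNReal.toReal_rpow, show (2 : ℝ) = ((2 : ℕ) : ℝ) by norm_num, Real.rpow_natCast]
  have ha : eLpNorm (fun ω => RCLike.re (f ω)) r μ ^ (2:ℝ) ≠ ∞ :=
    ENNReal.rpow_ne_top_of_nonneg (by norm_num) hre.2.ne
  have hb : eLpNorm (fun ω => RCLike.im (f ω)) r μ ^ (2:ℝ) ≠ ∞ :=
    ENNReal.rpow_ne_top_of_nonneg (by norm_num) him.2.ne
  have h5 := ENNReal.toReal_mono (ENNReal.add_ne_top.2 ⟨ha, hb⟩) h4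
  rw [ENNReal.toReal_add ha hb, e2, e2, e2] at h5
  exact h5

/-- a sequence of real functions satisfying an upper 2-estimate in `L_r` -/
structure Sys (r : ℝ≥0∞) (μ : Measure Ω) (h : ℕ → Ω → ℝ) (K : ℝ) : Prop where
  mem : ∀ n, MemLp (h n) r μ
  bound : ∀ (F : Finset ℕ) (z : ℕ → ℝ),
    (eLpNorm (fun ω => ∑ n ∈ F, z n * h n ω) r μ).toReal ≤ K * Real.sqrt (∑ n ∈ F, z n ^ 2)

/-- the element of `L_r(𝕜)` given by a real function -/
noncomputable def toE (𝕜 : Type*) [RCLike 𝕜] {r : ℝ≥0∞} {f : Ω → ℝ} (hf : MemLp f r μ) :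
    Lp 𝕜 r μ := (hf.ofReal (K := 𝕜)).toLp

theorem sum_toE {r : ℝ≥0∞} {h : ℕ → Ω → ℝ} (hm : ∀ n, MemLp (h n) r μ) (F : Finset ℕ)
    (z : ℕ → 𝕜) : ∃ hh : MemLp (fun ω => ∑ n ∈ F, z n * (h n ω : 𝕜)) r μ,
      ∑ n ∈ F, z n • toE 𝕜 (hm n) = hh.toLp := by
  classical
  induction F using Finset.induction_on with
  | empty =>
    simp only [Finset.sum_empty]
    exact ⟨MemLp.zero, rfl⟩
  | insert a s ha ih =>
    obtain ⟨h1, h2⟩ := ih
    have h3 : MemLp (fun ω => z a * (h a ω : 𝕜)) r μ := (hm a).ofReal.const_mul (z a)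
    have h4 : (fun ω => ∑ n ∈ insert a s, z n * (h n ω : 𝕜)) =
        (fun ω => z a * (h a ω : 𝕜)) + (fun ω => ∑ n ∈ s, z n * (h n ω : 𝕜)) := by
      funext ω
      rw [Finset.sum_insert ha]
      rfl
    rw [h4]
    refine ⟨h3.add h1, ?_⟩
    rw [Finset.sum_insert ha, h2]
    rfl

theorem Sys.boundC {r : ℝ≥0∞} (h2 : 2 ≤ r) {h : ℕ → Ω → ℝ} {K : ℝ} (hK : 0 ≤ K)
    (hS : Sys r μ h K) (F : Finset ℕ) (z : ℕ → 𝕜) :
    ‖∑ n ∈ F, z n • toE 𝕜 (hS.mem n)‖ ≤ K * Real.sqrt (∑ n ∈ F, ‖z n‖ ^ 2) := by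
  obtain ⟨h1, h3⟩ := sum_toE (𝕜 := 𝕜) hS.mem F z
  rw [h3, Lp.norm_toLp]
  have h4 := eLpNorm_re_im h2 h1
  have hre : (fun ω => RCLike.re (∑ n ∈ F, z n * (h n ω : 𝕜))) =
      fun ω => ∑ n ∈ F, RCLike.re (z n) * h n ω := by
    funext ω
    rw [map_sum]
    refine Finset.sum_congr rfl (fun n _ => ?_)
    rw [RCLike.re_mul_ofReal]
  have him : (fun ω => RCLike.im (∑ n ∈ F, z n * (h n ω : 𝕜))) =
      fun ω => ∑ n ∈ F, RCLike.im (z n) * h n ω := by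
    funext ω
    rw [map_sum]
    refine Finset.sum_congr rfl (fun n _ => ?_)
    rw [RCLike.im_mul_ofReal]
  rw [hre, him] at h4
  have h5 := hS.bound F (fun n => RCLike.re (z n))
  have h6 := hS.bound F (fun n => RCLike.im (z n))
  have h7 := pow_le_pow_left₀ ENNReal.toReal_nonneg h5 2
  have h8 := pow_le_pow_left₀ ENNReal.toReal_nonneg h6 2
  rw [mul_pow, Real.sq_sqrt (Finset.sum_nonneg (fun n _ => sq_nonneg _))] at h7 h8
  have h9 : ∑ n ∈ F, ‖z n‖ ^ 2 = ∑ n ∈ F, RCLike.re (z n) ^ 2 + ∑ n ∈ F, RCLike.im (z n) ^ 2 := by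
    rw [← Finset.sum_add_distrib]
    refine Finset.sum_congr rfl (fun n _ => ?_)
    rw [RCLike.norm_sq_eq_def]
    ring
  have h10 : (K * Real.sqrt (∑ n ∈ F, ‖z n‖ ^ 2)) ^ 2 = K ^ 2 * ∑ n ∈ F, ‖z n‖ ^ 2 := by
    rw [mul_pow, Real.sq_sqrt (Finset.sum_nonneg (fun n _ => by positivity))]
  refine (pow_le_pow_iff_left₀ ENNReal.toReal_nonneg (by positivity) two_ne_zero).1 ?_
  rw [h10, h9]
  nlinarith

theorem mul_abs_rpow {ρ : ℝ} (hρ : 1 < ρ) (y : ℝ) : |y * |y| ^ (ρ - 2)| = |y| ^ (ρ - 1) := by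
  rcases eq_or_ne y 0 with rfl | hy
  · rw [abs_zero, zero_mul, abs_zero, Real.zero_rpow (by linarith)]
  · have h1 : 0 < |y| := abs_pos.2 hy
    rw [abs_mul, abs_of_nonneg (by positivity : 0 ≤ |y| ^ (ρ - 2)),
      show ρ - 1 = 1 + (ρ - 2) by ring, Real.rpow_add h1, Real.rpow_one]

theorem mul_mul_abs_rpow {ρ : ℝ} (hρ : 1 < ρ) (y : ℝ) : (y * |y| ^ (ρ - 2)) * y = |y| ^ ρ := by
  rcases eq_or_ne y 0 with rfl | hy
  · rw [abs_zero, zero_mul, zero_mul, Real.zero_rpow (by linarith)]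
  · have h1 : 0 < |y| := abs_pos.2 hy
    have h2 : |y| ^ ρ = |y| ^ 2 * |y| ^ (ρ - 2) := by
      rw [← Real.rpow_natCast, ← Real.rpow_add h1]
      congr 1
      push_cast
      ring
    rw [h2, sq_abs]
    ring

/-- The norming function. -/
theorem exists_norming {p r : ℝ≥0∞} [Fact (1 ≤ p)] [Fact (1 ≤ r)] [p.HolderConjugate r]
    (hr1 : 1 < r) (hr : r ≠ ∞) (hp : p ≠ ∞) {f : Ω → ℝ} (hf : MemLp f r μ)
    (hpos : 0 < (eLpNorm f r μ).toReal) :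
    ∃ x : Lp 𝕜 p μ, ‖x‖ = 1 ∧
      (ContinuousLinearMap.mul 𝕜 𝕜).lpPairing μ p r x (toE 𝕜 hf) =
        (((eLpNorm f r μ).toReal : ℝ) : 𝕜) := by
  have hr0 : r ≠ 0 := (lt_trans zero_lt_one hr1).ne'
  have hρ : 1 < r.toReal := by
    have := (ENNReal.toReal_lt_toReal (by norm_num) hr).2 hr1
    simpa using this
  have hconj : p.toReal.HolderConjugate r.toReal := ENNReal.HolderConjugate.toReal_of_ne_top hp hr
  set ρ := r.toReal with hρdef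
  set K := (eLpNorm f r μ).toReal with hKdef
  have hKpow : K ^ ρ = ∫ ω, |f ω| ^ ρ ∂μ := by
    have h1 : K = (∫ ω, |f ω| ^ ρ ∂μ) ^ (ρ⁻¹) := by
      rw [hKdef, hf.eLpNorm_eq_integral_rpow_norm hr0 hr, ENNReal.toReal_ofReal]
      · rfl
      · exact Real.rpow_nonneg (integral_nonneg (fun x => by positivity)) _
    rw [h1, ← Real.rpow_mul (integral_nonneg (fun x => by positivity)),
      inv_mul_cancel₀ (by linarith), Real.rpow_one]
  have hpr : p * ENNReal.ofReal (ρ - 1) = r := by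
    rw [← ENNReal.ofReal_toReal hp, ← ENNReal.ofReal_mul ENNReal.toReal_nonneg,
      ← ENNReal.ofReal_toReal hr]
    congr 1
    rw [← hρdef]
    have h3 := hconj.symm.sub_one_mul_conj
    linarith
  have hG : ∀ ω, ‖f ω * |f ω| ^ (ρ - 2)‖ = ‖‖f ω‖ ^ (ρ - 1)‖ := by
    intro ω
    rw [Real.norm_eq_abs, mul_abs_rpow hρ, Real.norm_eq_abs, Real.norm_eq_abs,
      abs_of_nonneg (by positivity : 0 ≤ |f ω| ^ (ρ - 1))]
  have hFnorm : eLpNorm (fun ω => f ω * |f ω| ^ (ρ - 2)) p μ = eLpNorm f r μ ^ (ρ - 1) := by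
    rw [← hpr, ← eLpNorm_norm_rpow f (by linarith : 0 < ρ - 1)]
    exact eLpNorm_congr_norm_ae (ae_of_all _ hG)
  have hFm : AEStronglyMeasurable (fun ω => f ω * |f ω| ^ (ρ - 2)) μ := by
    have h1 : AEMeasurable f μ := hf.1.aemeasurable
    have h2 : Measurable (fun y : ℝ => y * |y| ^ (ρ - 2)) := by fun_prop
    exact (h2.comp_aemeasurable h1).aestronglyMeasurable
  have hF : MemLp (fun ω => f ω * |f ω| ^ (ρ - 2)) p μ := by
    refine ⟨hFm, ?_⟩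
    rw [hFnorm]
    exact ENNReal.rpow_lt_top_of_nonneg (by linarith) hf.2.ne
  have hX : MemLp (fun ω => (K ^ (ρ - 1))⁻¹ * (f ω * |f ω| ^ (ρ - 2))) p μ := hF.const_mul _
  refine ⟨toE 𝕜 hX, ?_, ?_⟩
  · rw [toE, Lp.norm_toLp]
    have h1 : eLpNorm (fun ω => ((((K ^ (ρ - 1))⁻¹ * (f ω * |f ω| ^ (ρ - 2)) : ℝ)) : 𝕜)) p μ =
        eLpNorm (fun ω => (K ^ (ρ - 1))⁻¹ * (f ω * |f ω| ^ (ρ - 2))) p μ :=
      eLpNorm_congr_norm_ae (ae_of_all _ (fun ω => by rw [RCLike.norm_ofReal]; rfl))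
    have h2 : eLpNorm (fun ω => (K ^ (ρ - 1))⁻¹ * (f ω * |f ω| ^ (ρ - 2))) p μ =
        ‖(K ^ (ρ - 1))⁻¹‖ₑ * eLpNorm f r μ ^ (ρ - 1) := by
      have := eLpNorm_const_smul (μ := μ) (p := p) ((K ^ (ρ - 1))⁻¹)
        (fun ω => f ω * |f ω| ^ (ρ - 2))
      rw [hFnorm] at this
      exact this
    rw [h1, h2, ENNReal.toReal_mul, ← ENNReal.toReal_rpow, ← hKdef, toReal_enorm,
      Real.norm_eq_abs, abs_of_nonneg (by positivity), inv_mul_cancel₀ (by positivity)]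
  · rw [ContinuousLinearMap.lpPairing_eq_integral]
    have h1 : (fun ω => (ContinuousLinearMap.mul 𝕜 𝕜) ((toE 𝕜 hX : Lp 𝕜 p μ) ω)
        ((toE 𝕜 hf : Lp 𝕜 r μ) ω)) =ᵐ[μ]
        fun ω => (((K ^ (ρ - 1))⁻¹ * |f ω| ^ ρ : ℝ) : 𝕜) := by
      filter_upwards [(hX.ofReal (K := 𝕜)).coeFn_toLp, (hf.ofReal (K := 𝕜)).coeFn_toLp]
        with ω h2 h3
      rw [toE, toE, h2, h3, ContinuousLinearMap.mul_apply', ← RCLike.ofReal_mul,
        ← mul_mul_abs_rpow hρ]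
      congr 1
      ring
    rw [integral_congr_ae h1, integral_ofReal, integral_const_mul, ← hKpow]
    congr 1
    rw [show ρ = (ρ - 1) + 1 by ring, Real.rpow_add hpos, Real.rpow_one,
      show (ρ - 1) + 1 - 1 = ρ - 1 by ring, ← mul_assoc, inv_mul_cancel₀ (by positivity), one_mul]

theorem norm_pairing_le {p r : ℝ≥0∞} [Fact (1 ≤ p)] [Fact (1 ≤ r)] [p.HolderConjugate r]
    (x : Lp 𝕜 p μ) (f : Lp 𝕜 r μ) :
    ‖(ContinuousLinearMap.mul 𝕜 𝕜).lpPairing μ p r x f‖ ≤ ‖x‖ * ‖f‖ := by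
  have h1 : (ContinuousLinearMap.mul 𝕜 𝕜).lpPairing μ p r x f =
      ∫ ω, ((ContinuousLinearMap.mul 𝕜 𝕜).holder 1 x f : Ω → 𝕜) ω ∂μ := by
    rw [ContinuousLinearMap.lpPairing_eq_integral]
    exact (integral_congr_ae (ContinuousLinearMap.coeFn_holder _ _ _)).symm
  rw [h1, ← L1.integral_eq_integral]
  refine (L1.norm_integral_le _).trans ?_
  refine (ContinuousLinearMap.norm_holder_apply_apply_le _ _ _).trans ?_
  have h2 : ‖ContinuousLinearMap.mul 𝕜 𝕜‖ ≤ 1 := ContinuousLinearMap.opNorm_mul_le 𝕜 𝕜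
  nlinarith [norm_nonneg x, norm_nonneg f, mul_nonneg (norm_nonneg x) (norm_nonneg f)]

end

end Pool.Agent.W5h45.WM
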