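import Pool.Agent.W5h45.WM5

open Filter Topology MeasureTheory ProbabilityTheory
open scoped ENNReal NNReal InnerProductSpace

namespace Pool.Agent.W5h45.WM

section
variable {𝕜 : Type*} [RCLike 𝕜] {Ω : Type*} [MeasurableSpace Ω] {μ : Measure Ω}

theorem pair_toE {r : ℝ≥0∞} {h : ℕ → Ω → ℝ} (hm : ∀ n, MemLp (h n) r μ) (a σ : ℝ) (k : ℕ) :
    ∃ hh : MemLp (fun ω => a * h 0 ω + σ * h (k + 1) ω) r μ,
      (a : 𝕜) • toE 𝕜 (hm 0) + (σ : 𝕜) • toE 𝕜 (hm (k + 1)) = toE 𝕜 hh := by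
  refine ⟨((hm 0).const_mul a).add ((hm (k + 1)).const_mul σ), ?_⟩
  unfold toE
  rw [← MemLp.toLp_const_smul, ← MemLp.toLp_const_smul, ← MemLp.toLp_add]
  congr 1
  funext ω
  simp

theorem norm_toE {r : ℝ≥0∞} {f : Ω → ℝ} (hf : MemLp f r μ) :
    ‖toE 𝕜 hf‖ = (eLpNorm f r μ).toReal := by
  rw [toE, Lp.norm_toLp]
  congr 1
  exact eLpNorm_congr_norm_ae (ae_of_all _ (fun ω => by rw [RCLike.norm_ofReal]; rfl))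

theorem inner_u (a σ : ℝ) (k : ℕ) (v : ell2 𝕜) :
    ⟪(lp.single 2 0 (a : 𝕜) + lp.single 2 (k + 1) (σ : 𝕜) : ell2 𝕜), v⟫_𝕜 =
      (a : 𝕜) * (v : ∀ _ : ℕ, 𝕜) 0 + (σ : 𝕜) * (v : ∀ _ : ℕ, 𝕜) (k + 1) := by
  rw [inner_add_left, lp.inner_single_left, lp.inner_single_left]
  simp [mul_comm]

theorem norm_u {a σ : ℝ} (h : a ^ 2 + σ ^ 2 = 1) (k : ℕ) :
    ‖(lp.single 2 0 (a : 𝕜) + lp.single 2 (k + 1) (σ : 𝕜) : ell2 𝕜)‖ = 1 := by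
  have h1 : ‖(lp.single 2 0 (a : 𝕜) + lp.single 2 (k + 1) (σ : 𝕜) : ell2 𝕜)‖ ^ 2 = 1 := by
    rw [← inner_self_eq_norm_sq (𝕜 := 𝕜), inner_u, lp.coeFn_add, Pi.add_apply, Pi.add_apply,
      lp.single_apply_self, lp.single_apply_self, lp.single_apply_ne _ _ _ (Nat.succ_ne_zero k).symm,
      lp.single_apply_ne _ _ _ (Nat.succ_ne_zero k), add_zero, zero_add, ← RCLike.ofReal_mul,
      ← RCLike.ofReal_mul, ← RCLike.ofReal_add, RCLike.ofReal_re]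
    linarith
  have h2 : 0 ≤ ‖(lp.single 2 0 (a : 𝕜) + lp.single 2 (k + 1) (σ : 𝕜) : ell2 𝕜)‖ := norm_nonneg _
  nlinarith

theorem eq_of_inner {E : Type*} [NormedAddCommGroup E] [InnerProductSpace 𝕜 E] {u v : E}
    (hu : ‖u‖ = 1) (hv : ‖v‖ ≤ 1) (huv : ⟪u, v⟫_𝕜 = 1) : v = u := by
  have h1 := norm_sub_sq (𝕜 := 𝕜) u v
  rw [huv, hu, RCLike.one_re] at h1
  have h2 : ‖u - v‖ ^ 2 ≤ 0 := by nlinarith [norm_nonneg v]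
  have h3 : ‖u - v‖ = 0 := by nlinarith [norm_nonneg (u - v)]
  exact (sub_eq_zero.1 (norm_eq_zero.1 h3)).symm

theorem exists_P {p r : ℝ≥0∞} [Fact (1 ≤ p)] [Fact (1 ≤ r)] [p.HolderConjugate r]
    (hr1 : 1 < r) (h2 : 2 ≤ r) (hr : r ≠ ∞) (hp : p ≠ ∞) {h : ℕ → Ω → ℝ} {K : ℝ} (hK : 0 < K)
    (hS : Sys r μ h K) :
    ∃ P : Lp 𝕜 p μ →L[𝕜] ell2 𝕜, (∀ x, ‖P x‖ ≤ ‖x‖) ∧
      (∀ x n, (P x : ∀ _ : ℕ, 𝕜) n =
        (K : 𝕜)⁻¹ * (ContinuousLinearMap.mul 𝕜 𝕜).lpPairing μ p r x (toE 𝕜 (hS.mem n))) ∧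
      ∀ (a σ : ℝ) (k : ℕ), a ^ 2 + σ ^ 2 = 1 →
        (eLpNorm (fun ω => a * h 0 ω + σ * h (k + 1) ω) r μ).toReal = K →
        ∃ x : Lp 𝕜 p μ, ‖x‖ = 1 ∧ P x = lp.single 2 0 (a : 𝕜) + lp.single 2 (k + 1) (σ : 𝕜) := by
  set β := (ContinuousLinearMap.mul 𝕜 𝕜).lpPairing μ p r with hβ
  have hbd : ∀ (F : Finset ℕ) (z : ℕ → 𝕜),
      ‖∑ n ∈ F, z n • ((K : 𝕜)⁻¹ • β.flip (toE 𝕜 (hS.mem n)))‖ ≤
        1 * Real.sqrt (∑ n ∈ F, ‖z n‖ ^ 2) := by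
    intro F z
    have e1 : ∑ n ∈ F, z n • ((K : 𝕜)⁻¹ • β.flip (toE 𝕜 (hS.mem n))) =
        (K : 𝕜)⁻¹ • β.flip (∑ n ∈ F, z n • toE 𝕜 (hS.mem n)) := by
      rw [map_sum, Finset.smul_sum]
      refine Finset.sum_congr rfl (fun n _ => ?_)
      rw [map_smul, smul_comm]
    rw [e1, norm_smul, norm_inv, RCLike.norm_ofReal, abs_of_pos hK]
    have e2 : ‖β.flip (∑ n ∈ F, z n • toE 𝕜 (hS.mem n))‖ ≤ K * Real.sqrt (∑ n ∈ F, ‖z n‖ ^ 2) := by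
      refine (ContinuousLinearMap.opNorm_le_bound _ (norm_nonneg
        (∑ n ∈ F, z n • toE 𝕜 (hS.mem n))) (fun x => ?_)).trans (hS.boundC h2 hK.le F z)
      rw [ContinuousLinearMap.flip_apply, mul_comm]
      exact norm_pairing_le _ _
    rw [one_mul, inv_mul_le_iff₀ hK]
    exact e2
  obtain ⟨P, hP1, hP2⟩ := exists_anal (fun n => (K : 𝕜)⁻¹ • β.flip (toE 𝕜 (hS.mem n))) 1
    zero_le_one hbd
  refine ⟨P, fun x => by simpa using hP1 x, fun x n => by rw [hP2]; rfl, ?_⟩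
  intro a σ k haσ hnorm
  obtain ⟨hh, hpair⟩ := pair_toE (𝕜 := 𝕜) hS.mem a σ k
  obtain ⟨x, hx1, hx2⟩ := exists_norming (𝕜 := 𝕜) (p := p) hr1 hr hp hh (by rw [hnorm]; exact hK)
  refine ⟨x, hx1, ?_⟩
  refine eq_of_inner (𝕜 := 𝕜) (norm_u haσ k) ?_ ?_
  · have := hP1 x
    rwa [hx1, mul_one] at this
  · rw [inner_u, hP2, hP2]
    change (a : 𝕜) * ((K : 𝕜)⁻¹ * β x (toE 𝕜 (hS.mem 0))) +
      (σ : 𝕜) * ((K : 𝕜)⁻¹ * β x (toE 𝕜 (hS.mem (k + 1)))) = 1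
    have e3 : β x (toE 𝕜 hh) = (a : 𝕜) * β x (toE 𝕜 (hS.mem 0)) +
        (σ : 𝕜) * β x (toE 𝕜 (hS.mem (k + 1))) := by
      rw [← hpair, map_add, map_smul, map_smul, smul_eq_mul, smul_eq_mul]
    rw [hx2, hnorm] at e3
    have hK' : (K : 𝕜) ≠ 0 := by exact_mod_cast hK.ne'
    calc (a : 𝕜) * ((K : 𝕜)⁻¹ * β x (toE 𝕜 (hS.mem 0))) +
      (σ : 𝕜) * ((K : 𝕜)⁻¹ * β x (toE 𝕜 (hS.mem (k + 1))))
        = (K : 𝕜)⁻¹ * ((a : 𝕜) * β x (toE 𝕜 (hS.mem 0)) +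
        (σ : 𝕜) * β x (toE 𝕜 (hS.mem (k + 1)))) := by ring
      _ = 1 := by rw [← e3, inv_mul_cancel₀ hK']

theorem exists_R {r : ℝ≥0∞} [Fact (1 ≤ r)] (h2 : 2 ≤ r) {h : ℕ → Ω → ℝ} {K : ℝ} (hK : 0 ≤ K)
    (hS : Sys r μ h K) :
    ∃ R : ell2 𝕜 →L[𝕜] Lp 𝕜 r μ, (∀ z, ‖R z‖ ≤ K * ‖z‖) ∧
      (∀ (a σ : ℝ) (k : ℕ), ‖R (lp.single 2 0 (a : 𝕜) + lp.single 2 (k + 1) (σ : 𝕜))‖ =
        (eLpNorm (fun ω => a * h 0 ω + σ * h (k + 1) ω) r μ).toReal) ∧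
      ∀ α : 𝕜, ‖R (lp.single 2 0 α)‖ = ‖α‖ * (eLpNorm (h 0) r μ).toReal := by
  obtain ⟨R, hR1, hR2⟩ := exists_synth (fun n => toE 𝕜 (hS.mem n)) K hK (hS.boundC h2 hK)
  have hsingle : ∀ (n : ℕ) (α : 𝕜), R (lp.single 2 n α) = α • toE 𝕜 (hS.mem n) := by
    intro n α
    have h3 := hR2 (lp.single 2 n α)
    have h4 := hasSum_single (f := fun m => ((lp.single 2 n α : ell2 𝕜) : ∀ _ : ℕ, 𝕜) m •
      toE 𝕜 (hS.mem m)) n (fun m hm => by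
        rw [lp.single_apply_ne _ _ _ hm, zero_smul])
    rw [lp.single_apply_self] at h4
    exact h3.unique h4
  refine ⟨R, hR1, ?_, ?_⟩
  · intro a σ k
    obtain ⟨hh, hpair⟩ := pair_toE (𝕜 := 𝕜) hS.mem a σ k
    rw [map_add, hsingle, hsingle, hpair, norm_toE]
  · intro α
    rw [hsingle, norm_smul, norm_toE]

end

end Pool.Agent.W5h45.WM
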