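import Pool.Agent.W5h45.WM6

open Filter Topology MeasureTheory ProbabilityTheory
open scoped ENNReal NNReal InnerProductSpace

namespace Pool.Agent.W5h45.WM

/-- the sequence `c, g 1, g 2, ...` -/
noncomputable def hseq (g : ℕ → unitInterval → ℝ) (c : ℝ) (n : ℕ) : unitInterval → ℝ :=
  if n = 0 then fun _ => c else g n

theorem hseq_zero (g : ℕ → unitInterval → ℝ) (c : ℝ) : hseq g c 0 = fun _ => c := by
  simp [hseq]

theorem hseq_succ (g : ℕ → unitInterval → ℝ) (c : ℝ) (k : ℕ) : hseq g c (k + 1) = g (k + 1) := by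
  simp [hseq]

theorem hseq_sum (g : ℕ → unitInterval → ℝ) (c : ℝ) (F : Finset ℕ) (z : ℕ → ℝ) (ω : unitInterval) :
    ∑ n ∈ F, z n * hseq g c n ω =
      (if 0 ∈ F then z 0 else 0) * c + ∑ n ∈ F.erase 0, z n * g n ω := by
  have h1 : ∑ n ∈ F.erase 0, z n * hseq g c n ω = ∑ n ∈ F.erase 0, z n * g n ω := by
    refine Finset.sum_congr rfl (fun n hn => ?_)
    have hn0 : n ≠ 0 := Finset.ne_of_mem_erase hn
    simp [hseq, hn0]
  by_cases h0 : 0 ∈ F
  · rw [← Finset.add_sum_erase F _ h0, h1, if_pos h0, hseq_zero]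
  · rw [if_neg h0, zero_mul, zero_add, ← h1, Finset.erase_eq_of_notMem h0]

theorem sq_sum (F : Finset ℕ) (z : ℕ → ℝ) :
    ∑ n ∈ F, z n ^ 2 = (if 0 ∈ F then z 0 else 0) ^ 2 + ∑ n ∈ F.erase 0, z n ^ 2 := by
  by_cases h0 : 0 ∈ F
  · rw [← Finset.add_sum_erase F _ h0, if_pos h0]
  · rw [if_neg h0, Finset.erase_eq_of_notMem h0]
    ring

section
variable {g : ℕ → unitInterval → ℝ} (hg : ∀ n, Measurable (g n))
    (hlaw : ∀ (F : Finset ℕ) (z : ℕ → ℝ),
      (volume : Measure unitInterval).map (fun ω => ∑ n ∈ F, z n * g n ω) =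
        gaussianReal 0 (Real.toNNReal (∑ n ∈ F, z n ^ 2)))
include hg hlaw

theorem mem_g (r : ℝ≥0∞) (hr : r ≠ ∞) (n : ℕ) : MemLp (g n) r (volume : Measure unitInterval) := by
  have h := memLp_const_add_sum hg hlaw r hr 0 {n} (fun _ => 1)
  simpa using h

theorem norm_pair (r : ℝ≥0∞) (m σ : ℝ) (hσ : 0 ≤ σ) (k : ℕ) :
    (eLpNorm (fun ω => m + σ * g k ω) r (volume : Measure unitInterval)).toReal = N r m σ := by
  have h := eLpNorm_const_add_sum hg hlaw r m {k} (fun _ => σ)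
  simp only [Finset.sum_singleton] at h
  rw [h, Real.sqrt_sq hσ]
  rfl

theorem sys_hseq {r : ℝ≥0∞} (hr : r ≠ ∞) {c K : ℝ}
    (hmax : ∀ a' σ' : ℝ, 0 ≤ σ' → N r (a' * c) σ' ≤ K * Real.sqrt (a' ^ 2 + σ' ^ 2)) :
    Sys r (volume : Measure unitInterval) (hseq g c) K := by
  refine ⟨fun n => ?_, fun F z => ?_⟩
  · unfold hseq
    split_ifs
    · exact memLp_const c
    · exact mem_g hg hlaw r hr n
  · simp only [hseq_sum]
    rw [eLpNorm_const_add_sum hg hlaw]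
    have h1 := hmax (if 0 ∈ F then z 0 else 0) (Real.sqrt (∑ n ∈ F.erase 0, z n ^ 2))
      (Real.sqrt_nonneg _)
    rw [Real.sq_sqrt (Finset.sum_nonneg (fun n _ => sq_nonneg _)), ← sq_sum] at h1
    exact h1

theorem sys_g {r : ℝ≥0∞} (hr : r ≠ ∞) :
    Sys r (volume : Measure unitInterval) g (N r 0 1) := by
  refine ⟨mem_g hg hlaw r hr, fun F z => ?_⟩
  have h := eLpNorm_const_add_sum hg hlaw r 0 F z
  simp only [zero_add] at h
  rw [h]
  have h2 := N_zero_left r (Real.sqrt (∑ n ∈ F, z n ^ 2))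
  rw [abs_of_nonneg (Real.sqrt_nonneg _), mul_comm] at h2
  rw [← h2, N]
  simp

theorem norm_pair_g (r : ℝ≥0∞) (a σ : ℝ) (haσ : a ^ 2 + σ ^ 2 = 1) (k : ℕ) :
    (eLpNorm (fun ω => a * g 0 ω + σ * g (k + 1) ω) r (volume : Measure unitInterval)).toReal =
      N r 0 1 := by
  have h := eLpNorm_const_add_sum hg hlaw r 0 {0, k + 1} (fun n => if n = 0 then a else σ)
  have h0 : (0 : ℕ) ∉ ({k + 1} : Finset ℕ) := by simp
  simp only [zero_add, Finset.sum_insert h0, Finset.sum_singleton, if_true, Nat.add_eq_zero_iff,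
    one_ne_zero, and_false, if_false, haσ, Real.sqrt_one] at h
  rw [h, N]
  simp

end

theorem conj_facts {p r : ℝ≥0∞} [h : p.HolderConjugate r] (hp1 : 1 < p) (hp2 : p ≤ 2) :
    2 ≤ r ∧ r ≠ ∞ ∧ (p ≠ 2 → 2 < r) := by
  have hinv : p⁻¹ + r⁻¹ = 1 := by
    have := h.inv_add_inv_eq_inv
    rwa [inv_one] at this
  have hp0 : p⁻¹ ≠ ∞ := by
    rw [ENNReal.inv_ne_top]
    exact (lt_trans zero_lt_one hp1).ne'
  have hp3 : p⁻¹ < 1 := by
    rw [ENNReal.inv_lt_one]; exact hp1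
  have hp4 : 2⁻¹ ≤ p⁻¹ := ENNReal.inv_le_inv.2 hp2
  have hr : r⁻¹ = 1 - p⁻¹ := by
    rw [← hinv, ENNReal.add_sub_cancel_left hp0]
  have h12 : (1 : ℝ≥0∞) - 2⁻¹ = 2⁻¹ := ENNReal.one_sub_inv_two
  refine ⟨?_, ?_, ?_⟩
  · rw [← ENNReal.inv_le_inv, hr, ← h12]
    exact tsub_le_tsub_left hp4 1
  · intro htop
    rw [htop, ENNReal.inv_top] at hr
    have := tsub_pos_of_lt hp3
    rw [← hr] at this
    exact lt_irrefl _ this
  · intro hne
    have hp5 : (2 : ℝ≥0∞)⁻¹ < p⁻¹ := ENNReal.inv_lt_inv.2 (lt_of_le_of_ne hp2 hne)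
    rw [← ENNReal.inv_lt_inv]
    by_contra hle
    push Not at hle
    have h7 : (2 : ℝ≥0∞)⁻¹ + 2⁻¹ < p⁻¹ + r⁻¹ :=
      ENNReal.add_lt_add_of_lt_of_le (by norm_num) hp5 hle
    rw [hinv, ENNReal.inv_two_add_inv_two] at h7
    exact lt_irrefl _ h7

/-- The pair `(L_p[0,1], L_q[0,1])` fails the weak maximizing property. -/
theorem not_wmp (𝕜 : Type*) [RCLike 𝕜] (p q : ℝ≥0∞) [Fact (1 ≤ p)] [Fact (1 ≤ q)]
    (hp1 : 1 < p) (hp2 : p ≤ 2) (hq2 : 2 ≤ q) (hq : q ≠ ∞) (hne : ¬(p = 2 ∧ q = 2)) :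
    ¬ WMP 𝕜 (Lp 𝕜 p (volume : Measure unitInterval)) (Lp 𝕜 q (volume : Measure unitInterval)) := by
  obtain ⟨g, hg, hlaw⟩ := exists_gauss
  obtain ⟨r, hpr⟩ : ∃ r : ℝ≥0∞, p.HolderConjugate r := ⟨_, ENNReal.HolderConjugate.conjExponent hp1.le⟩
  obtain ⟨hr2, hrtop, hr3⟩ := conj_facts (p := p) (r := r) hp1 hp2
  have hr1 : 1 < r := lt_of_lt_of_le (by norm_num) hr2
  have : Fact (1 ≤ r) := ⟨hr1.le⟩
  have hptop : p ≠ ∞ := (lt_of_le_of_lt hp2 (by norm_num)).ne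
  rcases eq_or_lt_of_le hq2 with hq2' | hq2'
  · -- case `q = 2`, `p < 2`
    subst hq2'
    have hp2' : p ≠ 2 := fun h => hne ⟨h, rfl⟩
    have hr4 := hr3 hp2'
    obtain ⟨K, a, σ, hBK, ha, hσ, haσ, hK, hmax⟩ := exists_K hr4 hrtop
    have hB := one_lt_B hr4 hrtop
    set B := N r 0 1 with hBdef
    have hK0 : 0 < K := by linarith
    have hsys := sys_hseq hg hlaw hrtop hmax
    obtain ⟨P, hP1, hP2, hP3⟩ := exists_P (𝕜 := 𝕜) (p := p) hr1 hr2 hrtop hptop hK0 hsys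
    have hsys2 : Sys 2 (volume : Measure unitInterval) (hseq g 1) 1 :=
      sys_hseq hg hlaw (by norm_num) (fun a' σ' _ => by rw [N_two, mul_one, one_mul])
    obtain ⟨R, hR1, hR2, hR3⟩ := exists_R (𝕜 := 𝕜) (le_refl 2) zero_le_one hsys2
    have hx : ∀ k : ℕ, ∃ x : Lp 𝕜 p (volume : Measure unitInterval), ‖x‖ = 1 ∧
        P x = lp.single 2 0 (a : 𝕜) + lp.single 2 (k + 1) (σ : 𝕜) := by
      intro k
      refine hP3 a σ k haσ ?_
      rw [hseq_zero, hseq_succ, norm_pair hg hlaw r (a * B) σ hσ, hK]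
    choose x hx1 hx2 using hx
    refine not_wmp_of P R 1 one_pos hP1 hR1 a σ ha x hx1 hx2 ?_ ?_
    · intro k
      rw [hR2, hseq_zero, hseq_succ, norm_pair hg hlaw 2 (a * 1) σ hσ, N_two, mul_one, haσ,
        Real.sqrt_one]
    · intro y hy α hα
      rw [hα, hR3, one_mul]
      have h1 : (eLpNorm (hseq g 1 0) 2 (volume : Measure unitInterval)).toReal = 1 := by
        rw [hseq_zero, eLpNorm_const' _ (by norm_num) (by norm_num)]
        simp
      rw [h1, mul_one]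
      have h2 := hP2 y 0
      rw [hα, lp.single_apply_self] at h2
      rw [h2, norm_mul, norm_inv, RCLike.norm_ofReal, abs_of_pos hK0, inv_mul_lt_iff₀ hK0]
      refine (norm_pairing_le _ _).trans_lt ?_
      rw [norm_toE]
      have h3 : (eLpNorm (hseq g B 0) r (volume : Measure unitInterval)).toReal = B := by
        rw [hseq_zero, eLpNorm_const' _ (by positivity) hrtop]
        simp [abs_of_pos (lt_trans one_pos hB)]
      rw [h3, mul_comm]
      exact mul_lt_mul_of_pos_right hBK (norm_pos_iff.2 hy)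
  · -- case `q > 2`
    obtain ⟨K, a, σ, hBK, ha, hσ, haσ, hK, hmax⟩ := exists_K hq2' hq
    have hB := one_lt_B hq2' hq
    set B := N q 0 1 with hBdef
    have hK0 : 0 < K := by linarith
    have hsys := sys_hseq hg hlaw hq hmax
    have hsys2 := sys_g hg hlaw hrtop
    have hBr : 0 < N r 0 1 := by
      rcases eq_or_lt_of_le hr2 with h | h
      · rw [← h, B_two]; exact one_pos
      · exact lt_trans one_pos (one_lt_B h hrtop)
    obtain ⟨P, hP1, hP2, hP3⟩ := exists_P (𝕜 := 𝕜) (p := p) hr1 hr2 hrtop hptop hBr hsys2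
    obtain ⟨R, hR1, hR2, hR3⟩ := exists_R (𝕜 := 𝕜) hq2 hK0.le hsys
    have hx : ∀ k : ℕ, ∃ x : Lp 𝕜 p (volume : Measure unitInterval), ‖x‖ = 1 ∧
        P x = lp.single 2 0 (a : 𝕜) + lp.single 2 (k + 1) (σ : 𝕜) :=
      fun k => hP3 a σ k haσ (norm_pair_g hg hlaw r a σ haσ k)
    choose x hx1 hx2 using hx
    refine not_wmp_of P R K hK0 hP1 hR1 a σ ha x hx1 hx2 ?_ ?_
    · intro k
      rw [hR2, hseq_zero, hseq_succ, norm_pair hg hlaw q (a * B) σ hσ, hK]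
    · intro y hy α hα
      have h0 : ‖α‖ ≤ ‖y‖ := by
        have := hP1 y
        rwa [hα, lp.norm_single (by norm_num)] at this
      rw [hα, hR3]
      have h3 : (eLpNorm (hseq g B 0) q (volume : Measure unitInterval)).toReal = B := by
        rw [hseq_zero, eLpNorm_const' _ (by positivity) hq]
        simp [abs_of_pos (lt_trans one_pos hB)]
      rw [h3]
      have hy0 : 0 < ‖y‖ := norm_pos_iff.2 hy
      nlinarith [norm_nonneg α]

end Pool.Agent.W5h45.WM
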